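import Pool.Agent.PP5D.Defs
import Pool.Agent.FTA.DivB

/-!
# PP5D/Ten: the zeros of the form of ten variables
-/

set_option autoImplicit false

namespace Pool.Agent.PP5D

/-- the box of integers -/
private noncomputable def Ten_B (T : ℝ) : Finset ℤ := Finset.Icc (-⌊T⌋) ⌊T⌋

private theorem Ten_mem {T : ℝ} {a : ℤ} : a ∈ Ten_B T ↔ |(a : ℝ)| ≤ T := by
  rw [Ten_B, Finset.mem_Icc, abs_le, Int.le_floor]
  constructor
  · rintro ⟨h1, h2⟩
    refine ⟨?_, h2⟩
    have : (-a : ℤ) ≤ ⌊T⌋ := by omega
    have h3 := Int.le_floor.1 this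
    push_cast at h3
    linarith
  · rintro ⟨h1, h2⟩
    refine ⟨?_, h2⟩
    have : (-a : ℤ) ≤ ⌊T⌋ := by
      rw [Int.le_floor]; push_cast; linarith
    omega

private theorem Ten_card {T : ℝ} (hT : 1 ≤ T) : ((Ten_B T).card : ℝ) ≤ 3 * T := by
  rw [Ten_B, Int.card_Icc]
  have h0 : (0 : ℤ) ≤ ⌊T⌋ := Int.floor_nonneg.2 (by linarith)
  have h1 : ((⌊T⌋ + 1 - -⌊T⌋).toNat : ℤ) = 2 * ⌊T⌋ + 1 := by
    rw [Int.toNat_of_nonneg (by omega)]; ring
  have h2 : (((⌊T⌋ + 1 - -⌊T⌋).toNat : ℕ) : ℝ) = 2 * (⌊T⌋ : ℝ) + 1 := by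
    exact_mod_cast h1
  rw [h2]
  have := Int.floor_le T
  linarith

/-- the pairs of product `n` -/
private theorem Ten_pairs (n : ℤ) (hn : n ≠ 0) (S : Finset (ℤ × ℤ))
    (hS : ∀ p ∈ S, p.1 * p.2 = n) : S.card ≤ 2 * n.natAbs.divisors.card := by
  classical
  have hmap : ∀ p ∈ S, (p.1.natAbs, decide (0 < p.1)) ∈ n.natAbs.divisors ×ˢ
      (Finset.univ : Finset Bool) := by
    intro p hp
    rw [Finset.mem_product]
    refine ⟨?_, Finset.mem_univ _⟩
    rw [Nat.mem_divisors]
    refine ⟨?_, Int.natAbs_ne_zero.2 hn⟩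
    rw [Int.natAbs_dvd_natAbs, ← hS p hp]
    exact dvd_mul_right _ _
  have hinj : Set.InjOn (fun p : ℤ × ℤ => (p.1.natAbs, decide (0 < p.1))) (S : Set (ℤ × ℤ)) := by
    intro p hp q hq hpq
    simp only [Prod.mk.injEq, decide_eq_decide] at hpq
    obtain ⟨h1, h2⟩ := hpq
    have hp' := hS p hp
    have hq' := hS q hq
    have hp0 : p.1 ≠ 0 := by rintro h; rw [h, zero_mul] at hp'; exact hn hp'.symm
    have hpq1 : p.1 = q.1 := by omega
    refine Prod.ext hpq1 ?_
    rw [← hpq1, ← hp'] at hq'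
    exact (mul_left_cancel₀ hp0 hq').symm
  have := Finset.card_le_card_of_injOn _ hmap hinj
  rw [Finset.card_product, Finset.card_univ, Fintype.card_bool] at this
  omega

/-- PROOF. `x 0 * x 2 = n`, `n = x 9 * x 6 + x 1 * x 3 + x 4 * x 5 - x 7 * x 8`, `|n| ≤ 4 T ^ 2`. The eight
coordinates other than `0, 2` have at most `(2 T + 1) ^ 8 ≤ (3 T) ^ 8` values; if `n ≠ 0` there are at most
`2 * card (divisors |n|) ≤ 2 C (4 T ^ 2) ^ (eps / 2)` pairs `(x 0, x 2)` (`Pool.Agent.FTA`
`divisor_bound` with `eps / 2`). If `n = 0`: `x 0 = 0` or `x 2 = 0`, at most `2 (3 T)` pairs, and the eight coordinates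
satisfy one equation: `x 9 = 0` (at most `(3 T) ^ 7`) or `x 9 ≠ 0` and `x 6` is determined by the other seven (at most
`(3 T) ^ 7`). -/
theorem ten (eps : ℝ) (he : 0 < eps) : ∃ C : ℝ, 0 < C ∧ ∀ T : ℝ, 1 ≤ T →
    ∀ S : Finset X10, (∀ x ∈ S, F10 x = 0 ∧ ∀ j, |(x j : ℝ)| ≤ T) →
      (S.card : ℝ) ≤ C * T ^ eps * T ^ 8 := by
  classical
  obtain ⟨C0, hC0, hdiv⟩ := Pool.Agent.FTA.divisor_bound (ε := eps / 2) (by positivity)
  refine ⟨2 * C0 * 4 ^ (eps / 2) * 3 ^ 8 + 4 * 3 ^ 8, by positivity, ?_⟩
  intro T hT S hS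
  have hT0 : 0 < T := by linarith
  have hcard := Ten_card hT
  have hB0 : (0 : ℝ) ≤ ((Ten_B T).card : ℝ) := by positivity
  -- the part with `x 0 * x 2 ≠ 0`
  let m8 : X10 → (Fin 8 → ℤ) := fun x => ![x 1, x 3, x 4, x 5, x 6, x 7, x 8, x 9]
  let Bx8 : Finset (Fin 8 → ℤ) := Fintype.piFinset fun _ => Ten_B T
  have hBx8 : (Bx8.card : ℝ) ≤ (3 * T) ^ 8 := by
    have : Bx8.card = (Ten_B T).card ^ 8 := by
      simp [Bx8, Fintype.card_piFinset]
    rw [this]
    push_cast
    exact pow_le_pow_left₀ hB0 hcard 8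
  have hmem : ∀ x ∈ S, ∀ j, x j ∈ Ten_B T := fun x hx j => Ten_mem.2 ((hS x hx).2 j)
  -- the first part
  obtain ⟨S1, hS1⟩ : ∃ S1, S1 = S.filter (fun x => x 0 * x 2 ≠ 0) := ⟨_, rfl⟩
  obtain ⟨S2, hS2⟩ : ∃ S2, S2 = S.filter (fun x => ¬ x 0 * x 2 ≠ 0) := ⟨_, rfl⟩
  have hsplit : S.card = S1.card + S2.card := by
    rw [hS1, hS2, Finset.card_filter_add_card_filter_not]
  have hS1card : (S1.card : ℝ) ≤ (3 * T) ^ 8 * (2 * (C0 * (4 * T ^ 2) ^ (eps / 2))) := by
    have hmaps : ∀ x ∈ S1, m8 x ∈ Bx8 := by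
      intro x hx
      rw [hS1, Finset.mem_filter] at hx
      have := hmem x hx.1
      rw [Fintype.mem_piFinset]
      intro i
      fin_cases i
      · exact this 1
      · exact this 3
      · exact this 4
      · exact this 5
      · exact this 6
      · exact this 7
      · exact this 8
      · exact this 9
    have hsum : (S1.card : ℝ) = ∑ y ∈ Bx8, ((S1.filter (fun x => m8 x = y)).card : ℝ) := by
      rw [Finset.card_eq_sum_card_fiberwise hmaps]
      push_cast
      rfl
    rw [hsum]
    have hfib : ∀ y ∈ Bx8, ((S1.filter (fun x => m8 x = y)).card : ℝ) ≤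
        2 * (C0 * (4 * T ^ 2) ^ (eps / 2)) := by
      intro y hy
      by_cases hne : (S1.filter (fun x => m8 x = y)).Nonempty
      · obtain ⟨x0, hx0⟩ := hne
        obtain ⟨hx0S, hx0y⟩ := Finset.mem_filter.1 hx0
        have hx0S' := hx0S
        rw [hS1, Finset.mem_filter] at hx0S
        obtain ⟨n, hn⟩ : ∃ n : ℤ, n = x0 0 * x0 2 := ⟨_, rfl⟩
        have hn0 : n ≠ 0 := by rw [hn]; exact hx0S.2
        have hval : ∀ x ∈ S1.filter (fun x => m8 x = y), x 0 * x 2 = n := by
          intro x hx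
          obtain ⟨hxS, hxy⟩ := Finset.mem_filter.1 hx
          rw [hS1, Finset.mem_filter] at hxS
          have hF := (hS x hxS.1).1
          have hF0 := (hS x0 hx0S.1).1
          have hyy : m8 x = m8 x0 := hxy.trans hx0y.symm
          have g0 : x 1 = x0 1 := congrFun hyy 0
          have g1 : x 3 = x0 3 := congrFun hyy 1
          have g2 : x 4 = x0 4 := congrFun hyy 2
          have g3 : x 5 = x0 5 := congrFun hyy 3
          have g4 : x 6 = x0 6 := congrFun hyy 4
          have g5 : x 7 = x0 7 := congrFun hyy 5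
          have g6 : x 8 = x0 8 := congrFun hyy 6
          have g7 : x 9 = x0 9 := congrFun hyy 7
          simp only [F10] at hF hF0
          rw [g0, g1, g2, g3, g4, g5, g6, g7] at hF
          rw [hn]
          linarith
        have hcle : (S1.filter (fun x => m8 x = y)).card ≤ 2 * n.natAbs.divisors.card := by
          have hinj : Set.InjOn (fun x : X10 => (x 0, x 2))
              ((S1.filter (fun x => m8 x = y) : Finset X10) : Set X10) := by
            intro x hx x' hx' hxx
            obtain ⟨-, hxy⟩ := Finset.mem_filter.1 hx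
            obtain ⟨-, hxy'⟩ := Finset.mem_filter.1 hx'
            have hyy : m8 x = m8 x' := hxy.trans hxy'.symm
            simp only [Prod.mk.injEq] at hxx
            funext j
            fin_cases j
            · exact hxx.1
            · exact congrFun hyy 0
            · exact hxx.2
            · exact congrFun hyy 1
            · exact congrFun hyy 2
            · exact congrFun hyy 3
            · exact congrFun hyy 4
            · exact congrFun hyy 5
            · exact congrFun hyy 6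
            · exact congrFun hyy 7
          rw [← Finset.card_image_of_injOn hinj]
          apply Ten_pairs n hn0
          intro p hp
          obtain ⟨x, hx, rfl⟩ := Finset.mem_image.1 hp
          exact hval x hx
        have hcle' : ((S1.filter (fun x => m8 x = y)).card : ℝ) ≤
            2 * (n.natAbs.divisors.card : ℝ) := by exact_mod_cast hcle
        refine hcle'.trans ?_
        have hd := hdiv n.natAbs (Int.natAbs_ne_zero.2 hn0)
        refine mul_le_mul_of_nonneg_left (hd.trans ?_) (by norm_num)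
        refine mul_le_mul_of_nonneg_left ?_ hC0.le
        refine Real.rpow_le_rpow (by positivity) ?_ (by positivity)
        rw [Nat.cast_natAbs, Int.cast_abs, hn]
        push_cast
        rw [abs_mul]
        have e0 := (hS x0 hx0S.1).2 0
        have e2 := (hS x0 hx0S.1).2 2
        have : |(x0 0 : ℝ)| * |(x0 2 : ℝ)| ≤ T * T :=
          mul_le_mul e0 e2 (abs_nonneg _) hT0.le
        nlinarith
      · rw [Finset.not_nonempty_iff_eq_empty] at hne
        rw [hne]
        simp only [Finset.card_empty, Nat.cast_zero]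
        positivity
    refine (Finset.sum_le_sum hfib).trans ?_
    rw [Finset.sum_const, nsmul_eq_mul]
    exact mul_le_mul_of_nonneg_right hBx8 (by positivity)
  -- the second part
  have hS2card : (S2.card : ℝ) ≤ 4 * (3 * T) ^ 8 := by
    let Bx8' : Finset (Fin 8 → ℤ) := Fintype.piFinset fun _ => Ten_B T
    let g : X10 → (Fin 8 → ℤ) × (Bool × Bool) := fun x =>
      (![x 1, x 3, x 4, x 5, x 7, x 8, if x 9 = 0 then x 6 else x 9,
        if x 0 = 0 then x 2 else x 0], (decide (x 9 = 0), decide (x 0 = 0)))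
    have hmaps : ∀ x ∈ S2, g x ∈ Bx8' ×ˢ ((Finset.univ : Finset Bool) ×ˢ
        (Finset.univ : Finset Bool)) := by
      intro x hx
      rw [hS2, Finset.mem_filter] at hx
      have := hmem x hx.1
      rw [Finset.mem_product]
      refine ⟨?_, by simp⟩
      rw [Fintype.mem_piFinset]
      intro i
      fin_cases i
      · exact this 1
      · exact this 3
      · exact this 4
      · exact this 5
      · exact this 7
      · exact this 8
      · show (if x 9 = 0 then x 6 else x 9) ∈ Ten_B T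
        split_ifs
        · exact this 6
        · exact this 9
      · show (if x 0 = 0 then x 2 else x 0) ∈ Ten_B T
        split_ifs
        · exact this 2
        · exact this 0
    have hinj : Set.InjOn g (S2 : Set X10) := by
      intro x hx x' hx' hxx
      rw [Finset.mem_coe, hS2, Finset.mem_filter] at hx hx'
      have hF := (hS x hx.1).1
      have hF' := (hS x' hx'.1).1
      have hz : x 0 * x 2 = 0 := not_not.1 hx.2
      have hz' : x' 0 * x' 2 = 0 := not_not.1 hx'.2
      simp only [g, Prod.mk.injEq, decide_eq_decide] at hxx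
      obtain ⟨hv, h9, h0⟩ := hxx
      have g0 : x 1 = x' 1 := congrFun hv 0
      have g1 : x 3 = x' 3 := congrFun hv 1
      have g2 : x 4 = x' 4 := congrFun hv 2
      have g3 : x 5 = x' 5 := congrFun hv 3
      have g4 : x 7 = x' 7 := congrFun hv 4
      have g5 : x 8 = x' 8 := congrFun hv 5
      have g6 : (if x 9 = 0 then x 6 else x 9) = (if x' 9 = 0 then x' 6 else x' 9) :=
        congrFun hv 6
      have g7 : (if x 0 = 0 then x 2 else x 0) = (if x' 0 = 0 then x' 2 else x' 0) :=
        congrFun hv 7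
      have k02 : x 0 = x' 0 ∧ x 2 = x' 2 := by
        by_cases h : x 0 = 0
        · have h' := h0.1 h
          rw [if_pos h, if_pos h'] at g7
          exact ⟨h.trans h'.symm, g7⟩
        · have h' : ¬ x' 0 = 0 := fun hh => h (h0.2 hh)
          rw [if_neg h, if_neg h'] at g7
          refine ⟨g7, ?_⟩
          rw [(mul_eq_zero.1 hz).resolve_left h, (mul_eq_zero.1 hz').resolve_left h']
      have k96 : x 9 = x' 9 ∧ x 6 = x' 6 := by
        by_cases h : x 9 = 0
        · have h' := h9.1 h
          rw [if_pos h, if_pos h'] at g6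
          exact ⟨h.trans h'.symm, g6⟩
        · have h' : ¬ x' 9 = 0 := fun hh => h (h9.2 hh)
          rw [if_neg h, if_neg h'] at g6
          refine ⟨g6, ?_⟩
          simp only [F10] at hF hF'
          rw [g0, g1, g2, g3, g4, g5, hz, g6] at hF
          rw [hz'] at hF'
          have hm : x' 9 * x 6 = x' 9 * x' 6 := by linarith
          exact mul_left_cancel₀ h' hm
      funext j
      fin_cases j
      · exact k02.1
      · exact g0
      · exact k02.2
      · exact g1
      · exact g2
      · exact g3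
      · exact k96.2
      · exact g4
      · exact g5
      · exact k96.1
    have h1 := Finset.card_le_card_of_injOn g hmaps hinj
    rw [Finset.card_product, Finset.card_product, Finset.card_univ, Fintype.card_bool] at h1
    have h2 : (S2.card : ℝ) ≤ (Bx8'.card : ℝ) * (2 * 2) := by exact_mod_cast h1
    refine h2.trans ?_
    have h3 : (Bx8'.card : ℝ) ≤ (3 * T) ^ 8 := hBx8
    nlinarith
  -- the sum
  have hpow1 : (4 * T ^ 2) ^ (eps / 2) = 4 ^ (eps / 2) * T ^ eps := by
    rw [Real.mul_rpow (by norm_num) (by positivity), ← Real.rpow_natCast, ← Real.rpow_mul hT0.le]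
    congr 2
    push_cast
    ring
  have hTe : 1 ≤ T ^ eps := Real.one_le_rpow hT he.le
  rw [hpow1] at hS1card
  have hT8 : 0 < T ^ 8 := by positivity
  calc (S.card : ℝ) = (S1.card : ℝ) + (S2.card : ℝ) := by rw [hsplit]; push_cast; ring
    _ ≤ (3 * T) ^ 8 * (2 * (C0 * (4 ^ (eps / 2) * T ^ eps))) + 4 * (3 * T) ^ 8 :=
        add_le_add hS1card hS2card
    _ = 2 * C0 * 4 ^ (eps / 2) * 3 ^ 8 * T ^ eps * T ^ 8 + 4 * 3 ^ 8 * T ^ 8 := by ring
    _ ≤ 2 * C0 * 4 ^ (eps / 2) * 3 ^ 8 * T ^ eps * T ^ 8 + 4 * 3 ^ 8 * T ^ 8 * T ^ eps := by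
        refine add_le_add le_rfl ?_
        exact le_mul_of_one_le_right (by positivity) hTe
    _ = (2 * C0 * 4 ^ (eps / 2) * 3 ^ 8 + 4 * 3 ^ 8) * T ^ eps * T ^ 8 := by ring

end Pool.Agent.PP5D
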