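import Pool.Agent.PP5D.Defs

/-!
# PP5D/Ext: an extreme coordinate is big
-/

set_option autoImplicit false

namespace Pool.Agent.PP5D

private theorem ext_core {a q b c d e f g n M : ℝ} (ha : |a| = n)
    (h : a ^ 2 = q + b * c + d * e + f * g) (hq : |q| ≤ M) (hb : 4 * |b| < n) (hc : |c| ≤ n)
    (hd : |d| ≤ n) (he : 4 * |e| < n) (hf : 4 * |f| < n) (hg : 4 * |g| < n)
    (h8 : 8 * M < n ^ 2) : False := by
  have hn : 0 ≤ n := ha ▸ abs_nonneg a
  have h1 : a ^ 2 = n ^ 2 := by rw [← ha, sq_abs]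
  have h2 : a ^ 2 ≤ |q| + |b| * |c| + |d| * |e| + |f| * |g| := by
    rw [h, ← abs_mul, ← abs_mul, ← abs_mul]
    linarith [le_abs_self q, le_abs_self (b * c), le_abs_self (d * e), le_abs_self (f * g)]
  have h3 : |b| * |c| ≤ (n / 4) * n :=
    mul_le_mul (by linarith) hc (abs_nonneg _) (by linarith)
  have h4 : |d| * |e| ≤ n * (n / 4) :=
    mul_le_mul hd (by linarith) (abs_nonneg _) hn
  have h5 : |f| * |g| ≤ (n / 4) * (n / 4) :=
    mul_le_mul (by linarith) (by linarith) (abs_nonneg _) (by linarith)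
  nlinarith [sq_nonneg n]

/-- If all the quadrics are small, one of the eight extreme coordinates has at least a quarter of
the size of the biggest coordinate.
PROOF. If the biggest coordinate (`|P i| = n`) is extreme, take `e = i` (`n ≥ 0`). Otherwise
`i ∈ {1, 4, 7, 10}` and we suppose `4 |P e| < n` for all `e ∈ E8` (then `0 < n`). Use the quadric
which contains `P i ^ 2`:
`P 1 ^ 2 = qq P 1 - P 6 * P 10 + P 7 * P 9 + P 0 * P 2`,
`P 4 ^ 2 = qq P 3 - P 7 * P 11 + P 8 * P 10 + P 3 * P 5`,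
`P 7 ^ 2 = -qq P 0 + P 0 * P 4 - P 1 * P 3 + P 6 * P 8`,
`P 10 ^ 2 = -qq P 2 + P 1 * P 5 - P 2 * P 4 + P 9 * P 11`:
so `n ^ 2 ≤ M + n * (n / 4) + n * (n / 4) + (n / 4) ^ 2`, i.e. `7 n ^ 2 / 16 ≤ M < n ^ 2 / 8`,
contradiction with `0 < n ^ 2`. -/
theorem ext_real {P : P12} {n M : ℝ} (hn : ∀ i, |(P i : ℝ)| ≤ n) (hn' : ∃ i, |(P i : ℝ)| = n)
    (hM : ∀ j, |((qq P j : ℤ) : ℝ)| ≤ M) (h8 : 8 * M < n ^ 2) : ∃ e ∈ E8, n ≤ 4 * |(P e : ℝ)| := by
  by_contra hcon
  push Not at hcon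
  have e0 := hcon 0 (by decide)
  have e2 := hcon 2 (by decide)
  have e3 := hcon 3 (by decide)
  have e5 := hcon 5 (by decide)
  have e6 := hcon 6 (by decide)
  have e8 := hcon 8 (by decide)
  have e9 := hcon 9 (by decide)
  have e11 := hcon 11 (by decide)
  have hneg : ∀ j, |(-((qq P j : ℤ) : ℝ))| ≤ M := fun j => by rw [abs_neg]; exact hM j
  obtain ⟨i, hi⟩ := hn'
  have hn0 : 0 ≤ n := hi ▸ abs_nonneg _
  have q0 : ((qq P 0 : ℤ) : ℝ) = (P 0 : ℝ) * P 4 - P 1 * P 3 + P 6 * P 8 - P 7 ^ 2 := by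
    simp [qq]
  have q1 : ((qq P 1 : ℤ) : ℝ) = (P 6 : ℝ) * P 10 - P 7 * P 9 - P 0 * P 2 + P 1 ^ 2 := by
    simp [qq]
  have q2 : ((qq P 2 : ℤ) : ℝ) = (P 1 : ℝ) * P 5 - P 2 * P 4 + P 9 * P 11 - P 10 ^ 2 := by
    simp [qq]
  have q3 : ((qq P 3 : ℤ) : ℝ) = (P 7 : ℝ) * P 11 - P 8 * P 10 - P 3 * P 5 + P 4 ^ 2 := by
    simp [qq]
  have key : ∀ e : Fin 12, e ∈ E8 → |(P e : ℝ)| = n → False := by
    intro e he h
    have := hcon e he
    rw [h] at this
    linarith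
  have neg4 : ∀ x : ℝ, 4 * |x| < n → 4 * |(-x)| < n := fun x h => by rwa [abs_neg]
  have negn : ∀ x : ℝ, |x| ≤ n → |(-x)| ≤ n := fun x h => by rwa [abs_neg]
  fin_cases i
  · exact key 0 (by decide) hi
  · exact ext_core (a := (P 1 : ℝ)) (q := ((qq P 1 : ℤ) : ℝ)) (b := -(P 6 : ℝ)) (c := P 10)
      (d := P 7) (e := P 9) (f := P 0) (g := P 2) hi (by rw [q1]; ring) (hM 1)
      (neg4 _ e6) (hn 10) (hn 7) e9 e0 e2 h8
  · exact key 2 (by decide) hi
  · exact key 3 (by decide) hi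
  · exact ext_core (a := (P 4 : ℝ)) (q := ((qq P 3 : ℤ) : ℝ)) (b := (P 8 : ℝ)) (c := P 10)
      (d := P 7) (e := -(P 11 : ℝ)) (f := P 3) (g := P 5) hi (by rw [q3]; ring) (hM 3)
      e8 (hn 10) (hn 7) (neg4 _ e11) e3 e5 h8
  · exact key 5 (by decide) hi
  · exact key 6 (by decide) hi
  · exact ext_core (a := (P 7 : ℝ)) (q := -((qq P 0 : ℤ) : ℝ)) (b := (P 0 : ℝ)) (c := P 4)
      (d := P 1) (e := -(P 3 : ℝ)) (f := P 6) (g := P 8) hi (by rw [q0]; ring) (hneg 0)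
      e0 (hn 4) (hn 1) (neg4 _ e3) e6 e8 h8
  · exact key 8 (by decide) hi
  · exact key 9 (by decide) hi
  · exact ext_core (a := (P 10 : ℝ)) (q := -((qq P 2 : ℤ) : ℝ)) (b := (P 5 : ℝ)) (c := P 1)
      (d := P 4) (e := -(P 2 : ℝ)) (f := P 9) (g := P 11) hi (by rw [q2]; ring) (hneg 2)
      e5 (hn 1) (hn 4) (neg4 _ e2) e9 e11 h8
  · exact key 11 (by decide) hi

/-- If all the quadrics vanish (only `0 .. 3` are needed) and all the extreme coordinates vanish,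
then `P = 0` (in a field, or any reduced ring).
PROOF. By the four formulas above the squares of `P 1, P 4, P 7, P 10` vanish. -/
theorem ext_mod {F : Type*} [Field F] {P : Fin 12 → F} (hq : ∀ j, qq P j = 0)
    (h : ∀ e ∈ E8, P e = 0) : ∀ i, P i = 0 := by
  have e0 := h 0 (by decide)
  have e2 := h 2 (by decide)
  have e3 := h 3 (by decide)
  have e5 := h 5 (by decide)
  have e6 := h 6 (by decide)
  have e8 := h 8 (by decide)
  have e9 := h 9 (by decide)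
  have e11 := h 11 (by decide)
  have q0 : P 0 * P 4 - P 1 * P 3 + P 6 * P 8 - P 7 ^ 2 = 0 := hq 0
  have q1 : P 6 * P 10 - P 7 * P 9 - P 0 * P 2 + P 1 ^ 2 = 0 := hq 1
  have q2 : P 1 * P 5 - P 2 * P 4 + P 9 * P 11 - P 10 ^ 2 = 0 := hq 2
  have q3 : P 7 * P 11 - P 8 * P 10 - P 3 * P 5 + P 4 ^ 2 = 0 := hq 3
  have p1 : P 1 = 0 := by
    have : P 1 ^ 2 = 0 := by
      rw [e6, e9, e0] at q1
      linear_combination q1
    exact pow_eq_zero_iff (two_ne_zero) |>.1 this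
  have p4 : P 4 = 0 := by
    have : P 4 ^ 2 = 0 := by
      rw [e11, e8, e3] at q3
      linear_combination q3
    exact pow_eq_zero_iff (two_ne_zero) |>.1 this
  have p7 : P 7 = 0 := by
    have : P 7 ^ 2 = 0 := by
      rw [e0, e3, e6] at q0
      linear_combination -q0
    exact pow_eq_zero_iff (two_ne_zero) |>.1 this
  have p10 : P 10 = 0 := by
    have : P 10 ^ 2 = 0 := by
      rw [e5, e2, e9] at q2
      linear_combination -q2
    exact pow_eq_zero_iff (two_ne_zero) |>.1 this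
  intro i
  fin_cases i
  · exact e0
  · exact p1
  · exact e2
  · exact e3
  · exact p4
  · exact e5
  · exact e6
  · exact p7
  · exact e8
  · exact e9
  · exact p10
  · exact e11

end Pool.Agent.PP5D
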