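import Pool.Agent.PP5D.Mpp
import Pool.Agent.PP5D.Ext

/-!
# PP5D/Mod: the number of pure classes modulo g
-/

set_option autoImplicit false

namespace Pool.Agent.PP5D

/-- `qq` commutes with ring homomorphisms (useful for `ℤ → ZMod g`).
PROOF. `fin_cases j <;> simp [qq]`. -/
theorem qq_map {R R' : Type*} [CommRing R] [CommRing R'] (f : R →+* R') (P : Fin 12 → R)
    (j : Fin 10) : qq (fun i => f (P i)) j = f (qq P j) := by
  fin_cases j <;> simp [qq]

private theorem qz {g : ℕ} {P : P12} (j : Fin 10) :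
    qq (fun i => ((P i : ℤ) : ZMod g)) j = ((qq P j : ℤ) : ZMod g) :=
  qq_map (Int.castRingHom (ZMod g)) P j

private theorem mod_pp (p n : ℕ) (hp : p.Prime) (hn : 0 < n) (S : Finset P12)
    (hS : ∀ P ∈ S, (∀ i, 0 ≤ P i ∧ P i < (p ^ n : ℕ)) ∧ (∀ j, ((p ^ n : ℕ) : ℤ) ∣ qq P j) ∧
      ∀ q : ℕ, q.Prime → q ∣ p ^ n → ¬ ∀ i, (q : ℤ) ∣ P i) :
    S.card ≤ 8 ^ (p ^ n).primeFactors.card * (p ^ n) ^ 7 := by
  classical
  have : Fact p.Prime := ⟨hp⟩
  have : NeZero (p ^ n) := ⟨pow_ne_zero n hp.ne_zero⟩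
  rw [Nat.primeFactors_prime_pow hn.ne' hp, Finset.card_singleton, pow_one]
  have hpg : p ∣ p ^ n := dvd_pow_self p hn.ne'
  have hinj : Set.InjOn (fun (P : P12) (i : Fin 12) => ((P i : ℤ) : ZMod (p ^ n))) S := by
    intro P hP P' hP' h
    funext i
    have h1 : ((P i : ℤ) : ZMod (p ^ n)) = ((P' i : ℤ) : ZMod (p ^ n)) := congrFun h i
    rw [ZMod.intCast_eq_intCast_iff] at h1
    have h2 := (hS P hP).1 i
    have h3 := (hS P' hP').1 i
    unfold Int.ModEq at h1
    rwa [Int.emod_eq_of_lt h2.1 h2.2, Int.emod_eq_of_lt h3.1 h3.2] at h1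
  rw [← Finset.card_image_of_injOn hinj]
  have key := mpp8 (R := ZMod (p ^ n))
    (S.image (fun (P : P12) (i : Fin 12) => ((P i : ℤ) : ZMod (p ^ n)))) ?_
  · rwa [ZMod.card] at key
  · intro P0 hP0
    obtain ⟨P, hP, rfl⟩ := Finset.mem_image.mp hP0
    refine ⟨?_, ?_⟩
    · by_contra hne
      push Not at hne
      have hdv : ∀ e ∈ E8, (p : ℤ) ∣ P e := by
        intro e he
        by_contra hnd
        apply hne e he
        have hpi : Prime (p : ℤ) := Nat.prime_iff_prime_int.mp hp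
        have h1 : IsCoprime (p : ℤ) (P e) := (hpi.coprime_iff_not_dvd).mpr hnd
        have h2 : IsCoprime (((p ^ n : ℕ)) : ℤ) (P e) := by
          push_cast
          exact h1.pow_left
        exact (ZMod.coe_int_isUnit_iff_isCoprime (P e) (p ^ n)).mpr h2
      apply (hS P hP).2.2 p hp hpg
      intro i
      rw [← ZMod.intCast_zmod_eq_zero_iff_dvd]
      refine ext_mod (F := ZMod p) (P := fun i => ((P i : ℤ) : ZMod p)) ?_ ?_ i
      · intro j
        rw [qz, ZMod.intCast_zmod_eq_zero_iff_dvd]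
        exact (Int.natCast_dvd_natCast.mpr hpg).trans ((hS P hP).2.1 j)
      · intro e he
        show ((P e : ℤ) : ZMod p) = 0
        rw [ZMod.intCast_zmod_eq_zero_iff_dvd]
        exact hdv e he
    · intro j
      rw [qz, ZMod.intCast_zmod_eq_zero_iff_dvd]
      exact (hS P hP).2.1 j

private theorem mod_side (g a : ℕ) (ha : 0 < a) (hag : a ∣ g) (S : Finset P12)
    (hS : ∀ P ∈ S, (∀ i, 0 ≤ P i ∧ P i < g) ∧ (∀ j, (g : ℤ) ∣ qq P j) ∧
      ∀ p : ℕ, p.Prime → p ∣ g → ¬ ∀ i, (p : ℤ) ∣ P i) [DecidableEq P12] :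
    ∀ P ∈ S.image (fun (P : P12) (i : Fin 12) => P i % (a : ℤ)),
      (∀ i, 0 ≤ P i ∧ P i < a) ∧ (∀ j, (a : ℤ) ∣ qq P j) ∧
      ∀ p : ℕ, p.Prime → p ∣ a → ¬ ∀ i, (p : ℤ) ∣ P i := by
  intro P0 hP0
  obtain ⟨P, hP, rfl⟩ := Finset.mem_image.mp hP0
  have : NeZero a := ⟨ha.ne'⟩
  have haz : (0 : ℤ) < a := by exact_mod_cast ha
  have hd : (a : ℤ) ∣ (g : ℤ) := Int.natCast_dvd_natCast.mpr hag
  refine ⟨fun i => ⟨Int.emod_nonneg _ haz.ne', Int.emod_lt_of_pos _ haz⟩, ?_, ?_⟩
  · intro j
    have h1 : ((qq (fun i => P i % (a : ℤ)) j : ℤ) : ZMod a) = 0 := by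
      rw [← qz]
      have h2 : (fun i => ((P i % (a : ℤ) : ℤ) : ZMod a)) = fun i => ((P i : ℤ) : ZMod a) := by
        funext i
        rw [ZMod.intCast_eq_intCast_iff]
        exact Int.mod_modEq _ _
      rw [h2, qz, ZMod.intCast_zmod_eq_zero_iff_dvd]
      exact hd.trans ((hS P hP).2.1 j)
    exact (ZMod.intCast_zmod_eq_zero_iff_dvd _ _).mp h1
  · intro p hp hpa hall
    apply (hS P hP).2.2 p hp (hpa.trans hag)
    intro i
    have h1 : (p : ℤ) ∣ P i % (a : ℤ) := hall i
    have h2 : (p : ℤ) ∣ (a : ℤ) := Int.natCast_dvd_natCast.mpr hpa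
    have h3 : P i = a * (P i / a) + P i % a := (Int.mul_ediv_add_emod (P i) a).symm
    rw [h3]
    exact dvd_add (h2.mul_right _) h1

/-- The classes modulo `g` which are primitive modulo every prime divisor of `g` and on which all the
quadrics vanish modulo `g`.
PROOF. Induction `Nat.recOnPosPrimePosCoprime` on `g` (statement for all `S`).
* `g = p ^ n`, `n > 0`: the map `P ↦ (fun i => (P i : ZMod g))` is injective on `S`
  (`0 ≤ P i < g`), the image consists of zeros of `qq` (`qq_map`,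
  `ZMod.intCast_zmod_eq_zero_iff_dvd`/`ZMod.intCast_eq_zero_iff..`), and some extreme
  coordinate is a unit: otherwise `p ∣ P e` for all `e ∈ E8` (`ZMod.isUnit_iff_coprime`-like lemma:
  `(a : ZMod (p ^ n))` is a unit iff `a` is prime to `p`), and by
  `ext_mod` over `F = ZMod p` (the quadrics vanish mod `p`) `p ∣ P i` for all `i`, contradiction.
  So `card S ≤ 8 * g ^ 7` by `mpp8`; `(p ^ n).primeFactors = {p}`.
* `g = 0` is excluded, `g = 1`: `P = 0`, `card S ≤ 1`.
* `g = a b` coprime, `a, b > 1`: the map `P ↦ (fun i => P i % a, fun i => P i % b)` is injective on `S`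
  (CRT: `a ∣ z`, `b ∣ z` imply `a b ∣ z`, and `|P i - P' i| < a b`) with values in `A ×ˢ B`,
  `A`, `B` the images, to which the induction hypotheses apply (`qq (P % a) ≡ qq P` mod `a`:
  e.g. from `qq_map` for `ℤ → ZMod a`; for `p ∣ a` prime, `p ∣ P i % a ↔ p ∣ P i`).
  `card (primeFactors (a b)) = card (primeFactors a) + card (primeFactors b)`
  (`Nat.Coprime.primeFactors_mul`, `Finset.card_union_of_disjoint`). -/
theorem mod_count (g : ℕ) (hg : 0 < g) (S : Finset P12)
    (hS : ∀ P ∈ S, (∀ i, 0 ≤ P i ∧ P i < g) ∧ (∀ j, (g : ℤ) ∣ qq P j) ∧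
      ∀ p : ℕ, p.Prime → p ∣ g → ¬ ∀ i, (p : ℤ) ∣ P i) :
    S.card ≤ 8 ^ g.primeFactors.card * g ^ 7 := by
  classical
  revert hg S
  induction g using Nat.recOnPosPrimePosCoprime with
  | prime_pow p n hp hn =>
    intro _ S hS
    exact mod_pp p n hp hn S hS
  | zero => intro h; exact absurd h (lt_irrefl 0)
  | one =>
    intro _ S hS
    have : S.card ≤ 1 := by
      rw [Finset.card_le_one]
      intro P hP P' hP'
      funext i
      have h1 := (hS P hP).1 i
      have h2 := (hS P' hP').1 i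
      push_cast at h1 h2
      omega
    simpa using this
  | coprime a b ha hb hab iha ihb =>
    intro _ S hS
    have hA := iha (by omega) _ (mod_side (a * b) a (by omega) (Dvd.intro _ rfl) S hS)
    have hB := ihb (by omega) _ (mod_side (a * b) b (by omega) (Dvd.intro_left _ rfl) S hS)
    have hcard : S.card ≤ ((S.image (fun (P : P12) (i : Fin 12) => P i % (a : ℤ))) ×ˢ
        (S.image (fun (P : P12) (i : Fin 12) => P i % (b : ℤ)))).card := by
      apply Finset.card_le_card_of_injOn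
        (fun P : P12 => ((fun i => P i % (a : ℤ)), (fun i => P i % (b : ℤ))))
      · intro P hP
        have hP' : P ∈ S := hP
        simp only [Finset.coe_product, Set.mem_prod, Finset.mem_coe]
        exact ⟨Finset.mem_image.mpr ⟨P, hP', rfl⟩, Finset.mem_image.mpr ⟨P, hP', rfl⟩⟩
      · intro P hP P' hP' h
        have h1 := congrArg Prod.fst h
        have h2 := congrArg Prod.snd h
        funext i
        have e1 : P i ≡ P' i [ZMOD a] := congrFun h1 i
        have e2 : P i ≡ P' i [ZMOD b] := congrFun h2 i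
        have d1 : (a : ℤ) ∣ P' i - P i := e1.dvd
        have d2 : (b : ℤ) ∣ P' i - P i := e2.dvd
        have hc : IsCoprime (a : ℤ) (b : ℤ) := Nat.isCoprime_iff_coprime.mpr hab
        have d3 : (a : ℤ) * b ∣ P' i - P i := hc.mul_dvd d1 d2
        have h3 := (hS P hP).1 i
        have h4 := (hS P' hP').1 i
        push_cast at h3 h4
        have h5 : P' i - P i = 0 := by
          apply Int.eq_zero_of_abs_lt_dvd d3
          rw [abs_lt]
          constructor <;> linarith [h3.1, h3.2, h4.1, h4.2]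
        linarith
    rw [Finset.card_product] at hcard
    have hpf : (a * b).primeFactors.card = a.primeFactors.card + b.primeFactors.card := by
      rw [hab.primeFactors_mul, Finset.card_union_of_disjoint hab.disjoint_primeFactors]
    rw [hpf, pow_add, mul_pow]
    calc S.card ≤ _ := hcard
      _ ≤ (8 ^ a.primeFactors.card * a ^ 7) * (8 ^ b.primeFactors.card * b ^ 7) :=
          Nat.mul_le_mul hA hB
      _ = 8 ^ a.primeFactors.card * 8 ^ b.primeFactors.card * (a ^ 7 * b ^ 7) := by ring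

end Pool.Agent.PP5D
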