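import Pool.Agent.PP5D.Uct
import Pool.Agent.PP5D.Mod

/-!
# PP5D/Ag: points with all the quadrics divisible by g
-/

set_option autoImplicit false

namespace Pool.Agent.PP5D

private theorem ag_diff (U V : Fin 12 → ℝ) (B : ℝ) (h : ∀ a b, |U a * U b - V a * V b| ≤ B)
    (j : Fin 10) : |qq U j - qq V j| ≤ 4 * B := by
  have h' : ∀ a b, -B ≤ U a * U b - V a * V b ∧ U a * U b - V a * V b ≤ B :=
    fun a b => abs_le.mp (h a b)
  rw [abs_le]
  fin_cases j
  · have h1 := h' 0 4; have h2 := h' 1 3; have h3 := h' 6 8; have h4 := h' 7 7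
    simp [qq]
    constructor <;> linarith [h1.1, h1.2, h2.1, h2.2, h3.1, h3.2, h4.1, h4.2]
  · have h1 := h' 6 10; have h2 := h' 7 9; have h3 := h' 0 2; have h4 := h' 1 1
    simp [qq]
    constructor <;> linarith [h1.1, h1.2, h2.1, h2.2, h3.1, h3.2, h4.1, h4.2]
  · have h1 := h' 1 5; have h2 := h' 2 4; have h3 := h' 9 11; have h4 := h' 10 10
    simp [qq]
    constructor <;> linarith [h1.1, h1.2, h2.1, h2.2, h3.1, h3.2, h4.1, h4.2]
  · have h1 := h' 7 11; have h2 := h' 8 10; have h3 := h' 3 5; have h4 := h' 4 4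
    simp [qq]
    constructor <;> linarith [h1.1, h1.2, h2.1, h2.2, h3.1, h3.2, h4.1, h4.2]
  · have h1 := h' 6 11; have h2 := h' 2 3; have h3 := h' 7 10; have h4 := h' 1 4
    simp [qq]
    constructor <;> linarith [h1.1, h1.2, h2.1, h2.2, h3.1, h3.2, h4.1, h4.2]
  · have h1 := h' 0 5; have h2 := h' 8 9; have h3 := h' 7 10; have h4 := h' 1 4
    simp [qq]
    constructor <;> linarith [h1.1, h1.2, h2.1, h2.2, h3.1, h3.2, h4.1, h4.2]
  · have h1 := h' 6 4; have h2 := h' 0 10; have h3 := h' 7 1; have h4 := h' 3 9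
    simp [qq]
    constructor <;> linarith [h1.1, h1.2, h2.1, h2.2, h3.1, h3.2, h4.1, h4.2]
  · have h1 := h' 6 5; have h2 := h' 4 9; have h3 := h' 1 10; have h4 := h' 7 2
    simp [qq]
    constructor <;> linarith [h1.1, h1.2, h2.1, h2.2, h3.1, h3.2, h4.1, h4.2]
  · have h1 := h' 0 11; have h2 := h' 3 10; have h3 := h' 7 4; have h4 := h' 1 8
    simp [qq]
    constructor <;> linarith [h1.1, h1.2, h2.1, h2.2, h3.1, h3.2, h4.1, h4.2]
  · have h1 := h' 7 5; have h2 := h' 1 11; have h3 := h' 4 10; have h4 := h' 8 2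
    simp [qq]
    constructor <;> linarith [h1.1, h1.2, h2.1, h2.2, h3.1, h3.2, h4.1, h4.2]

private theorem ag_scale (c : ℝ) (u : Fin 12 → ℝ) (j : Fin 10) :
    qq (fun i => c * u i) j = c ^ 2 * qq u j := by
  fin_cases j <;> simp [qq] <;> ring

private theorem ag_u (g : ℕ) (hg : 0 < g) (lam T : ℝ) (h1 : 1 ≤ lam) (hT : lam ≤ T)
    (hgl : (g : ℝ) ≤ 8 * lam) (P : P12) (hP : ∀ i, |(P i : ℝ)| ≤ lam)
    (hQ : ∀ j, |((qq P j : ℤ) : ℝ)| ≤ g * T) :
    (∀ i, |((P i / (g : ℤ) : ℤ) : ℝ)| ≤ 9 * lam / g) ∧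
      ∀ j, |((qq (fun i => P i / (g : ℤ)) j : ℤ) : ℝ)| ≤ 105 * T / g := by
  have hg' : (0 : ℝ) < g := by exact_mod_cast hg
  have hgz : (0 : ℤ) < g := by exact_mod_cast hg
  have hr0 : ∀ i, (0 : ℝ) ≤ (P i : ℝ) - g * ((P i / (g : ℤ) : ℤ) : ℝ) ∧
      (P i : ℝ) - g * ((P i / (g : ℤ) : ℤ) : ℝ) ≤ g := by
    intro i
    have e1 := Int.emod_add_mul_ediv (P i) g
    have e2 := Int.emod_nonneg (P i) hgz.ne'
    have e3 := Int.emod_lt_of_pos (P i) hgz
    have e4 : ((P i % (g : ℤ) : ℤ) : ℝ) + g * ((P i / (g : ℤ) : ℤ) : ℝ) = P i := by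
      exact_mod_cast e1
    have e5 : (0 : ℝ) ≤ ((P i % (g : ℤ) : ℤ) : ℝ) := by exact_mod_cast e2
    have e6 : ((P i % (g : ℤ) : ℤ) : ℝ) ≤ g := by
      have : ((P i % (g : ℤ) : ℤ) : ℝ) < ((g : ℤ) : ℝ) := by exact_mod_cast e3
      have h2 : ((g : ℤ) : ℝ) = (g : ℝ) := by norm_cast
      rw [h2] at this
      exact this.le
    constructor <;> linarith
  constructor
  · intro i
    have a1 := abs_le.mp (hP i)
    have a2 := hr0 i
    rw [le_div_iff₀ hg', ← abs_of_pos hg', ← abs_mul, abs_le]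
    constructor <;> linarith
  · intro j
    have hm : ∀ a b, |(g * ((P a / (g : ℤ) : ℤ) : ℝ)) * (g * ((P b / (g : ℤ) : ℤ) : ℝ)) -
        (P a : ℝ) * (P b : ℝ)| ≤ 10 * lam * g := by
      intro a b
      obtain ⟨x, hx⟩ : ∃ x : ℝ, x = (P a : ℝ) - g * ((P a / (g : ℤ) : ℤ) : ℝ) := ⟨_, rfl⟩
      obtain ⟨y, hy⟩ : ∃ y : ℝ, y = (P b : ℝ) - g * ((P b / (g : ℤ) : ℤ) : ℝ) := ⟨_, rfl⟩
      have hx0 := hr0 a
      have hy0 := hr0 b
      rw [← hx] at hx0
      rw [← hy] at hy0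
      have e1 : (g * ((P a / (g : ℤ) : ℤ) : ℝ)) * (g * ((P b / (g : ℤ) : ℤ) : ℝ)) -
          (P a : ℝ) * (P b : ℝ) = x * y - x * (P b : ℝ) - y * (P a : ℝ) := by
        rw [hx, hy]; ring
      rw [e1]
      have b1 : |x| ≤ g := by rw [abs_of_nonneg hx0.1]; exact hx0.2
      have b2 : |y| ≤ g := by rw [abs_of_nonneg hy0.1]; exact hy0.2
      calc |x * y - x * (P b : ℝ) - y * (P a : ℝ)|
          ≤ |x * y - x * (P b : ℝ)| + |y * (P a : ℝ)| := abs_sub _ _
        _ ≤ |x * y| + |x * (P b : ℝ)| + |y * (P a : ℝ)| := by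
            gcongr; exact abs_sub _ _
        _ = |x| * |y| + |x| * |(P b : ℝ)| + |y| * |(P a : ℝ)| := by
            rw [abs_mul, abs_mul, abs_mul]
        _ ≤ g * g + g * lam + g * lam := by
            gcongr
            · exact hP b
            · exact hP a
        _ ≤ 10 * lam * g := by nlinarith
    have hd := ag_diff (fun i => g * ((P i / (g : ℤ) : ℤ) : ℝ)) (fun i => (P i : ℝ))
      (10 * lam * g) hm j
    rw [ag_scale (g : ℝ) (fun i => ((P i / (g : ℤ) : ℤ) : ℝ)) j] at hd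
    have q1 := qq_map (Int.castRingHom ℝ) P j
    have q2 := qq_map (Int.castRingHom ℝ) (fun i => P i / (g : ℤ)) j
    simp only [Int.coe_castRingHom] at q1 q2
    rw [q1, q2] at hd
    have hq := hQ j
    have a1 := abs_le.mp hd
    have a2 := abs_le.mp hq
    rw [le_div_iff₀ hg', ← abs_of_pos hg', ← abs_mul, abs_le]
    obtain ⟨w, hw⟩ : ∃ w : ℝ, w = ((qq (fun i => P i / (g : ℤ)) j : ℤ) : ℝ) := ⟨_, rfl⟩
    rw [← hw] at a1 ⊢
    have k1 : (g : ℝ) * (w * g) ≤ g * (105 * T) := by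
      linarith [a1.1, a1.2, a2.1, a2.2, mul_le_mul_of_nonneg_left hT hg'.le]
    have k2 : (g : ℝ) * (-(105 * T)) ≤ g * (w * g) := by
      linarith [a1.1, a1.2, a2.1, a2.2, mul_le_mul_of_nonneg_left hT hg'.le]
    exact ⟨le_of_mul_le_mul_left k2 hg', le_of_mul_le_mul_left k1 hg'⟩

/-- PROOF. Write `P i = g * u i + r i`, `u i = P i / g`, `r i = P i % g` (`0 ≤ r i < g`).
* `|u i| ≤ lam / g + 1 ≤ 9 lam / g =: N` (`g ≤ 8 lam`); `1 ≤ N`.
* `|g ^ 2 * qq u j - qq P j| ≤ 40 g lam`: each of the (four) monomials of `qq` changes by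
  `|(P a - r a)(P b - r b) - P a P b| ≤ 2 lam g + g ^ 2 ≤ 10 lam g`. So
  `g ^ 2 |qq u j| ≤ g T + 40 g lam ≤ 41 g T`, `|qq u j| ≤ 41 T / g ≤ 105 T / g =: M`, and `N ≤ M`.
* so `card {u} ≤ C1 (9 lam / g) ^ 2 (105 T / g) ^ 5` (`u_count` for the image set);
* `r` satisfies the hypotheses of `mod_count` (`qq r ≡ qq P ≡ 0` mod `g`; for a prime `p ∣ g`,
  `p ∣ r i ↔ p ∣ P i` and `P` is primitive): `card {r} ≤ 8 ^ ω(g) * g ^ 7`.
* `P ↦ (u, r)` is injective: the product is `C1 * 81 * 105 ^ 5 * 8 ^ ω(g) * lam ^ 2 * T ^ 5`. -/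
theorem a_count (g : ℕ) (hg : 0 < g) (lam T : ℝ) (h1 : 1 ≤ lam) (hT : lam ≤ T)
    (hgl : (g : ℝ) ≤ 8 * lam) (S : Finset P12)
    (hS : ∀ P ∈ S, (∀ i, |(P i : ℝ)| ≤ lam) ∧ (∀ j, (g : ℤ) ∣ qq P j) ∧
      (∀ j, |((qq P j : ℤ) : ℝ)| ≤ g * T) ∧ Prm P) :
    (S.card : ℝ) ≤ C2 * 8 ^ g.primeFactors.card * lam ^ 2 * T ^ 5 := by
  classical
  have hg' : (0 : ℝ) < g := by exact_mod_cast hg
  have hgz : (0 : ℤ) < g := by exact_mod_cast hg
  have hN : (1 : ℝ) ≤ 9 * lam / g := by rw [le_div_iff₀ hg']; linarith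
  have hM : 9 * lam / g ≤ 105 * T / g := by
    rw [div_le_div_iff_of_pos_right hg']; linarith
  have hU := u_count (9 * lam / g) (105 * T / g) hN hM
    (S.image fun P => fun i => P i / (g : ℤ)) (by
      intro Q hQ
      obtain ⟨P, hP, rfl⟩ := Finset.mem_image.mp hQ
      obtain ⟨p1, p2, p3, p4⟩ := hS P hP
      exact ag_u g hg lam T h1 hT hgl P p1 p3)
  have hR := mod_count g hg (S.image fun P => fun i => P i % (g : ℤ)) (by
      intro Q hQ
      obtain ⟨P, hP, rfl⟩ := Finset.mem_image.mp hQ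
      obtain ⟨p1, p2, p3, p4⟩ := hS P hP
      refine ⟨fun i => ⟨Int.emod_nonneg _ hgz.ne', Int.emod_lt_of_pos _ hgz⟩, ?_, ?_⟩
      · intro j
        have q1 := qq_map (Int.castRingHom (ZMod g)) P j
        have q2 := qq_map (Int.castRingHom (ZMod g)) (fun i => P i % (g : ℤ)) j
        simp only [Int.coe_castRingHom, ZMod.intCast_mod] at q1 q2
        rw [q1, (ZMod.intCast_zmod_eq_zero_iff_dvd _ _).mpr (p2 j)] at q2
        exact (ZMod.intCast_zmod_eq_zero_iff_dvd _ _).mp q2.symm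
      · intro p hp hpg hall
        refine p4 p hp fun i => ?_
        have e1 := Int.emod_add_mul_ediv (P i) g
        have hpz : (p : ℤ) ∣ (g : ℤ) := by exact_mod_cast hpg
        rw [← e1]
        exact dvd_add (hall i) (Dvd.dvd.mul_right hpz _))
  have hinj : S.card ≤ ((S.image fun P => fun i => P i / (g : ℤ)) ×ˢ
      (S.image fun P => fun i => P i % (g : ℤ))).card := by
    refine Finset.card_le_card_of_injOn
      (fun P => ((fun i => P i / (g : ℤ)), (fun i => P i % (g : ℤ)))) ?_ ?_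
    · intro P hP
      simp only [Finset.coe_product, Set.mem_prod, Finset.mem_coe, Finset.mem_image]
      exact ⟨⟨P, hP, rfl⟩, ⟨P, hP, rfl⟩⟩
    · intro P _ P' _ h
      have h2 := congrArg Prod.fst h
      have h3 := congrArg Prod.snd h
      funext i
      have h4 := congrFun h2 i
      have h5 := congrFun h3 i
      simp only at h4 h5
      rw [← Int.emod_add_mul_ediv (P i) g, ← Int.emod_add_mul_ediv (P' i) g, h4, h5]
  rw [Finset.card_product] at hinj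
  have hinj' : (S.card : ℝ) ≤ ((S.image fun P => fun i => P i / (g : ℤ)).card : ℝ) *
      ((S.image fun P => fun i => P i % (g : ℤ)).card : ℝ) := by exact_mod_cast hinj
  have hR' : ((S.image fun P => fun i => P i % (g : ℤ)).card : ℝ) ≤
      8 ^ g.primeFactors.card * (g : ℝ) ^ 7 := by exact_mod_cast hR
  have hC1 : 0 ≤ C1 := by unfold C1; positivity
  have hlam : 0 ≤ lam := by linarith
  have hT0 : 0 ≤ T := by linarith
  calc (S.card : ℝ) ≤ _ := hinj'
    _ ≤ (C1 * (9 * lam / g) ^ 2 * (105 * T / g) ^ 5) *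
        (8 ^ g.primeFactors.card * (g : ℝ) ^ 7) := by gcongr
    _ = C2 * 8 ^ g.primeFactors.card * lam ^ 2 * T ^ 5 := by
        unfold C2
        field_simp
        ring

end Pool.Agent.PP5D
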