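import Pool.Agent.PP5D.Defs

/-!
# PP5D/Chr: the chart count
-/

set_option autoImplicit false

namespace Pool.Agent.PP5D

private theorem ediv_cancel {c A A' d : ℤ} (hc : c ≠ 0) (h : A - A' = c * d)
    (hq : A / c = A' / c) : d = 0 := by
  have e : A = A' + c * d := by linarith
  rw [e, Int.add_mul_ediv_left _ _ hc] at hq
  linarith

private theorem ediv_bound {c A : ℤ} {M : ℝ} (hc : c ≠ 0) (hA : |(A : ℝ)| ≤ M) :
    |((A / c : ℤ) : ℝ)| ≤ M / |(c : ℝ)| + 1 := by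
  have hcr : (0 : ℝ) < |(c : ℝ)| := abs_pos.mpr (by exact_mod_cast hc)
  have h1 := Int.emod_add_mul_ediv A c
  have h2 := Int.emod_nonneg A hc
  have h3 := Int.emod_lt_abs A hc
  have e1 : ((A % c : ℤ) : ℝ) + (c : ℝ) * ((A / c : ℤ) : ℝ) = A := by exact_mod_cast h1
  have e2 : (0 : ℝ) ≤ ((A % c : ℤ) : ℝ) := by exact_mod_cast h2
  have e3 : ((A % c : ℤ) : ℝ) < |(c : ℝ)| := by exact_mod_cast h3
  have e4 : |(c : ℝ)| * |((A / c : ℤ) : ℝ)| ≤ M + |(c : ℝ)| := by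
    rw [← abs_mul]
    have e5 : (c : ℝ) * ((A / c : ℤ) : ℝ) = A - ((A % c : ℤ) : ℝ) := by linarith
    rw [e5]
    calc |(A : ℝ) - ((A % c : ℤ) : ℝ)| ≤ |(A : ℝ)| + |((A % c : ℤ) : ℝ)| := abs_sub _ _
      _ ≤ M + |(c : ℝ)| := by rw [abs_of_nonneg e2]; linarith
  rw [← sub_le_iff_le_add, le_div_iff₀ hcr]
  nlinarith

private theorem card_Icc_le {B : ℝ} (hB : 0 ≤ B) :
    ((Finset.Icc (-⌊B⌋) ⌊B⌋).card : ℝ) ≤ 2 * B + 1 := by
  have h0 : 0 ≤ ⌊B⌋ := Int.floor_nonneg.mpr hB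
  rw [Int.card_Icc]
  have h1 : (((⌊B⌋ + 1 - -⌊B⌋).toNat : ℤ) : ℝ) = ((⌊B⌋ + 1 - -⌊B⌋ : ℤ) : ℝ) := by
    congr 1
    exact Int.toNat_of_nonneg (by omega)
  have h2 : (((⌊B⌋ + 1 - -⌊B⌋).toNat : ℕ) : ℝ) = ((⌊B⌋ + 1 - -⌊B⌋ : ℤ) : ℝ) := by
    rw [← h1]; push_cast; rfl
  rw [h2]
  push_cast
  have := Int.floor_le B
  linarith

private theorem mem_Icc_iff {B : ℝ} (x : ℤ) : x ∈ Finset.Icc (-⌊B⌋) ⌊B⌋ ↔ |(x : ℝ)| ≤ B := by
  rw [Finset.mem_Icc, abs_le, Int.le_floor, neg_le, Int.le_floor]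
  push_cast
  constructor
  · rintro ⟨h1, h2⟩; exact ⟨by linarith, h2⟩
  · rintro ⟨h1, h2⟩; exact ⟨by linarith, h2⟩

/-- The points whose first coordinate is (almost) the biggest one, with small quadrics.
PROOF. Write `c = P 0`; `c ≠ 0`, `|c| ≤ N`. For fixed `c` the map
`P ↦ (P 1, P 3, P 6, P 7, P 8, P 9, qq P 0 / c, qq P 6 / c, qq P 1 / c, qq P 5 / c, qq P 8 / c)`
(`/` = `Int.ediv`) is injective: two numbers `qq P 0 = c * P 4 - P 1 * P 3 + P 6 * P 8 - P 7 ^ 2` for `P`, `P'`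
with the same `P 1, P 3, P 6, P 7, P 8` differ by `c * (P 4 - P' 4)`, and by less than `|c|` if
their quotients by `c` are the same; so `P 4 = P' 4`. Then in the same way `P 10 = P' 10` from
`qq P 6 = P 6 * P 4 + P 0 * P 10 - P 7 * P 1 - P 3 * P 9`; `P 2 = P' 2` from
`qq P 1 = P 6 * P 10 - P 7 * P 9 - P 0 * P 2 + P 1 ^ 2`; `P 5 = P' 5` from
`qq P 5 = P 0 * P 5 + P 8 * P 9 - P 7 * P 10 - P 1 * P 4`; `P 11 = P' 11` from
`qq P 8 = P 0 * P 11 - P 3 * P 10 + P 7 * P 4 - P 1 * P 8`.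
The first six numbers are in `[-4|c|, 4|c|]` (`8|c| + 1 ≤ 9|c|` values each), the last five are
integers `t` with `|t| ≤ M / |c| + 1` (at most `2 (M / |c| + 1) + 1 ≤ 5 M / |c|` values each, as
`|c| ≤ N ≤ M`). So for fixed `c` at most `9 ^ 6 |c| ^ 6 * 5 ^ 5 M ^ 5 / |c| ^ 5 =
9 ^ 6 * 5 ^ 5 * M ^ 5 * |c|` points, and the sum over `0 < |c| ≤ N` (at most `2 N` values of `c`,
each with `|c| ≤ N`) is at most `2 * 9 ^ 6 * 5 ^ 5 * N ^ 2 * M ^ 5`. -/
theorem chart_count (N M : ℝ) (hN : 1 ≤ N) (hM : N ≤ M) (S : Finset P12)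
    (hS : ∀ P ∈ S, P 0 ≠ 0 ∧ |(P 0 : ℝ)| ≤ N ∧ (∀ i, |P i| ≤ 4 * |P 0|) ∧
      ∀ j, |((qq P j : ℤ) : ℝ)| ≤ M) :
    (S.card : ℝ) ≤ 2 * 9 ^ 6 * 5 ^ 5 * N ^ 2 * M ^ 5 := by
  classical
  have hM0 : 0 < M := by linarith
  -- the values of `c`
  obtain ⟨C, hC⟩ : ∃ C : Finset ℤ, C = (Finset.Icc (-⌊N⌋) ⌊N⌋).erase 0 := ⟨_, rfl⟩
  have hCcard : (C.card : ℝ) ≤ 2 * N := by
    have h0 : (0 : ℤ) ∈ Finset.Icc (-⌊N⌋) ⌊N⌋ := by
      rw [mem_Icc_iff]; simp; linarith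
    have h1 := Finset.card_erase_add_one h0
    have h2 := card_Icc_le (B := N) (by linarith)
    rw [← hC] at h1
    have h3 : (C.card : ℝ) + 1 = ((Finset.Icc (-⌊N⌋) ⌊N⌋).card : ℝ) := by exact_mod_cast h1
    linarith
  have hCmem : ∀ c ∈ C, c ≠ 0 ∧ |(c : ℝ)| ≤ N := by
    intro c hc
    rw [hC, Finset.mem_erase, mem_Icc_iff] at hc
    exact hc
  have hmaps : ∀ P ∈ S, P 0 ∈ C := by
    intro P hP
    rw [hC, Finset.mem_erase, mem_Icc_iff]
    exact ⟨(hS P hP).1, (hS P hP).2.1⟩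
  -- one fibre
  have hfib : ∀ c ∈ C, ((S.filter (fun P => P 0 = c)).card : ℝ) ≤ 9 ^ 6 * 5 ^ 5 * M ^ 5 * N := by
    intro c hc
    obtain ⟨hc0, hcN⟩ := hCmem c hc
    have hcr : (0 : ℝ) < |(c : ℝ)| := abs_pos.mpr (by exact_mod_cast hc0)
    have hc1 : (1 : ℝ) ≤ |(c : ℝ)| := by
      have : (1 : ℤ) ≤ |c| := Int.one_le_abs hc0
      exact_mod_cast this
    obtain ⟨I, hI⟩ : ∃ I : Finset ℤ, I = Finset.Icc (-⌊4 * |(c : ℝ)|⌋) ⌊4 * |(c : ℝ)|⌋ := ⟨_, rfl⟩
    obtain ⟨J, hJ⟩ : ∃ J : Finset ℤ, J = Finset.Icc (-⌊M / |(c : ℝ)| + 1⌋) ⌊M / |(c : ℝ)| + 1⌋ :=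
      ⟨_, rfl⟩
    have hIc : (I.card : ℝ) ≤ 9 * |(c : ℝ)| := by
      rw [hI]
      refine (card_Icc_le (by positivity)).trans ?_
      linarith
    have hMc : 1 ≤ M / |(c : ℝ)| := by rw [le_div_iff₀ hcr]; linarith
    have hJc : (J.card : ℝ) ≤ 5 * (M / |(c : ℝ)|) := by
      rw [hJ]
      refine (card_Icc_le (by positivity)).trans ?_
      linarith
    obtain ⟨f, hf⟩ : ∃ f : P12 → (Fin 6 → ℤ) × (Fin 5 → ℤ), f = fun P =>
      (![P 1, P 3, P 6, P 7, P 8, P 9],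
        ![qq P 0 / c, qq P 6 / c, qq P 1 / c, qq P 5 / c, qq P 8 / c]) := ⟨_, rfl⟩
    have hin : ∀ P ∈ S.filter (fun P => P 0 = c), f P ∈
        (Fintype.piFinset (fun _ : Fin 6 => I)) ×ˢ (Fintype.piFinset (fun _ : Fin 5 => J)) := by
      intro P hP
      rw [Finset.mem_filter] at hP
      obtain ⟨hPS, hPc⟩ := hP
      obtain ⟨_, _, h3, h4⟩ := hS P hPS
      have hIi : ∀ i, P i ∈ I := by
        intro i
        rw [hI, mem_Icc_iff]
        have h5 := h3 i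
        rw [hPc] at h5
        exact_mod_cast h5
      have hJj : ∀ j, qq P j / c ∈ J := by
        intro j
        rw [hJ, mem_Icc_iff]
        exact ediv_bound hc0 (h4 j)
      rw [Finset.mem_product, Fintype.mem_piFinset, Fintype.mem_piFinset, hf]
      constructor
      · intro i
        fin_cases i
        · exact hIi 1
        · exact hIi 3
        · exact hIi 6
        · exact hIi 7
        · exact hIi 8
        · exact hIi 9
      · intro j
        fin_cases j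
        · exact hJj 0
        · exact hJj 6
        · exact hJj 1
        · exact hJj 5
        · exact hJj 8
    have hinj : Set.InjOn f (S.filter (fun P => P 0 = c) : Finset P12) := by
      intro P hP P' hP' hPP
      have hP2 : P ∈ S.filter (fun P => P 0 = c) := hP
      have hP2' : P' ∈ S.filter (fun P => P 0 = c) := hP'
      rw [Finset.mem_filter] at hP2 hP2'
      have h0 : P 0 = c := hP2.2
      have h0' : P' 0 = c := hP2'.2
      rw [hf] at hPP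
      simp only [Prod.mk.injEq] at hPP
      obtain ⟨q1, q2⟩ := hPP
      have a1 : P 1 = P' 1 := congrFun q1 0
      have a3 : P 3 = P' 3 := congrFun q1 1
      have a6 : P 6 = P' 6 := congrFun q1 2
      have a7 : P 7 = P' 7 := congrFun q1 3
      have a8 : P 8 = P' 8 := congrFun q1 4
      have a9 : P 9 = P' 9 := congrFun q1 5
      have b0 : qq P 0 / c = qq P' 0 / c := congrFun q2 0
      have b6 : qq P 6 / c = qq P' 6 / c := congrFun q2 1
      have b1 : qq P 1 / c = qq P' 1 / c := congrFun q2 2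
      have b5 : qq P 5 / c = qq P' 5 / c := congrFun q2 3
      have b8 : qq P 8 / c = qq P' 8 / c := congrFun q2 4
      have f0 : ∀ P : P12, qq P 0 = P 0 * P 4 - P 1 * P 3 + P 6 * P 8 - P 7 ^ 2 := fun _ => rfl
      have f6 : ∀ P : P12, qq P 6 = P 6 * P 4 + P 0 * P 10 - P 7 * P 1 - P 3 * P 9 := fun _ => rfl
      have f1 : ∀ P : P12, qq P 1 = P 6 * P 10 - P 7 * P 9 - P 0 * P 2 + P 1 ^ 2 := fun _ => rfl
      have f5 : ∀ P : P12, qq P 5 = P 0 * P 5 + P 8 * P 9 - P 7 * P 10 - P 1 * P 4 := fun _ => rfl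
      have f8 : ∀ P : P12, qq P 8 = P 0 * P 11 - P 3 * P 10 + P 7 * P 4 - P 1 * P 8 := fun _ => rfl
      have a4 : P 4 = P' 4 := by
        have e : qq P 0 - qq P' 0 = c * (P 4 - P' 4) := by
          rw [f0, f0, h0, h0', a1, a3, a6, a7, a8]; ring
        have := ediv_cancel hc0 e b0
        linarith
      have a10 : P 10 = P' 10 := by
        have e : qq P 6 - qq P' 6 = c * (P 10 - P' 10) := by
          rw [f6, f6, h0, h0', a1, a3, a6, a7, a9, a4]; ring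
        have := ediv_cancel hc0 e b6
        linarith
      have a2 : P 2 = P' 2 := by
        have e : qq P 1 - qq P' 1 = c * (-(P 2 - P' 2)) := by
          rw [f1, f1, h0, h0', a1, a6, a7, a9, a10]; ring
        have := ediv_cancel hc0 e b1
        linarith
      have a5 : P 5 = P' 5 := by
        have e : qq P 5 - qq P' 5 = c * (P 5 - P' 5) := by
          rw [f5, f5, h0, h0', a1, a7, a8, a9, a10, a4]; ring
        have := ediv_cancel hc0 e b5
        linarith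
      have a11 : P 11 = P' 11 := by
        have e : qq P 8 - qq P' 8 = c * (P 11 - P' 11) := by
          rw [f8, f8, h0, h0', a1, a3, a7, a8, a10, a4]; ring
        have := ediv_cancel hc0 e b8
        linarith
      funext i
      fin_cases i
      · exact h0.trans h0'.symm
      · exact a1
      · exact a2
      · exact a3
      · exact a4
      · exact a5
      · exact a6
      · exact a7
      · exact a8
      · exact a9
      · exact a10
      · exact a11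
    have h1 := Finset.card_le_card_of_injOn f hin hinj
    rw [Finset.card_product, Fintype.card_piFinset, Fintype.card_piFinset] at h1
    simp only [Finset.prod_const, Finset.card_univ, Fintype.card_fin] at h1
    calc ((S.filter (fun P => P 0 = c)).card : ℝ) ≤ (I.card : ℝ) ^ 6 * (J.card : ℝ) ^ 5 := by
          exact_mod_cast h1
      _ ≤ (9 * |(c : ℝ)|) ^ 6 * (5 * (M / |(c : ℝ)|)) ^ 5 := by gcongr
      _ = 9 ^ 6 * 5 ^ 5 * M ^ 5 * |(c : ℝ)| := by field_simp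
      _ ≤ 9 ^ 6 * 5 ^ 5 * M ^ 5 * N := by gcongr
  have h1 : (S.card : ℝ) = ∑ c ∈ C, ((S.filter (fun P => P 0 = c)).card : ℝ) := by
    exact_mod_cast Finset.card_eq_sum_card_fiberwise (f := fun P : P12 => P 0) hmaps
  rw [h1]
  calc ∑ c ∈ C, ((S.filter (fun P => P 0 = c)).card : ℝ)
      ≤ ∑ c ∈ C, 9 ^ 6 * 5 ^ 5 * M ^ 5 * N := Finset.sum_le_sum hfib
    _ = C.card * (9 ^ 6 * 5 ^ 5 * M ^ 5 * N) := by rw [Finset.sum_const, nsmul_eq_mul]
    _ ≤ (2 * N) * (9 ^ 6 * 5 ^ 5 * M ^ 5 * N) := by gcongr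
    _ = 2 * 9 ^ 6 * 5 ^ 5 * N ^ 2 * M ^ 5 := by ring

end Pool.Agent.PP5D
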