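import Mathlib

/-!
# PP5D: counting exceptional vectors (section (d2) of PP5, MP_0f260b_nt): definitions

Coordinates of `P : P12` (the same order as `Pool.Agent.PP5.Sp`):
`0 c, 1 p2, 2 p3, 3 q1, 4 q2, 5 q3, 6 v, 7 r2, 8 r3, 9 s1, 10 s2, 11 s3`.
`qq P` are the ten quadrics, `E16 P x` the sixteen linear equations (the vector `x` kills `P`),
`sA, sB, sC` three symmetries; the eight extreme coordinates `0, 2, 3, 5, 6, 8, 9, 11` are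
permuted transitively by them.
-/

set_option autoImplicit false

namespace Pool.Agent.PP5D

/-- the coordinates `(c, p2, p3, q1, q2, q3, v, r2, r3, s1, s2, s3)` -/
abbrev P12 : Type := Fin 12 → ℤ

/-- the ten coordinates of `x` -/
abbrev X10 : Type := Fin 10 → ℤ

variable {R : Type*} [CommRing R]

/-- the ten quadrics -/
def qq (P : Fin 12 → R) : Fin 10 → R := ![
  P 0 * P 4 - P 1 * P 3 + P 6 * P 8 - P 7 ^ 2,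
  P 6 * P 10 - P 7 * P 9 - P 0 * P 2 + P 1 ^ 2,
  P 1 * P 5 - P 2 * P 4 + P 9 * P 11 - P 10 ^ 2,
  P 7 * P 11 - P 8 * P 10 - P 3 * P 5 + P 4 ^ 2,
  P 6 * P 11 - P 2 * P 3 - P 7 * P 10 + P 1 * P 4,
  P 0 * P 5 + P 8 * P 9 - P 7 * P 10 - P 1 * P 4,
  P 6 * P 4 + P 0 * P 10 - P 7 * P 1 - P 3 * P 9,
  P 6 * P 5 - P 4 * P 9 + P 1 * P 10 - P 7 * P 2,
  P 0 * P 11 - P 3 * P 10 + P 7 * P 4 - P 1 * P 8,
  P 7 * P 5 + P 1 * P 11 - P 4 * P 10 - P 8 * P 2]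

/-- the sixteen equations -/
structure E16 (P : P12) (x : X10) : Prop where
  e1 : P 4 * x 9 - P 5 * x 8 - P 8 * x 2 + P 10 * x 3 + P 11 * x 5 = 0
  e2 : -(P 0 * x 7) + P 1 * x 6 + P 7 * x 1 - P 9 * x 0 + P 6 * x 5 = 0
  e3 : P 0 * x 3 + P 3 * x 5 - P 4 * x 0 - P 7 * x 8 + P 8 * x 6 = 0
  e4 : -(P 1 * x 2) + P 2 * x 5 + P 5 * x 1 + P 9 * x 9 - P 10 * x 7 = 0
  e5 : P 4 * x 7 - P 5 * x 6 - P 7 * x 2 + P 9 * x 3 + P 10 * x 5 = 0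
  e6 : -(P 0 * x 9) + P 1 * x 8 + P 7 * x 5 + P 8 * x 1 - P 10 * x 0 = 0
  e7 : P 1 * x 3 + P 4 * x 5 - P 5 * x 0 - P 7 * x 9 + P 8 * x 7 = 0
  e8 : -(P 0 * x 2) + P 1 * x 5 + P 4 * x 1 + P 9 * x 8 - P 10 * x 6 = 0
  e9 : -(P 2 * x 3) - P 4 * x 2 + P 5 * x 4 + P 10 * x 9 - P 11 * x 7 = 0
  e10 : P 0 * x 4 - P 1 * x 0 - P 3 * x 1 + P 7 * x 6 - P 6 * x 8 = 0
  e11 : P 1 * x 7 - P 2 * x 6 + P 9 * x 4 - P 10 * x 1 - P 6 * x 2 = 0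
  e12 : -(P 3 * x 9) + P 4 * x 8 - P 7 * x 3 + P 8 * x 4 - P 11 * x 0 = 0
  e13 : P 1 * x 9 - P 2 * x 8 - P 7 * x 2 + P 10 * x 4 - P 11 * x 1 = 0
  e14 : -(P 3 * x 7) + P 4 * x 6 + P 7 * x 4 - P 10 * x 0 - P 6 * x 3 = 0
  e15 : -(P 1 * x 3) - P 3 * x 2 + P 4 * x 4 + P 10 * x 8 - P 11 * x 6 = 0
  e16 : P 1 * x 4 - P 2 * x 0 - P 4 * x 1 + P 7 * x 7 - P 6 * x 9 = 0

/-- the quadratic form of `Z^10` -/
def F10 (x : X10) : ℤ := x 0 * x 2 - x 9 * x 6 - x 1 * x 3 - x 4 * x 5 + x 7 * x 8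

/-- `v1 → v2, v2 → -v1` -/
def sA (P : Fin 12 → R) : Fin 12 → R := ![P 2, -P 1, P 0, P 5, -P 4, P 3, P 9, P 10, P 11, -P 6, -P 7, -P 8]

/-- `w1 → w2, w2 → -w1` -/
def sB (P : Fin 12 → R) : Fin 12 → R := ![P 3, P 4, P 5, -P 0, -P 1, -P 2, P 8, -P 7, P 6, P 11, -P 10, P 9]

/-- exchange of `V` and `W` -/
def sC (P : Fin 12 → R) : Fin 12 → R := ![P 9, P 10, P 11, P 6, P 7, P 8, P 2, P 1, P 0, P 5, P 4, P 3]

/-- action of `sA` on `x` -/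
def tA (x : Fin 10 → R) : Fin 10 → R := ![x 2, x 1, x 0, x 3, -x 5, -x 4, x 7, -x 6, x 9, -x 8]

/-- action of `sB` on `x` -/
def tB (x : Fin 10 → R) : Fin 10 → R := ![x 0, x 3, x 2, x 1, x 5, x 4, x 8, x 9, -x 6, -x 7]

/-- action of `sC` on `x` -/
def tC (x : Fin 10 → R) : Fin 10 → R := ![-x 1, -x 2, -x 3, -x 0, -x 4, x 5, -x 7, -x 9, -x 6, -x 8]

/-- primitive vectors: no prime divides all the coordinates -/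
def Prm {n : ℕ} (x : Fin n → ℤ) : Prop := ∀ p : ℕ, p.Prime → ¬ ∀ j, (p : ℤ) ∣ x j

/-- the eight extreme coordinates -/
def E8 : Finset (Fin 12) := {0, 2, 3, 5, 6, 8, 9, 11}

/-- the constant of `u_count` -/
noncomputable def C1 : ℝ := 3 ^ 12 * 8 ^ 5 + 8 * (2 * 9 ^ 6 * 5 ^ 5)

/-- the constant of `a_count` -/
noncomputable def C2 : ℝ := C1 * 81 * 105 ^ 5

/-- the bound for the number of dual vectors -/
noncomputable def Wf (y a l : ℝ) : ℝ :=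
  1 + y ^ (1 / 3 : ℝ) * a ^ (8 / 3 : ℝ) * l ^ (-3 : ℝ) +
    y ^ (2 / 3 : ℝ) * a ^ (4 / 3 : ℝ) * l ^ (-2 : ℝ) + y * l ^ (-1 : ℝ) +
    y ^ (4 / 3 : ℝ) * l ^ (-4 / 3 : ℝ)

end Pool.Agent.PP5D
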