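import Pool.Agent.PP5D.Defs
import Pool.Agent.FTA.DivB

/-!
# PP5D/Gfb: pure points with given c, p2, q1, r2
-/

set_option autoImplicit false

namespace Pool.Agent.PP5D

/-- integers of `[-N, N]` in one class mod `m` -/
theorem Gfb_class (N m : ℕ) (hm : 0 < m) (A : Finset ℤ) (h1 : ∀ a ∈ A, |a| ≤ (N : ℤ))
    (h2 : ∀ a ∈ A, ∀ b ∈ A, (m : ℤ) ∣ a - b) : A.card ≤ 2 * N / m + 1 := by
  classical
  rcases A.eq_empty_or_nonempty with h | h
  · simp [h]
  · set a0 := A.min' h with ha0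
    have ha0A : a0 ∈ A := A.min'_mem h
    have hmz : (0 : ℤ) < m := by exact_mod_cast hm
    have hinj : Set.InjOn (fun a : ℤ => ((a - a0) / m).toNat) (A : Set ℤ) := by
      intro a ha b hb hab
      have ha' : a ∈ A := ha
      have hb' : b ∈ A := hb
      obtain ⟨u, hu⟩ := h2 a ha' a0 ha0A
      obtain ⟨v, hv⟩ := h2 b hb' a0 ha0A
      have h3 : 0 ≤ a - a0 := by linarith [A.min'_le a ha']
      have h4 : 0 ≤ b - a0 := by linarith [A.min'_le b hb']
      simp only at hab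
      rw [hu, hv, Int.mul_ediv_cancel_left _ hmz.ne', Int.mul_ediv_cancel_left _ hmz.ne'] at hab
      have hu0 : 0 ≤ u := by
        rw [hu] at h3
        exact nonneg_of_mul_nonneg_right h3 hmz
      have hv0 : 0 ≤ v := by
        rw [hv] at h4
        exact nonneg_of_mul_nonneg_right h4 hmz
      have huv : u = v := by
        have := congrArg (Nat.cast : ℕ → ℤ) hab
        rwa [Int.toNat_of_nonneg hu0, Int.toNat_of_nonneg hv0] at this
      rw [huv] at hu
      linarith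
    have hsub : A.image (fun a : ℤ => ((a - a0) / m).toNat) ⊆ Finset.range (2 * N / m + 1) := by
      intro t ht
      rw [Finset.mem_image] at ht
      obtain ⟨a, ha, rfl⟩ := ht
      rw [Finset.mem_range, Nat.lt_succ_iff]
      have h5 : a - a0 ≤ 2 * N := by
        have := abs_le.mp (h1 a ha)
        have := abs_le.mp (h1 a0 ha0A)
        linarith
      have h6 : (a - a0) / m ≤ ((2 * N / m : ℕ) : ℤ) := by
        push_cast
        exact Int.ediv_le_ediv hmz h5
      exact Int.toNat_le.mpr h6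
    rw [← Finset.card_image_of_injOn hinj]
    calc _ ≤ (Finset.range (2 * N / m + 1)).card := Finset.card_le_card hsub
      _ = _ := Finset.card_range _

/-- from a congruence -/
theorem Gfb_dvd (c a k : ℤ) (hc : c ≠ 0) (h : c ∣ a * k) :
    ((c.natAbs / Int.gcd a c : ℕ) : ℤ) ∣ k := by
  have hg : 0 < Int.gcd a c := Int.gcd_pos_of_ne_zero_right _ hc
  have h1 : c.natAbs ∣ a.natAbs * k.natAbs := by
    rw [← Int.natAbs_mul]
    exact Int.natAbs_dvd_natAbs.mpr h
  have h2 : c.natAbs / Nat.gcd a.natAbs c.natAbs ∣ k.natAbs := by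
    have hg' : 0 < Nat.gcd a.natAbs c.natAbs := hg
    have hcop := Nat.coprime_div_gcd_div_gcd hg'
    have h3 : c.natAbs / Nat.gcd a.natAbs c.natAbs ∣
        (a.natAbs / Nat.gcd a.natAbs c.natAbs) * k.natAbs := by
      have h4 : Nat.gcd a.natAbs c.natAbs * (c.natAbs / Nat.gcd a.natAbs c.natAbs) ∣
          Nat.gcd a.natAbs c.natAbs * ((a.natAbs / Nat.gcd a.natAbs c.natAbs) * k.natAbs) := by
        rw [Nat.mul_div_cancel' (Nat.gcd_dvd_right _ _), ← mul_assoc,
          Nat.mul_div_cancel' (Nat.gcd_dvd_left _ _)]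
        exact h1
      exact (Nat.mul_dvd_mul_iff_left hg').mp h4
    exact hcop.symm.dvd_of_dvd_mul_left h3
  rw [Int.natCast_dvd]
  exact h2

/-- the fibre over `(P 4, P 6, P 8)` -/
theorem Gfb_fib (c a b d p4 p6 p8 : ℤ) (hc : c ≠ 0) (F : Finset P12)
    (hF : ∀ P ∈ F, (P 0 = c ∧ P 1 = a ∧ P 3 = b ∧ P 7 = d ∧
      (∀ i, |P i| ≤ 4 * |c|) ∧ ∀ j, qq P j = 0) ∧ P 4 = p4 ∧ P 6 = p6 ∧ P 8 = p8) :
    F.card ≤ 9 * Int.gcd b c := by
  classical
  have hg : 0 < Int.gcd b c := Int.gcd_pos_of_ne_zero_right _ hc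
  have hgd : Int.gcd b c ∣ c.natAbs := Nat.gcd_dvd_right _ _
  have hm : 0 < c.natAbs / Int.gcd b c :=
    Nat.div_pos (Nat.le_of_dvd (Int.natAbs_pos.mpr hc) hgd) hg
  have hq6 : ∀ P ∈ F, p6 * p4 + c * P 10 - d * a - b * P 9 = 0 := by
    intro P hP
    obtain ⟨⟨h0, h1, h3, h7, _, hq⟩, h4, h6, h8⟩ := hF P hP
    have h := hq 6
    simp only [qq, Matrix.cons_val] at h
    rw [h0, h1, h3, h7, h4, h6] at h
    exact h
  have hinj : Set.InjOn (fun P : P12 => P 9) (F : Set P12) := by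
    intro P hP Q hQ h9
    simp only at h9
    have hP' : P ∈ F := hP
    have hQ' : Q ∈ F := hQ
    obtain ⟨⟨h0, h1, h3, h7, _, hq⟩, h4, h6, h8⟩ := hF P hP'
    obtain ⟨⟨k0, k1, k3, k7, _, kq⟩, k4, k6, k8⟩ := hF Q hQ'
    have h10 : P 10 = Q 10 := by
      apply mul_left_cancel₀ hc
      linear_combination hq6 P hP' - hq6 Q hQ' + b * h9
    have hq1 := hq 1
    have kq1 := kq 1
    have hq5 := hq 5
    have kq5 := kq 5
    have hq8 := hq 8
    have kq8 := kq 8
    simp only [qq, Matrix.cons_val] at hq1 kq1 hq5 kq5 hq8 kq8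
    rw [h0, h1, h7, h6] at hq1
    rw [k0, k1, k7, k6, ← h9, ← h10] at kq1
    rw [h0, h8, h7, h1, h4] at hq5
    rw [k0, k8, k7, k1, k4, ← h9, ← h10] at kq5
    rw [h0, h3, h7, h4, h1, h8] at hq8
    rw [k0, k3, k7, k4, k1, k8, ← h10] at kq8
    have h2 : P 2 = Q 2 := by
      apply mul_left_cancel₀ hc
      linear_combination kq1 - hq1
    have h5 : P 5 = Q 5 := by
      apply mul_left_cancel₀ hc
      linear_combination hq5 - kq5
    have h11 : P 11 = Q 11 := by
      apply mul_left_cancel₀ hc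
      linear_combination hq8 - kq8
    funext j
    fin_cases j
    · exact h0.trans k0.symm
    · exact h1.trans k1.symm
    · exact h2
    · exact h3.trans k3.symm
    · exact h4.trans k4.symm
    · exact h5
    · exact h6.trans k6.symm
    · exact h7.trans k7.symm
    · exact h8.trans k8.symm
    · exact h9
    · exact h10
    · exact h11
  have hcl : (F.image (fun P : P12 => P 9)).card ≤
      2 * (4 * c.natAbs) / (c.natAbs / Int.gcd b c) + 1 := by
    apply Gfb_class _ _ hm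
    · intro t ht
      rw [Finset.mem_image] at ht
      obtain ⟨P, hP, rfl⟩ := ht
      have h := (hF P hP).1.2.2.2.2.1 9
      push_cast
      exact h
    · intro s hs t ht
      rw [Finset.mem_image] at hs ht
      obtain ⟨P, hP, rfl⟩ := hs
      obtain ⟨Q, hQ, rfl⟩ := ht
      apply Gfb_dvd c b _ hc
      refine ⟨P 10 - Q 10, ?_⟩
      linear_combination hq6 Q hQ - hq6 P hP
  have hdiv : 2 * (4 * c.natAbs) / (c.natAbs / Int.gcd b c) = 8 * Int.gcd b c := by
    have h : c.natAbs = (c.natAbs / Int.gcd b c) * Int.gcd b c := (Nat.div_mul_cancel hgd).symm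
    have h2 : 2 * (4 * c.natAbs) = (c.natAbs / Int.gcd b c) * (8 * Int.gcd b c) := by
      calc 2 * (4 * c.natAbs) = 8 * c.natAbs := by ring
        _ = 8 * ((c.natAbs / Int.gcd b c) * Int.gcd b c) := by rw [← h]
        _ = _ := by ring
    rw [h2]
    exact Nat.mul_div_cancel_left _ hm
  rw [Finset.card_image_of_injOn hinj, hdiv] at hcl
  omega

/-- divisors of a nonzero integer -/
theorem Gfb_div (n : ℤ) (hn : n ≠ 0) (A : Finset ℤ) (hA : ∀ t ∈ A, t ∣ n) :
    A.card ≤ 2 * n.natAbs.divisors.card := by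
  classical
  have hs : A ⊆ (n.natAbs.divisors.image (fun k : ℕ => (k : ℤ))) ∪
      (n.natAbs.divisors.image (fun k : ℕ => -(k : ℤ))) := by
    intro t ht
    have h1 : t.natAbs ∈ n.natAbs.divisors := by
      rw [Nat.mem_divisors]
      exact ⟨Int.natAbs_dvd_natAbs.mpr (hA t ht), Int.natAbs_ne_zero.mpr hn⟩
    rw [Finset.mem_union, Finset.mem_image, Finset.mem_image]
    rcases Int.natAbs_eq t with h | h
    · exact Or.inl ⟨t.natAbs, h1, h.symm⟩
    · exact Or.inr ⟨t.natAbs, h1, h.symm⟩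
  calc A.card ≤ _ := Finset.card_le_card hs
    _ ≤ (n.natAbs.divisors.image (fun k : ℕ => (k : ℤ))).card +
      (n.natAbs.divisors.image (fun k : ℕ => -(k : ℤ))).card := Finset.card_union_le _ _
    _ ≤ n.natAbs.divisors.card + n.natAbs.divisors.card :=
        Nat.add_le_add Finset.card_image_le Finset.card_image_le
    _ = _ := by ring

/-- the triples -/
theorem Gfb_tri (eps : ℝ) (he : 0 < eps) : ∃ C : ℝ, 0 < C ∧ ∀ c e : ℤ, c ≠ 0 →
    ∀ T : Finset (ℤ × ℤ × ℤ), (∀ t ∈ T, |t.1| ≤ 4 * |c| ∧ |t.2.1| ≤ 4 * |c| ∧ |t.2.2| ≤ 4 * |c| ∧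
      c * t.1 + t.2.1 * t.2.2 = e) →
      (T.card : ℝ) ≤ C * |(c : ℝ)| ^ (1 + eps) := by
  classical
  obtain ⟨K, hK, hdb⟩ := Pool.Agent.FTA.divisor_bound (show 0 < eps / 2 by linarith)
  refine ⟨18 + 18 * K * (16 : ℝ) ^ (eps / 2), by positivity, ?_⟩
  intro c e hc T hT
  have hc1z : (1 : ℤ) ≤ |c| := Int.one_le_abs hc
  have hc1 : (1 : ℝ) ≤ |(c : ℝ)| := by
    have : ((1 : ℤ) : ℝ) ≤ ((|c| : ℤ) : ℝ) := by exact_mod_cast hc1z
    rwa [Int.cast_one, Int.cast_abs] at this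
  set I : Finset ℤ := Finset.Icc (-(4 * |c|)) (4 * |c|) with hI
  have hIc : (I.card : ℝ) ≤ 9 * |(c : ℝ)| := by
    have h1 : I.card = (8 * |c| + 1).toNat := by
      rw [hI, Int.card_Icc]
      congr 1
      ring
    have h2 : ((I.card : ℤ)) = 8 * |c| + 1 := by
      rw [h1, Int.toNat_of_nonneg (by linarith)]
    have h3 : ((I.card : ℕ) : ℝ) = 8 * |(c : ℝ)| + 1 := by
      have := congrArg (Int.cast : ℤ → ℝ) h2
      push_cast at this
      exact this
    rw [h3]
    linarith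
  set T0 := T.filter (fun t => t.2.1 * t.2.2 = 0) with hT0
  set T1 := T.filter (fun t => ¬ t.2.1 * t.2.2 = 0) with hT1
  have hsplit : T.card = T0.card + T1.card := by
    rw [hT0, hT1]
    exact (Finset.card_filter_add_card_filter_not _).symm
  -- the first part
  have hc0 : (T0.card : ℝ) ≤ 18 * |(c : ℝ)| := by
    have hinj : Set.InjOn (fun t : ℤ × ℤ × ℤ => t.2) (T0 : Set (ℤ × ℤ × ℤ)) := by
      intro s hs t ht hst
      simp only at hst
      have hs' := (Finset.mem_filter.mp hs)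
      have ht' := (Finset.mem_filter.mp ht)
      have h1 := (hT s hs'.1).2.2.2
      have h2 := (hT t ht'.1).2.2.2
      have h3 : s.1 = t.1 := by
        apply mul_left_cancel₀ hc
        linear_combination h1 - h2 - hs'.2 + ht'.2
      exact Prod.ext h3 hst
    have hsub : T0.image (fun t : ℤ × ℤ × ℤ => t.2) ⊆ (({0} : Finset ℤ) ×ˢ I) ∪ (I ×ˢ {0}) := by
      intro u hu
      rw [Finset.mem_image] at hu
      obtain ⟨t, ht, rfl⟩ := hu
      have ht' := (Finset.mem_filter.mp ht)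
      obtain ⟨b1, b2, b3, _⟩ := hT t ht'.1
      rw [Finset.mem_union, Finset.mem_product, Finset.mem_product, Finset.mem_singleton,
        Finset.mem_singleton, hI, Finset.mem_Icc, Finset.mem_Icc]
      rcases mul_eq_zero.mp ht'.2 with h | h
      · exact Or.inl ⟨h, abs_le.mp b3⟩
      · exact Or.inr ⟨abs_le.mp b2, h⟩
    have h1 : T0.card ≤ I.card + I.card := by
      calc T0.card = (T0.image (fun t : ℤ × ℤ × ℤ => t.2)).card :=
            (Finset.card_image_of_injOn hinj).symm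
        _ ≤ _ := Finset.card_le_card hsub
        _ ≤ (({0} : Finset ℤ) ×ˢ I).card + (I ×ˢ ({0} : Finset ℤ)).card :=
            Finset.card_union_le _ _
        _ = I.card + I.card := by
            rw [Finset.card_product, Finset.card_product, Finset.card_singleton]
            ring
    have h2 : (T0.card : ℝ) ≤ (I.card : ℝ) + (I.card : ℝ) := by exact_mod_cast h1
    linarith
  -- the second part
  set D : ℝ := 2 * K * (16 : ℝ) ^ (eps / 2) * |(c : ℝ)| ^ eps with hD
  have hD0 : 0 ≤ D := by positivity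
  have hc2 : (T1.card : ℝ) ≤ D * (9 * |(c : ℝ)|) := by
    have hfib : ∀ p ∈ T1.image (fun t : ℤ × ℤ × ℤ => t.1),
        (T1.filter (fun t => t.1 = p)).card ≤ ⌊D⌋₊ := by
      intro p hp
      apply Nat.le_floor
      set n : ℤ := e - c * p with hn
      have hFm : ∀ t ∈ T1.filter (fun t => t.1 = p), t.2.1 * t.2.2 = n ∧ t.2.1 * t.2.2 ≠ 0 ∧
          |t.2.1| ≤ 4 * |c| ∧ |t.2.2| ≤ 4 * |c| ∧ t.1 = p := by
        intro t ht
        obtain ⟨h1, h2⟩ := Finset.mem_filter.mp ht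
        obtain ⟨h3, h4⟩ := Finset.mem_filter.mp h1
        obtain ⟨b1, b2, b3, b4⟩ := hT t h3
        refine ⟨?_, h4, b2, b3, h2⟩
        rw [hn]
        rw [h2] at b4
        linarith
      rcases (T1.filter (fun t => t.1 = p)).eq_empty_or_nonempty with hE | ⟨t0, ht0⟩
      · rw [hE]
        simpa using hD0
      · obtain ⟨g1, g2, g3, g4, _⟩ := hFm t0 ht0
        have hn0 : n ≠ 0 := by
          rw [← g1]; exact g2
        have hinj : Set.InjOn (fun t : ℤ × ℤ × ℤ => t.2.1)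
            ((T1.filter (fun t => t.1 = p)) : Set (ℤ × ℤ × ℤ)) := by
          intro s hs t ht hst
          simp only at hst
          obtain ⟨s1, s2, s3, s4, s5⟩ := hFm s hs
          obtain ⟨t1, t2, t3, t4, t5⟩ := hFm t ht
          have h0 : s.2.1 ≠ 0 := left_ne_zero_of_mul s2
          have h5 : s.2.2 = t.2.2 := by
            apply mul_left_cancel₀ h0
            rw [s1]
            rw [hst, t1]
          exact Prod.ext (s5.trans t5.symm) (Prod.ext hst h5)
        have h1 : ((T1.filter (fun t => t.1 = p)).image (fun t : ℤ × ℤ × ℤ => t.2.1)).card ≤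
            2 * n.natAbs.divisors.card := by
          apply Gfb_div n hn0
          intro u hu
          rw [Finset.mem_image] at hu
          obtain ⟨t, ht, rfl⟩ := hu
          obtain ⟨t1, _⟩ := hFm t ht
          exact ⟨t.2.2, t1.symm⟩
        rw [Finset.card_image_of_injOn hinj] at h1
        have h2 := hdb n.natAbs (Int.natAbs_ne_zero.mpr hn0)
        have h3 : (n.natAbs : ℝ) ≤ 16 * |(c : ℝ)| ^ 2 := by
          have h4 : |n| ≤ 16 * |c| ^ 2 := by
            rw [← g1, abs_mul]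
            calc |t0.2.1| * |t0.2.2| ≤ (4 * |c|) * (4 * |c|) :=
                  mul_le_mul g3 g4 (abs_nonneg _) (by positivity)
              _ = 16 * |c| ^ 2 := by ring
          have h5 : ((n.natAbs : ℕ) : ℝ) = ((|n| : ℤ) : ℝ) := by
            rw [Nat.cast_natAbs]
          rw [h5]
          have h6 : ((|n| : ℤ) : ℝ) ≤ ((16 * |c| ^ 2 : ℤ) : ℝ) := by exact_mod_cast h4
          calc ((|n| : ℤ) : ℝ) ≤ ((16 * |c| ^ 2 : ℤ) : ℝ) := h6
            _ = 16 * |(c : ℝ)| ^ 2 := by push_cast; rfl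
        have h7 : ((n.natAbs : ℕ) : ℝ) ^ (eps / 2) ≤ (16 : ℝ) ^ (eps / 2) * |(c : ℝ)| ^ eps := by
          calc ((n.natAbs : ℕ) : ℝ) ^ (eps / 2) ≤ (16 * |(c : ℝ)| ^ 2) ^ (eps / 2) :=
                Real.rpow_le_rpow (Nat.cast_nonneg _) h3 (by linarith)
            _ = (16 : ℝ) ^ (eps / 2) * |(c : ℝ)| ^ eps := by
                rw [Real.mul_rpow (by norm_num) (by positivity), ← Real.rpow_natCast,
                  ← Real.rpow_mul (abs_nonneg _)]
                congr 2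
                push_cast
                ring
        calc ((T1.filter (fun t => t.1 = p)).card : ℝ) ≤ ((2 * n.natAbs.divisors.card : ℕ) : ℝ) :=
              by exact_mod_cast h1
          _ = 2 * (n.natAbs.divisors.card : ℝ) := by push_cast; rfl
          _ ≤ 2 * (K * ((n.natAbs : ℕ) : ℝ) ^ (eps / 2)) := by gcongr
          _ ≤ 2 * (K * ((16 : ℝ) ^ (eps / 2) * |(c : ℝ)| ^ eps)) := by gcongr
          _ = D := by rw [hD]; ring
    have hmain : T1.card ≤ ⌊D⌋₊ * (T1.image (fun t : ℤ × ℤ × ℤ => t.1)).card :=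
      Finset.card_le_mul_card_image T1 _ hfib
    have hI1 : (T1.image (fun t : ℤ × ℤ × ℤ => t.1)).card ≤ I.card := by
      apply Finset.card_le_card
      intro u hu
      rw [Finset.mem_image] at hu
      obtain ⟨t, ht, rfl⟩ := hu
      obtain ⟨h3, h4⟩ := Finset.mem_filter.mp ht
      rw [hI, Finset.mem_Icc]
      exact abs_le.mp (hT t h3).1
    calc (T1.card : ℝ) ≤ ((⌊D⌋₊ * (T1.image (fun t : ℤ × ℤ × ℤ => t.1)).card : ℕ) : ℝ) := by
          exact_mod_cast hmain
      _ = (⌊D⌋₊ : ℝ) * ((T1.image (fun t : ℤ × ℤ × ℤ => t.1)).card : ℝ) := by push_cast; rfl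
      _ ≤ D * (I.card : ℝ) := by
          apply mul_le_mul (Nat.floor_le hD0) _ (Nat.cast_nonneg _) hD0
          exact_mod_cast hI1
      _ ≤ D * (9 * |(c : ℝ)|) := by gcongr
  have hce : |(c : ℝ)| ≤ |(c : ℝ)| ^ (1 + eps) := by
    calc |(c : ℝ)| = |(c : ℝ)| ^ (1 : ℝ) := (Real.rpow_one _).symm
      _ ≤ |(c : ℝ)| ^ (1 + eps) := Real.rpow_le_rpow_of_exponent_le hc1 (by linarith)
  have hce2 : |(c : ℝ)| ^ (1 + eps) = |(c : ℝ)| * |(c : ℝ)| ^ eps := by
    rw [Real.rpow_add (by linarith), Real.rpow_one]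
  calc (T.card : ℝ) = (T0.card : ℝ) + (T1.card : ℝ) := by rw [hsplit]; push_cast; rfl
    _ ≤ 18 * |(c : ℝ)| + D * (9 * |(c : ℝ)|) := by linarith
    _ = 18 * |(c : ℝ)| + 18 * K * (16 : ℝ) ^ (eps / 2) * (|(c : ℝ)| * |(c : ℝ)| ^ eps) := by
        rw [hD]; ring
    _ = 18 * |(c : ℝ)| + 18 * K * (16 : ℝ) ^ (eps / 2) * |(c : ℝ)| ^ (1 + eps) := by rw [hce2]
    _ ≤ 18 * |(c : ℝ)| ^ (1 + eps) + 18 * K * (16 : ℝ) ^ (eps / 2) * |(c : ℝ)| ^ (1 + eps) := by
        linarith
    _ = (18 + 18 * K * (16 : ℝ) ^ (eps / 2)) * |(c : ℝ)| ^ (1 + eps) := by ring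

/-- PROOF. `|c| ≥ 1`.
(1) The number of the triples `(P 4, P 6, P 8)` is at most `C' |c| ^ (1 + eps)`: by `qq P 0 = 0`
`P 6 * P 8 = n`, `n = d ^ 2 + a b - c * P 4`. `P 4` has at most `8|c| + 1 ≤ 9|c|` values; if `n ≠ 0` then
`|n| ≤ 36 c ^ 2` and `(P 6, P 8)` is one of at most `2 * card (divisors |n|) ≤ 2 C'' (36 c ^ 2) ^ (eps / 2)` pairs
(`Pool.Agent.FTA` `divisor_bound` with `eps / 2`); if `n = 0` then `P 4` is determined (`c ≠ 0`) and `P 6 = 0` or
`P 8 = 0`: at most `18 |c|` pairs.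
(2) Given `(P 4, P 6, P 8)`: `qq P 6 = 0` is `c * P 10 - b * P 9 = P 7 * P 1 - P 6 * P 4` =: `k`.
So `b * P 9 ≡ - k` mod `c`, the class of `P 9` modulo `m = |c| / gcd (b, c)` is determined, at most
`8 |c| / m + 1 ≤ 9 gcd (b, c)` values of `P 9`; `P 10` is determined by `P 9`.
(3) Then `P 2` is determined by `qq P 1 = 0`, `P 5` by `qq P 5 = 0`, `P 11` by `qq P 8 = 0`. -/
theorem g_fib (eps : ℝ) (he : 0 < eps) : ∃ C : ℝ, 0 < C ∧ ∀ c a b d : ℤ, c ≠ 0 →
    ∀ S : Finset P12, (∀ P ∈ S, P 0 = c ∧ P 1 = a ∧ P 3 = b ∧ P 7 = d ∧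
      (∀ i, |P i| ≤ 4 * |c|) ∧ ∀ j, qq P j = 0) →
      (S.card : ℝ) ≤ C * |(c : ℝ)| ^ (1 + eps) * (Int.gcd b c : ℝ) := by
  classical
  obtain ⟨C, hC, htri⟩ := Gfb_tri eps he
  refine ⟨9 * C, by positivity, ?_⟩
  intro c a b d hc S hS
  set f : P12 → ℤ × ℤ × ℤ := fun P => (P 4, P 6, P 8) with hf
  have hfib : ∀ t ∈ S.image f, (S.filter (fun P => f P = t)).card ≤ 9 * Int.gcd b c := by
    intro t _
    apply Gfb_fib c a b d t.1 t.2.1 t.2.2 hc
    intro P hP
    obtain ⟨h1, h2⟩ := Finset.mem_filter.mp hP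
    refine ⟨hS P h1, ?_, ?_, ?_⟩
    · rw [← h2]
    · rw [← h2]
    · rw [← h2]
  have hmain : S.card ≤ (9 * Int.gcd b c) * (S.image f).card :=
    Finset.card_le_mul_card_image S _ hfib
  have ht := htri c (d ^ 2 + a * b) hc (S.image f) (by
    intro t ht
    rw [Finset.mem_image] at ht
    obtain ⟨P, hP, rfl⟩ := ht
    obtain ⟨h0, h1, h3, h7, hb, hq⟩ := hS P hP
    refine ⟨hb 4, hb 6, hb 8, ?_⟩
    have h := hq 0
    simp only [qq, Matrix.cons_val] at h
    rw [h0, h1, h3, h7] at h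
    simp only [hf]
    linarith)
  calc (S.card : ℝ) ≤ (((9 * Int.gcd b c) * (S.image f).card : ℕ) : ℝ) := by exact_mod_cast hmain
    _ = 9 * (Int.gcd b c : ℝ) * ((S.image f).card : ℝ) := by push_cast; rfl
    _ ≤ 9 * (Int.gcd b c : ℝ) * (C * |(c : ℝ)| ^ (1 + eps)) := by gcongr
    _ = 9 * C * |(c : ℝ)| ^ (1 + eps) * (Int.gcd b c : ℝ) := by ring

end Pool.Agent.PP5D
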