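import Pool.Agent.PP5D.Gfb

/-!
# PP5D/Gsm: pure points with given c, weighted
-/

set_option autoImplicit false

namespace Pool.Agent.PP5D

/-- multiples of `e` in the box -/
private theorem Gsm_mult (c : ℤ) (hc : c ≠ 0) (e : ℕ) (he : e ∈ c.natAbs.divisors) :
    (e : ℝ) * (((Finset.Icc (-(4 * |c|)) (4 * |c|)).filter (fun a => (e : ℤ) ∣ a)).card : ℝ) ≤
      9 * |(c : ℝ)| := by
  obtain ⟨hdv, -⟩ := Nat.mem_divisors.1 he
  obtain ⟨m, hm⟩ := hdv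
  have hcpos : 0 < c.natAbs := Int.natAbs_pos.2 hc
  have hepos : 0 < e := Nat.pos_of_ne_zero (by rintro rfl; simp at hm; omega)
  have hcabs : |c| = (e : ℤ) * (m : ℤ) := by
    rw [Int.abs_eq_natAbs, hm]; push_cast; ring
  have hcr : |(c : ℝ)| = (e : ℝ) * (m : ℝ) := by
    have : ((|c| : ℤ) : ℝ) = (((e : ℤ) * (m : ℤ) : ℤ) : ℝ) := by rw [hcabs]
    rw [Int.cast_abs] at this
    rw [this]; push_cast; ring
  have hmpos : 0 < m := Nat.pos_of_ne_zero (by rintro rfl; simp at hm; omega)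
  have hsub : (Finset.Icc (-(4 * |c|)) (4 * |c|)).filter (fun a => (e : ℤ) ∣ a) ⊆
      (Finset.Icc (-(4 * (m : ℤ))) (4 * (m : ℤ))).image (fun t => (e : ℤ) * t) := by
    intro a ha
    obtain ⟨ha1, ha2⟩ := Finset.mem_filter.1 ha
    obtain ⟨t, rfl⟩ := ha2
    rw [Finset.mem_Icc, hcabs] at ha1
    refine Finset.mem_image.2 ⟨t, Finset.mem_Icc.2 ⟨?_, ?_⟩, rfl⟩
    · have he' : (0 : ℤ) < e := by exact_mod_cast hepos
      by_contra hcon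
      push Not at hcon
      have : (e : ℤ) * t < (e : ℤ) * (-(4 * (m : ℤ))) := mul_lt_mul_of_pos_left hcon he'
      nlinarith [ha1.1]
    · have he' : (0 : ℤ) < e := by exact_mod_cast hepos
      by_contra hcon
      push Not at hcon
      have : (e : ℤ) * (4 * (m : ℤ)) < (e : ℤ) * t := mul_lt_mul_of_pos_left hcon he'
      nlinarith [ha1.2]
  have hcard : ((Finset.Icc (-(4 * |c|)) (4 * |c|)).filter (fun a => (e : ℤ) ∣ a)).card ≤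
      8 * m + 1 := by
    refine (Finset.card_le_card hsub).trans (Finset.card_image_le.trans ?_)
    rw [Int.card_Icc]
    omega
  have hcard' : (((Finset.Icc (-(4 * |c|)) (4 * |c|)).filter (fun a => (e : ℤ) ∣ a)).card : ℝ) ≤
      8 * (m : ℝ) + 1 := by exact_mod_cast hcard
  have hm1 : (1 : ℝ) ≤ m := by exact_mod_cast hmpos
  have he0 : (0 : ℝ) < e := by exact_mod_cast hepos
  calc (e : ℝ) * (((Finset.Icc (-(4 * |c|)) (4 * |c|)).filter (fun a => (e : ℤ) ∣ a)).card : ℝ)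
      ≤ (e : ℝ) * (8 * (m : ℝ) + 1) := mul_le_mul_of_nonneg_left hcard' he0.le
    _ ≤ (e : ℝ) * (9 * (m : ℝ)) := mul_le_mul_of_nonneg_left (by linarith) he0.le
    _ = 9 * |(c : ℝ)| := by rw [hcr]; ring

/-- PROOF. `∑ gcd (a, c) ≤ ∑_{e ∣ c} e * #{|a| ≤ 4|c|, e ∣ a} ≤ ∑_{e ∣ c} e * (8|c| / e + 1) ≤ 9|c| τ(|c|)`. -/
theorem gcd_sum (c : ℤ) (hc : c ≠ 0) :
    ∑ a ∈ Finset.Icc (-(4 * |c|)) (4 * |c|), (Int.gcd a c : ℝ) ≤
      9 * |(c : ℝ)| * (c.natAbs.divisors.card : ℝ) := by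
  classical
  have h1 : ∀ a ∈ Finset.Icc (-(4 * |c|)) (4 * |c|), (Int.gcd a c : ℝ) ≤
      ∑ e ∈ c.natAbs.divisors, (if (e : ℤ) ∣ a then (e : ℝ) else 0) := by
    intro a _
    have hmem : Int.gcd a c ∈ c.natAbs.divisors := by
      rw [Nat.mem_divisors]
      exact ⟨Int.gcd_dvd_natAbs_right a c, Int.natAbs_ne_zero.2 hc⟩
    have h2 : (if ((Int.gcd a c : ℕ) : ℤ) ∣ a then ((Int.gcd a c : ℕ) : ℝ) else 0) =
        (Int.gcd a c : ℝ) := if_pos (Int.gcd_dvd_left a c)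
    rw [← h2]
    exact Finset.single_le_sum (f := fun e : ℕ => if (e : ℤ) ∣ a then (e : ℝ) else 0)
      (fun e _ => by split_ifs <;> positivity) hmem
  calc ∑ a ∈ Finset.Icc (-(4 * |c|)) (4 * |c|), (Int.gcd a c : ℝ)
      ≤ ∑ a ∈ Finset.Icc (-(4 * |c|)) (4 * |c|),
          ∑ e ∈ c.natAbs.divisors, (if (e : ℤ) ∣ a then (e : ℝ) else 0) := Finset.sum_le_sum h1
    _ = ∑ e ∈ c.natAbs.divisors, ∑ a ∈ Finset.Icc (-(4 * |c|)) (4 * |c|),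
          (if (e : ℤ) ∣ a then (e : ℝ) else 0) := Finset.sum_comm
    _ = ∑ e ∈ c.natAbs.divisors, (e : ℝ) *
          (((Finset.Icc (-(4 * |c|)) (4 * |c|)).filter (fun a => (e : ℤ) ∣ a)).card : ℝ) := by
        refine Finset.sum_congr rfl fun e _ => ?_
        rw [← Finset.sum_filter, Finset.sum_const, nsmul_eq_mul, mul_comm]
    _ ≤ ∑ e ∈ c.natAbs.divisors, 9 * |(c : ℝ)| :=
        Finset.sum_le_sum fun e he => Gsm_mult c hc e he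
    _ = 9 * |(c : ℝ)| * (c.natAbs.divisors.card : ℝ) := by
        rw [Finset.sum_const, nsmul_eq_mul, mul_comm]

/-- PROOF. Group the `P ∈ S` by `(a, b, d) = (P 1, P 3, P 7)`, in the box `[-4|c|, 4|c|] ^ 3`: by `g_fib`
(with `eps / 2`) the sum is at most
`∑_{a, b, d} gcd (a, c) gcd (d, c) * C |c| ^ (1 + eps / 2) gcd (b, c) ≤
 C |c| ^ (1 + eps / 2) (9 |c| τ(|c|)) ^ 3` (`gcd_sum`), and `τ(|c|) ≤ C' |c| ^ (eps / 6)`
(`Pool.Agent.FTA` `divisor_bound`). -/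
theorem g_count (eps : ℝ) (he : 0 < eps) : ∃ C : ℝ, 0 < C ∧ ∀ c : ℤ, c ≠ 0 →
    ∀ S : Finset P12, (∀ P ∈ S, P 0 = c ∧ (∀ i, |P i| ≤ 4 * |c|) ∧ ∀ j, qq P j = 0) →
      ∑ P ∈ S, ((Int.gcd (P 1) (P 0) : ℝ) * (Int.gcd (P 7) (P 0) : ℝ)) ≤
        C * |(c : ℝ)| ^ (4 + eps) := by
  classical
  obtain ⟨C0, hC0, hfib⟩ := g_fib (eps / 2) (by positivity)
  obtain ⟨C1', hC1, hdiv⟩ := Pool.Agent.FTA.divisor_bound (ε := eps / 6) (by positivity)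
  refine ⟨C0 * (9 * C1') ^ 3, by positivity, ?_⟩
  intro c hc S hS
  obtain ⟨B, hB⟩ : ∃ B : Finset ℤ, B = Finset.Icc (-(4 * |c|)) (4 * |c|) := ⟨_, rfl⟩
  obtain ⟨X, hX⟩ : ∃ X : ℝ, X = |(c : ℝ)| := ⟨_, rfl⟩
  have hX1 : 1 ≤ X := by
    rw [hX]
    have : (1 : ℤ) ≤ |c| := Int.one_le_abs hc
    have h2 : ((1 : ℤ) : ℝ) ≤ ((|c| : ℤ) : ℝ) := by exact_mod_cast this
    rwa [Int.cast_abs, Int.cast_one] at h2
  have hX0 : 0 < X := by linarith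
  -- the divisor function
  have htau : (c.natAbs.divisors.card : ℝ) ≤ C1' * X ^ (eps / 6) := by
    have := hdiv c.natAbs (Int.natAbs_ne_zero.2 hc)
    rw [Nat.cast_natAbs, Int.cast_abs, ← hX] at this
    exact this
  -- the gcd sum
  have hG : ∑ a ∈ B, (Int.gcd a c : ℝ) ≤ 9 * C1' * X ^ (1 + eps / 6) := by
    have h1 := gcd_sum c hc
    rw [← hB, ← hX] at h1
    refine h1.trans ?_
    have h2 : X ^ (1 + eps / 6) = X * X ^ (eps / 6) := by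
      rw [Real.rpow_add hX0, Real.rpow_one]
    rw [h2]
    calc 9 * X * (c.natAbs.divisors.card : ℝ) ≤ 9 * X * (C1' * X ^ (eps / 6)) :=
          mul_le_mul_of_nonneg_left htau (by positivity)
      _ = 9 * C1' * (X * X ^ (eps / 6)) := by ring
  have hG0 : 0 ≤ ∑ a ∈ B, (Int.gcd a c : ℝ) := Finset.sum_nonneg fun a _ => by positivity
  -- grouping
  let f : P12 → ℤ × ℤ × ℤ := fun P => (P 1, P 3, P 7)
  have hmaps : ∀ P ∈ S, f P ∈ B ×ˢ B ×ˢ B := by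
    intro P hP
    obtain ⟨-, hb, -⟩ := hS P hP
    rw [Finset.mem_product, Finset.mem_product, hB]
    simp only [Finset.mem_Icc, f]
    exact ⟨abs_le.1 (hb 1), abs_le.1 (hb 3), abs_le.1 (hb 7)⟩
  rw [← Finset.sum_fiberwise_of_maps_to hmaps]
  have hstep : ∀ t ∈ B ×ˢ B ×ˢ B,
      ∑ P ∈ S.filter (fun P => f P = t),
        ((Int.gcd (P 1) (P 0) : ℝ) * (Int.gcd (P 7) (P 0) : ℝ)) ≤
      (Int.gcd t.1 c : ℝ) * ((Int.gcd t.2.1 c : ℝ) * (Int.gcd t.2.2 c : ℝ)) *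
        (C0 * X ^ (1 + eps / 2)) := by
    rintro ⟨a, b, d⟩ _
    have hc1 : ∀ P ∈ S.filter (fun P => f P = (a, b, d)), P 0 = c ∧ P 1 = a ∧ P 3 = b ∧ P 7 = d ∧
        (∀ i, |P i| ≤ 4 * |c|) ∧ ∀ j, qq P j = 0 := by
      intro P hP
      obtain ⟨hP1, hP2⟩ := Finset.mem_filter.1 hP
      obtain ⟨h0, h1, h2⟩ := hS P hP1
      simp only [f, Prod.mk.injEq] at hP2
      exact ⟨h0, hP2.1, hP2.2.1, hP2.2.2, h1, h2⟩
    have hcd := hfib c a b d hc _ hc1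
    have hsum : ∑ P ∈ S.filter (fun P => f P = (a, b, d)),
        ((Int.gcd (P 1) (P 0) : ℝ) * (Int.gcd (P 7) (P 0) : ℝ)) =
        ((S.filter (fun P => f P = (a, b, d))).card : ℝ) *
          ((Int.gcd a c : ℝ) * (Int.gcd d c : ℝ)) := by
      rw [← nsmul_eq_mul, ← Finset.sum_const]
      refine Finset.sum_congr rfl fun P hP => ?_
      obtain ⟨h0, h1, -, h7, -⟩ := hc1 P hP
      rw [h0, h1, h7]
    rw [hsum]
    dsimp only
    calc ((S.filter (fun P => f P = (a, b, d))).card : ℝ) *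
          ((Int.gcd a c : ℝ) * (Int.gcd d c : ℝ))
        ≤ (C0 * |(c : ℝ)| ^ (1 + eps / 2) * (Int.gcd b c : ℝ)) *
          ((Int.gcd a c : ℝ) * (Int.gcd d c : ℝ)) :=
          mul_le_mul_of_nonneg_right hcd (by positivity)
      _ = (Int.gcd a c : ℝ) * ((Int.gcd b c : ℝ) * (Int.gcd d c : ℝ)) *
        (C0 * X ^ (1 + eps / 2)) := by rw [hX]; ring
  refine (Finset.sum_le_sum hstep).trans ?_
  rw [← Finset.sum_mul]
  have hprod : ∑ t ∈ B ×ˢ B ×ˢ B,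
      (Int.gcd t.1 c : ℝ) * ((Int.gcd t.2.1 c : ℝ) * (Int.gcd t.2.2 c : ℝ)) =
      (∑ a ∈ B, (Int.gcd a c : ℝ)) ^ 3 := by
    rw [Finset.sum_product]
    have h1 : ∀ a ∈ B, ∑ t ∈ B ×ˢ B,
        (Int.gcd a c : ℝ) * ((Int.gcd t.1 c : ℝ) * (Int.gcd t.2 c : ℝ)) =
        (Int.gcd a c : ℝ) * (∑ a ∈ B, (Int.gcd a c : ℝ)) ^ 2 := by
      intro a _
      rw [← Finset.mul_sum, Finset.sum_product, sq, Finset.sum_mul_sum]
    rw [Finset.sum_congr rfl h1, ← Finset.sum_mul]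
    ring
  rw [hprod]
  have hpow : (∑ a ∈ B, (Int.gcd a c : ℝ)) ^ 3 ≤ (9 * C1' * X ^ (1 + eps / 6)) ^ 3 :=
    pow_le_pow_left₀ hG0 hG 3
  calc (∑ a ∈ B, (Int.gcd a c : ℝ)) ^ 3 * (C0 * X ^ (1 + eps / 2))
      ≤ (9 * C1' * X ^ (1 + eps / 6)) ^ 3 * (C0 * X ^ (1 + eps / 2)) :=
        mul_le_mul_of_nonneg_right hpow (by positivity)
    _ = C0 * (9 * C1') ^ 3 * ((X ^ (1 + eps / 6)) ^ 3 * X ^ (1 + eps / 2)) := by ring
    _ = C0 * (9 * C1') ^ 3 * X ^ (4 + eps) := by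
        congr 1
        rw [← Real.rpow_natCast, ← Real.rpow_mul hX0.le, ← Real.rpow_add hX0]
        congr 1
        push_cast
        ring
    _ = C0 * (9 * C1') ^ 3 * |(c : ℝ)| ^ (4 + eps) := by rw [hX]

end Pool.Agent.PP5D
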