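import Pool.Agent.PP5D.Red

/-!
# PP5D/Mpp: the number of zeros in a finite ring
-/

set_option autoImplicit false

namespace Pool.Agent.PP5D

/-- PROOF. The map `P ↦ (P 0, P 1, P 3, P 6, P 7, P 8, P 9)` is injective on `S`: as `P 0` is a unit
the vanishing of `qq P 0`, `qq P 6`, `qq P 1`, `qq P 5`, `qq P 8` (see their formulas in `Defs`)
determines `P 4`, then `P 10`, `P 2`, `P 5`, `P 11`. -/
theorem mpp {R : Type*} [CommRing R] [Fintype R] (S : Finset (Fin 12 → R))
    (hS : ∀ P ∈ S, IsUnit (P 0) ∧ ∀ j, qq P j = 0) : S.card ≤ Fintype.card R ^ 7 := by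
  classical
  have key : S.card ≤ (Finset.univ : Finset (Fin 7 → R)).card := by
    refine Finset.card_le_card_of_injOn
      (fun P => ![P 0, P 1, P 3, P 6, P 7, P 8, P 9]) (fun P _ => Finset.mem_coe.2 (Finset.mem_univ _)) ?_
    intro P hP P' hP' h
    obtain ⟨hu, hq⟩ := hS P (Finset.mem_coe.1 hP)
    obtain ⟨hu', hq'⟩ := hS P' (Finset.mem_coe.1 hP')
    have e : ∀ i : Fin 7, (![P 0, P 1, P 3, P 6, P 7, P 8, P 9] : Fin 7 → R) i =
        (![P' 0, P' 1, P' 3, P' 6, P' 7, P' 8, P' 9] : Fin 7 → R) i := fun i => congrFun h i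
    have h0 := e 0; have h1 := e 1; have h2 := e 2; have h3 := e 3; have h4 := e 4
    have h5 := e 5; have h6 := e 6
    simp only [Matrix.cons_val] at h0 h1 h2 h3 h4 h5 h6
    have q0 := hq 0; have q1 := hq 1; have q5 := hq 5; have q6 := hq 6; have q8 := hq 8
    have r0 := hq' 0; have r1 := hq' 1; have r5 := hq' 5; have r6 := hq' 6; have r8 := hq' 8
    simp only [qq, Matrix.cons_val] at q0 q1 q5 q6 q8 r0 r1 r5 r6 r8
    rw [← h0, ← h1, ← h2, ← h3, ← h4, ← h5] at r0
    rw [← h0, ← h1, ← h2, ← h3, ← h4, ← h6] at r6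
    rw [← h0, ← h1, ← h3, ← h4, ← h6] at r1
    rw [← h0, ← h1, ← h4, ← h5, ← h6] at r5
    rw [← h0, ← h1, ← h2, ← h4, ← h5] at r8
    have a4 : P 4 = P' 4 := by
      apply hu.mul_left_cancel
      linear_combination q0 - r0
    rw [← a4] at r6 r5 r8
    have a10 : P 10 = P' 10 := by
      apply hu.mul_left_cancel
      linear_combination q6 - r6
    rw [← a10] at r1 r5 r8
    have a2 : P 2 = P' 2 := by
      apply hu.mul_left_cancel
      linear_combination r1 - q1
    have a5 : P 5 = P' 5 := by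
      apply hu.mul_left_cancel
      linear_combination q5 - r5
    have a11 : P 11 = P' 11 := by
      apply hu.mul_left_cancel
      linear_combination q8 - r8
    funext i
    fin_cases i <;> assumption
  calc S.card ≤ (Finset.univ : Finset (Fin 7 → R)).card := key
    _ = Fintype.card R ^ 7 := by simp

/-- PROOF. `red8` with `Q P x a := x = qq P ∧ (∀ j, x j = 0) ∧ IsUnit a` (invariant by `qq_sA`,
`all_s`, `co_tA` ...; `IsUnit.neg`), applied to the image of `S` under `P ↦ (P, qq P)`, and `mpp`. -/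
theorem mpp8 {R : Type*} [CommRing R] [Fintype R] (S : Finset (Fin 12 → R))
    (hS : ∀ P ∈ S, (∃ e ∈ E8, IsUnit (P e)) ∧ ∀ j, qq P j = 0) :
    S.card ≤ 8 * Fintype.card R ^ 7 := by
  classical
  have hneg : ∀ z : R, (fun w : R => w = 0) (-z) ↔ (fun w : R => w = 0) z := fun z => by simp
  have key := red8 (R := R)
    (fun P x a => x = qq P ∧ (∀ j, x j = 0) ∧ IsUnit a)
    (by
      rintro P x a ⟨h1, h2, h3⟩
      refine ⟨by rw [h1, qq_sA], ?_, h3⟩
      exact (all_s rA_surj (co_tA x) (fun w => w = 0) hneg).2 h2)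
    (by
      rintro P x a ⟨h1, h2, h3⟩
      refine ⟨by rw [h1, qq_sB], ?_, h3⟩
      exact (all_s rB_surj (co_tB x) (fun w => w = 0) hneg).2 h2)
    (by
      rintro P x a ⟨h1, h2, h3⟩
      refine ⟨by rw [h1, qq_sC], ?_, h3⟩
      exact (all_s rC_surj (co_tC x) (fun w => w = 0) hneg).2 h2)
    (by
      rintro P x a ⟨h1, h2, h3⟩
      exact ⟨h1, h2, h3.neg⟩)
    ((Fintype.card R : ℝ) ^ 7)
    (by
      intro T hT
      have hinj : (T.image Prod.fst).card = T.card := by
        apply Finset.card_image_of_injOn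
        intro z hz z' hz' hzz
        have a := (hT z (Finset.mem_coe.1 hz)).1
        have b := (hT z' (Finset.mem_coe.1 hz')).1
        have c : z.1 = z'.1 := hzz
        exact Prod.ext c (by rw [a, b, c])
      have hm : (T.image Prod.fst).card ≤ Fintype.card R ^ 7 := by
        apply mpp
        intro P hP
        obtain ⟨z, hz, rfl⟩ := Finset.mem_image.1 hP
        obtain ⟨h1, h2, h3⟩ := hT z hz
        exact ⟨h3, fun j => by rw [← h1]; exact h2 j⟩
      rw [hinj] at hm
      exact_mod_cast hm)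
    (S.image (fun P => (P, qq P)))
    (by
      intro z hz
      obtain ⟨P, hP, rfl⟩ := Finset.mem_image.1 hz
      obtain ⟨⟨e, he, hu⟩, hq⟩ := hS P hP
      exact ⟨e, he, rfl, hq, hu⟩)
  have hc : (S.image (fun P => (P, qq P))).card = S.card := by
    apply Finset.card_image_of_injective
    intro P P' h
    exact congrArg Prod.fst h
  rw [hc] at key
  exact_mod_cast key

end Pool.Agent.PP5D
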