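import Pool.Agent.PP5D.Ag
import Pool.Agent.FTA.DivB

/-!
# PP5D/Npu: the non-pure case
-/

set_option autoImplicit false

namespace Pool.Agent.PP5D

/-- `8 ^ ω(g) ≤ C g ^ eps`.
PROOF. `8 ^ ω(g) = (2 ^ ω(g)) ^ 3 ≤ (card divisors g) ^ 3` (every subset of `g.primeFactors` gives the
divisor `∏ p`), and `Pool.Agent.FTA` `divisor_bound` with `eps / 3`. -/
theorem om_bound (eps : ℝ) (he : 0 < eps) : ∃ C : ℝ, 0 < C ∧ ∀ g : ℕ, 0 < g →
    (8 : ℝ) ^ g.primeFactors.card ≤ C * (g : ℝ) ^ eps := by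
  obtain ⟨c, hc, hb⟩ := Pool.Agent.FTA.divisor_bound (ε := eps / 3) (by positivity)
  refine ⟨c ^ 3, by positivity, fun g hg => ?_⟩
  have h1 : (2 : ℝ) ^ g.primeFactors.card ≤ (g.divisors.card : ℝ) := by
    rw [Nat.card_divisors hg.ne']
    push_cast
    rw [← Finset.prod_const]
    refine Finset.prod_le_prod (fun _ _ => by norm_num) fun q hq => ?_
    have h2 : 1 ≤ g.factorization q := by
      have h3 := Nat.prime_of_mem_primeFactors hq
      have h4 := Nat.dvd_of_mem_primeFactors hq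
      exact (h3.dvd_iff_one_le_factorization hg.ne').1 h4
    have h5 : (1 : ℝ) ≤ (g.factorization q : ℝ) := by exact_mod_cast h2
    linarith
  have h2 := h1.trans (hb g hg.ne')
  have h3 : (8 : ℝ) ^ g.primeFactors.card = ((2 : ℝ) ^ g.primeFactors.card) ^ 3 := by
    rw [← pow_mul, mul_comm, pow_mul]
    norm_num
  have h4 : ((g : ℝ) ^ (eps / 3)) ^ 3 = (g : ℝ) ^ eps := by
    rw [← Real.rpow_natCast, ← Real.rpow_mul (Nat.cast_nonneg g)]
    congr 1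
    push_cast
    ring
  rw [h3, ← h4, ← mul_pow]
  exact pow_le_pow_left₀ (by positivity) h2 3

private theorem npu_qq (P : P12) (lam : ℝ) (hl : 0 ≤ lam) (h : ∀ i, |(P i : ℝ)| ≤ lam)
    (j : Fin 10) : |((qq P j : ℤ) : ℝ)| ≤ 4 * lam ^ 2 := by
  have hm : ∀ a b : Fin 12, |(P a : ℝ) * P b| ≤ lam ^ 2 := by
    intro a b
    rw [abs_mul, sq]
    exact mul_le_mul (h a) (h b) (abs_nonneg _) hl
  have h4 : ∀ a b c d : ℝ, |a| ≤ lam ^ 2 → |b| ≤ lam ^ 2 → |c| ≤ lam ^ 2 → |d| ≤ lam ^ 2 →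
      ∀ e : ℝ, (e = a + b + c + d ∨ e = a + b + c - d ∨ e = a + b - c - d ∨ e = a - b + c - d ∨
        e = a - b - c + d ∨ e = a - b + c + d ∨ e = a + b - c + d ∨ e = a - b - c - d) →
      |e| ≤ 4 * lam ^ 2 := by
    intro a b c d ha hb hc hd e he
    rw [abs_le] at ha hb hc hd ⊢
    rcases he with he | he | he | he | he | he | he | he <;> subst he <;>
      constructor <;> linarith [ha.1, ha.2, hb.1, hb.2, hc.1, hc.2, hd.1, hd.2]
  have hs : ∀ a : Fin 12, |(P a : ℝ) ^ 2| ≤ lam ^ 2 := by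
    intro a
    rw [sq (P a : ℝ)]
    exact hm a a
  fin_cases j
  · exact h4 _ _ _ _ (hm 0 4) (hm 1 3) (hm 6 8) (hs 7) _ (by simp [qq])
  · exact h4 _ _ _ _ (hm 6 10) (hm 7 9) (hm 0 2) (hs 1) _ (by simp [qq])
  · exact h4 _ _ _ _ (hm 1 5) (hm 2 4) (hm 9 11) (hs 10) _ (by simp [qq])
  · exact h4 _ _ _ _ (hm 7 11) (hm 8 10) (hm 3 5) (hs 4) _ (by simp [qq])
  · exact h4 _ _ _ _ (hm 6 11) (hm 2 3) (hm 7 10) (hm 1 4) _ (by simp [qq])
  · exact h4 _ _ _ _ (hm 0 5) (hm 8 9) (hm 7 10) (hm 1 4) _ (by simp [qq])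
  · exact h4 _ _ _ _ (hm 6 4) (hm 0 10) (hm 7 1) (hm 3 9) _ (by simp [qq])
  · exact h4 _ _ _ _ (hm 6 5) (hm 4 9) (hm 1 10) (hm 7 2) _ (by simp [qq])
  · exact h4 _ _ _ _ (hm 0 11) (hm 3 10) (hm 7 4) (hm 1 8) _ (by simp [qq])
  · exact h4 _ _ _ _ (hm 7 5) (hm 1 11) (hm 4 10) (hm 8 2) _ (by simp [qq])

/-- The vectors `x` of size `T` which are, up to the factor `q ≠ 0`, the vector of the quadrics of a
primitive point of size at most `lam`.
PROOF. Choose `P_x`, `q_x` for `x ∈ S`; `g = |q_x|`. With the `j` with `T < 2 |x j|`: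
`g T / 2 < |q x j| = |qq P j| ≤ 4 lam ^ 2` (four monomials), so `1 ≤ g < 8 lam ^ 2 / T =: G`, and
`G ≤ 8 lam`. The map `x ↦ (q_x, P_x)` is injective (`x j = qq P j / q`). For each `q`
the `P_x` with `q_x = q` satisfy the hypotheses of `a_count` for `g = |q|`, so
`card S ≤ ∑_{1 ≤ g < G} 2 * C2 * 8 ^ ω(g) * lam ^ 2 * T ^ 5
 ≤ 2 G * C2 * C (8 lam) ^ eps * lam ^ 2 * T ^ 5 ≤ 16 C2 C 8 ^ eps * T ^ eps * lam ^ 4 * T ^ 4`
(`om_bound`, `lam ≤ T`). -/
theorem np_count (eps : ℝ) (he : 0 < eps) : ∃ C : ℝ, 0 < C ∧ ∀ lam T : ℝ, 1 ≤ lam → lam ≤ T →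
    ∀ S : Finset X10, (∀ x ∈ S, (∀ j, |(x j : ℝ)| ≤ T) ∧ (∃ j, T < 2 * |(x j : ℝ)|) ∧
      ∃ P : P12, Prm P ∧ (∀ i, |(P i : ℝ)| ≤ lam) ∧
        ∃ q : ℤ, q ≠ 0 ∧ ∀ j, qq P j = q * x j) →
      (S.card : ℝ) ≤ C * T ^ eps * (T ^ 4 * lam ^ 4) := by
  classical
  obtain ⟨C, hC, hom⟩ := om_bound eps he
  have hC2 : 0 < C2 := by unfold C2 C1; norm_num
  refine ⟨16 * C2 * C * 8 ^ eps, by positivity, ?_⟩
  intro lam T hl hlT S hS
  have hl0 : 0 < lam := by linarith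
  have hT0 : 0 < T := by linarith
  have h1 : ∀ x : X10, ∃ (P : P12) (q : ℤ), x ∈ S → (Prm P ∧ (∀ i, |(P i : ℝ)| ≤ lam) ∧
      q ≠ 0 ∧ ∀ j, qq P j = q * x j) := by
    intro x
    by_cases hx : x ∈ S
    · obtain ⟨-, -, P, a1, a2, q, a3, a4⟩ := hS x hx
      exact ⟨P, q, fun _ => ⟨a1, a2, a3, a4⟩⟩
    · exact ⟨0, 0, fun h => absurd h hx⟩
  choose P q hPq using h1
  set N : ℕ := ⌊8 * lam ^ 2 / T⌋₊ with hN
  have hNle : (N : ℝ) ≤ 8 * lam ^ 2 / T := Nat.floor_le (by positivity)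
  have hG : 8 * lam ^ 2 / T ≤ 8 * lam := by
    rw [div_le_iff₀ hT0]
    nlinarith
  have hqN : ∀ x ∈ S, ((q x).natAbs : ℝ) ≤ 8 * lam ^ 2 / T := by
    intro x hx
    obtain ⟨-, ⟨j, hj⟩, -⟩ := hS x hx
    obtain ⟨-, a2, -, a4⟩ := hPq x hx
    have h2 := npu_qq (P x) lam hl0.le a2 j
    rw [a4 j] at h2
    push_cast at h2
    rw [abs_mul] at h2
    have h3 : ((q x).natAbs : ℝ) = |(q x : ℝ)| := by
      rw [Nat.cast_natAbs]
      push_cast
      rfl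
    rw [h3, le_div_iff₀ hT0]
    have h4 : |(q x : ℝ)| * T ≤ |(q x : ℝ)| * (2 * |(x j : ℝ)|) :=
      mul_le_mul_of_nonneg_left hj.le (abs_nonneg _)
    nlinarith
  set Q : Finset ℤ := (Finset.Icc (-(N : ℤ)) N).erase 0 with hQ
  have hmap : ∀ x ∈ S, q x ∈ Q := by
    intro x hx
    obtain ⟨-, -, a3, -⟩ := hPq x hx
    rw [hQ, Finset.mem_erase, Finset.mem_Icc]
    refine ⟨a3, ?_⟩
    have h2 : (q x).natAbs ≤ N := Nat.le_floor (hqN x hx)
    omega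
  have hQc : (Q.card : ℝ) ≤ 2 * (8 * lam ^ 2 / T) := by
    have h2 : Q.card = 2 * N := by
      rw [hQ, Finset.card_erase_of_mem (Finset.mem_Icc.2 (by omega)), Int.card_Icc]
      omega
    rw [h2]
    push_cast
    linarith
  have hfib : ∀ t ∈ Q, ((S.filter fun x => q x = t).card : ℝ) ≤
      C2 * (C * (8 * lam) ^ eps) * lam ^ 2 * T ^ 5 := by
    intro t ht
    rw [hQ, Finset.mem_erase, Finset.mem_Icc] at ht
    obtain ⟨ht0, ht1⟩ := ht
    have htN : t.natAbs ≤ N := by omega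
    have htp : 0 < t.natAbs := Int.natAbs_pos.2 ht0
    have htl : ((t.natAbs : ℕ) : ℝ) ≤ 8 * lam := by
      have : ((t.natAbs : ℕ) : ℝ) ≤ N := by exact_mod_cast htN
      linarith
    have hinj : Set.InjOn P (S.filter fun x => q x = t : Finset X10) := by
      intro x hx y hy hxy
      rw [Finset.mem_coe, Finset.mem_filter] at hx hy
      obtain ⟨-, -, -, a4⟩ := hPq x hx.1
      obtain ⟨-, -, -, b4⟩ := hPq y hy.1
      funext j
      have h2 := a4 j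
      rw [hxy, b4 j, hx.2, hy.2] at h2
      exact (mul_left_cancel₀ ht0 h2).symm
    have h3 := a_count t.natAbs htp lam T hl hlT htl ((S.filter fun x => q x = t).image P) (by
      intro R hR
      rw [Finset.mem_image] at hR
      obtain ⟨x, hx, rfl⟩ := hR
      rw [Finset.mem_filter] at hx
      obtain ⟨a1, a2, a3, a4⟩ := hPq x hx.1
      obtain ⟨b1, -, -⟩ := hS x hx.1
      refine ⟨a2, fun j => ?_, fun j => ?_, a1⟩
      · rw [a4 j, hx.2]
        exact Dvd.dvd.mul_right (Int.natAbs_dvd.2 dvd_rfl) _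
      · rw [a4 j, hx.2]
        push_cast
        rw [abs_mul]
        have h4 : ((t.natAbs : ℕ) : ℝ) = |(t : ℝ)| := by
          rw [Nat.cast_natAbs]
          push_cast
          rfl
        rw [h4]
        exact mul_le_mul_of_nonneg_left (b1 j) (abs_nonneg _))
    rw [Finset.card_image_of_injOn hinj] at h3
    refine h3.trans ?_
    have h4 := hom t.natAbs htp
    have h5 : ((t.natAbs : ℕ) : ℝ) ^ eps ≤ (8 * lam) ^ eps :=
      Real.rpow_le_rpow (Nat.cast_nonneg _) htl he.le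
    have h6 : (8 : ℝ) ^ t.natAbs.primeFactors.card ≤ C * (8 * lam) ^ eps :=
      h4.trans (mul_le_mul_of_nonneg_left h5 hC.le)
    gcongr
  have hsum : (S.card : ℝ) ≤ Q.card * (C2 * (C * (8 * lam) ^ eps) * lam ^ 2 * T ^ 5) := by
    rw [Finset.card_eq_sum_card_fiberwise (f := q) (t := Q) (fun x hx => hmap x hx)]
    push_cast
    calc ∑ t ∈ Q, ((S.filter fun x => q x = t).card : ℝ)
        ≤ ∑ t ∈ Q, C2 * (C * (8 * lam) ^ eps) * lam ^ 2 * T ^ 5 := Finset.sum_le_sum hfib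
      _ = _ := by rw [Finset.sum_const, nsmul_eq_mul]
  refine hsum.trans ?_
  have h7 : (8 * lam) ^ eps = 8 ^ eps * lam ^ eps := Real.mul_rpow (by norm_num) hl0.le
  have h8 : lam ^ eps ≤ T ^ eps := Real.rpow_le_rpow hl0.le hlT he.le
  calc (Q.card : ℝ) * (C2 * (C * (8 * lam) ^ eps) * lam ^ 2 * T ^ 5)
      ≤ (2 * (8 * lam ^ 2 / T)) * (C2 * (C * (8 * lam) ^ eps) * lam ^ 2 * T ^ 5) := by
        refine mul_le_mul_of_nonneg_right hQc ?_
        positivity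
    _ = 16 * C2 * C * 8 ^ eps * lam ^ eps * (T ^ 4 * lam ^ 4) := by
        rw [h7]
        field_simp
        ring
    _ ≤ 16 * C2 * C * 8 ^ eps * T ^ eps * (T ^ 4 * lam ^ 4) := by
        gcongr

end Pool.Agent.PP5D
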