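import Pool.Agent.PP5D.Defs

/-!
# PP5D/Xct: the vectors x of a given point
-/

set_option autoImplicit false

namespace Pool.Agent.PP5D

/-- integers of `[-N, N]` in one class mod `m` -/
theorem Xct_class (N m : ℕ) (hm : 0 < m) (A : Finset ℤ) (h1 : ∀ a ∈ A, |a| ≤ (N : ℤ))
    (h2 : ∀ a ∈ A, ∀ b ∈ A, (m : ℤ) ∣ a - b) : A.card ≤ 2 * N / m + 1 := by
  classical
  rcases A.eq_empty_or_nonempty with h | h
  · simp [h]
  · set a0 := A.min' h with ha0
    have ha0A : a0 ∈ A := A.min'_mem h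
    have hmz : (0 : ℤ) < m := by exact_mod_cast hm
    have hinj : Set.InjOn (fun a : ℤ => ((a - a0) / m).toNat) (A : Set ℤ) := by
      intro a ha b hb hab
      have ha' : a ∈ A := ha
      have hb' : b ∈ A := hb
      obtain ⟨u, hu⟩ := h2 a ha' a0 ha0A
      obtain ⟨v, hv⟩ := h2 b hb' a0 ha0A
      have h3 : 0 ≤ a - a0 := by linarith [A.min'_le a ha']
      have h4 : 0 ≤ b - a0 := by linarith [A.min'_le b hb']
      simp only at hab
      rw [hu, hv, Int.mul_ediv_cancel_left _ hmz.ne', Int.mul_ediv_cancel_left _ hmz.ne'] at hab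
      have hu0 : 0 ≤ u := by
        rw [hu] at h3
        exact nonneg_of_mul_nonneg_right h3 hmz
      have hv0 : 0 ≤ v := by
        rw [hv] at h4
        exact nonneg_of_mul_nonneg_right h4 hmz
      have huv : u = v := by
        have := congrArg (Nat.cast : ℕ → ℤ) hab
        rwa [Int.toNat_of_nonneg hu0, Int.toNat_of_nonneg hv0] at this
      rw [huv] at hu
      linarith
    have hsub : A.image (fun a : ℤ => ((a - a0) / m).toNat) ⊆ Finset.range (2 * N / m + 1) := by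
      intro t ht
      rw [Finset.mem_image] at ht
      obtain ⟨a, ha, rfl⟩ := ht
      rw [Finset.mem_range, Nat.lt_succ_iff]
      have h5 : a - a0 ≤ 2 * N := by
        have := abs_le.mp (h1 a ha)
        have := abs_le.mp (h1 a0 ha0A)
        linarith
      have h6 : (a - a0) / m ≤ ((2 * N / m : ℕ) : ℤ) := by
        push_cast
        exact Int.ediv_le_ediv hmz h5
      exact Int.toNat_le.mpr h6
    rw [← Finset.card_image_of_injOn hinj]
    calc _ ≤ (Finset.range (2 * N / m + 1)).card := Finset.card_le_card hsub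
      _ = _ := Finset.card_range _

/-- the general count -/
theorem Xct_gen (S : Finset X10) (T : ℝ) (m : ℕ) (hm : 0 < m) (hmT : (m : ℝ) ≤ T)
    (i1 i2 i3 j1 j2 : Fin 10)
    (hT : ∀ x ∈ S, ∀ j, |(x j : ℝ)| ≤ T)
    (hinj : ∀ x ∈ S, ∀ y ∈ S, x i1 = y i1 → x i2 = y i2 → x i3 = y i3 → x j1 = y j1 →
      x j2 = y j2 → x = y)
    (h1 : ∀ x ∈ S, ∀ y ∈ S, x i1 = y i1 → x i2 = y i2 → x i3 = y i3 → (m : ℤ) ∣ x j1 - y j1)
    (h2 : ∀ x ∈ S, ∀ y ∈ S, x i1 = y i1 → x i2 = y i2 → x i3 = y i3 → (m : ℤ) ∣ x j2 - y j2) :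
    (S.card : ℝ) ≤ 243 * T ^ 5 / (m : ℝ) ^ 2 := by
  classical
  have hm1 : (1 : ℝ) ≤ m := by exact_mod_cast hm
  have hT1 : 1 ≤ T := le_trans hm1 hmT
  set N : ℕ := ⌊T⌋₊ with hN
  have hNT : (N : ℝ) ≤ T := Nat.floor_le (by linarith)
  have hb : ∀ x ∈ S, ∀ j, |x j| ≤ (N : ℤ) := by
    intro x hx j
    have h := hT x hx j
    have h3 : ((|x j|.toNat : ℕ) : ℝ) ≤ T := by
      have h4 : (((|x j|.toNat : ℕ) : ℤ) : ℝ) = |(x j : ℝ)| := by
        rw [Int.toNat_of_nonneg (abs_nonneg _)]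
        push_cast
        rfl
      calc ((|x j|.toNat : ℕ) : ℝ) = (((|x j|.toNat : ℕ) : ℤ) : ℝ) := by push_cast; rfl
        _ = |(x j : ℝ)| := h4
        _ ≤ T := h
    have h5 : |x j|.toNat ≤ N := Nat.le_floor h3
    have h6 : |x j| = ((|x j|.toNat : ℕ) : ℤ) := (Int.toNat_of_nonneg (abs_nonneg _)).symm
    rw [h6]
    exact_mod_cast h5
  set K : ℕ := 2 * N / m + 1 with hK
  set f : X10 → ℤ × ℤ × ℤ := fun x => (x i1, x i2, x i3) with hf
  set I : Finset ℤ := Finset.Icc (-(N : ℤ)) N with hI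
  have hIc : I.card = 2 * N + 1 := by
    rw [hI, Int.card_Icc]
    omega
  have him : (S.image f) ⊆ I ×ˢ I ×ˢ I := by
    intro t ht
    rw [Finset.mem_image] at ht
    obtain ⟨x, hx, rfl⟩ := ht
    simp only [hf, Finset.mem_product, hI, Finset.mem_Icc]
    exact ⟨abs_le.mp (hb x hx i1), abs_le.mp (hb x hx i2), abs_le.mp (hb x hx i3)⟩
  have hfib : ∀ t ∈ S.image f, (S.filter (fun x => f x = t)).card ≤ K * K := by
    intro t _
    set F := S.filter (fun x => f x = t) with hF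
    have hFS : ∀ x ∈ F, x ∈ S := fun x hx => (Finset.mem_filter.mp hx).1
    have hFf : ∀ x ∈ F, ∀ y ∈ F, x i1 = y i1 ∧ x i2 = y i2 ∧ x i3 = y i3 := by
      intro x hx y hy
      have h3 := (Finset.mem_filter.mp hx).2
      have h4 := (Finset.mem_filter.mp hy).2
      have h5 : f x = f y := h3.trans h4.symm
      simp only [hf, Prod.mk.injEq] at h5
      exact h5
    have hA1 : (F.image (fun x => x j1)).card ≤ K := by
      apply Xct_class N m hm
      · intro a ha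
        rw [Finset.mem_image] at ha
        obtain ⟨x, hx, rfl⟩ := ha
        exact hb x (hFS x hx) j1
      · intro a ha b hb'
        rw [Finset.mem_image] at ha hb'
        obtain ⟨x, hx, rfl⟩ := ha
        obtain ⟨y, hy, rfl⟩ := hb'
        obtain ⟨e1, e2, e3⟩ := hFf x hx y hy
        exact h1 x (hFS x hx) y (hFS y hy) e1 e2 e3
    have hA2 : (F.image (fun x => x j2)).card ≤ K := by
      apply Xct_class N m hm
      · intro a ha
        rw [Finset.mem_image] at ha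
        obtain ⟨x, hx, rfl⟩ := ha
        exact hb x (hFS x hx) j2
      · intro a ha b hb'
        rw [Finset.mem_image] at ha hb'
        obtain ⟨x, hx, rfl⟩ := ha
        obtain ⟨y, hy, rfl⟩ := hb'
        obtain ⟨e1, e2, e3⟩ := hFf x hx y hy
        exact h2 x (hFS x hx) y (hFS y hy) e1 e2 e3
    have hi : Set.InjOn (fun x : X10 => (x j1, x j2)) (F : Set X10) := by
      intro x hx y hy hxy
      have hx' : x ∈ F := hx
      have hy' : y ∈ F := hy
      obtain ⟨e1, e2, e3⟩ := hFf x hx' y hy'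
      simp only [Prod.mk.injEq] at hxy
      exact hinj x (hFS x hx') y (hFS y hy') e1 e2 e3 hxy.1 hxy.2
    have hs : F.image (fun x : X10 => (x j1, x j2)) ⊆
        (F.image (fun x => x j1)) ×ˢ (F.image (fun x => x j2)) := by
      intro t ht
      rw [Finset.mem_image] at ht
      obtain ⟨x, hx, rfl⟩ := ht
      rw [Finset.mem_product]
      exact ⟨Finset.mem_image_of_mem _ hx, Finset.mem_image_of_mem _ hx⟩
    calc F.card = (F.image (fun x : X10 => (x j1, x j2))).card :=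
          (Finset.card_image_of_injOn hi).symm
      _ ≤ ((F.image (fun x => x j1)) ×ˢ (F.image (fun x => x j2))).card := Finset.card_le_card hs
      _ = (F.image (fun x => x j1)).card * (F.image (fun x => x j2)).card :=
          Finset.card_product _ _
      _ ≤ K * K := Nat.mul_le_mul hA1 hA2
  have hmain : S.card ≤ (K * K) * (S.image f).card :=
    Finset.card_le_mul_card_image S (K * K) hfib
  have himc : (S.image f).card ≤ (2 * N + 1) ^ 3 := by
    calc (S.image f).card ≤ (I ×ˢ I ×ˢ I).card := Finset.card_le_card him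
      _ = (2 * N + 1) ^ 3 := by
          rw [Finset.card_product, Finset.card_product, hIc]; ring
  have hfin : S.card ≤ (K * K) * (2 * N + 1) ^ 3 :=
    le_trans hmain (Nat.mul_le_mul_left _ himc)
  have hm0 : (0 : ℝ) < m := by linarith
  have hKr : (K : ℝ) ≤ 3 * T / m := by
    have h3 : ((2 * N / m : ℕ) : ℝ) ≤ ((2 * N : ℕ) : ℝ) / m := Nat.cast_div_le
    have h4 : ((2 * N : ℕ) : ℝ) / m ≤ 2 * T / m := by
      push_cast
      gcongr
    have h5 : (1 : ℝ) ≤ T / m := by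
      rw [le_div_iff₀ hm0]
      linarith
    have h6 : (K : ℝ) = ((2 * N / m : ℕ) : ℝ) + 1 := by
      rw [hK]
      push_cast
      rfl
    rw [h6]
    calc ((2 * N / m : ℕ) : ℝ) + 1 ≤ 2 * T / m + T / m := by linarith
      _ = 3 * T / m := by ring
  have hNr : ((2 * N + 1 : ℕ) : ℝ) ≤ 3 * T := by
    push_cast
    linarith
  have hcast : (S.card : ℝ) ≤ ((K : ℝ) * K) * ((2 * N + 1 : ℕ) : ℝ) ^ 3 := by
    exact_mod_cast hfin
  calc (S.card : ℝ) ≤ ((K : ℝ) * K) * ((2 * N + 1 : ℕ) : ℝ) ^ 3 := hcast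
    _ ≤ ((3 * T / m) * (3 * T / m)) * (3 * T) ^ 3 := by gcongr
    _ = 243 * T ^ 5 / (m : ℝ) ^ 2 := by
        field_simp
        ring

/-- from a congruence -/
theorem Xct_dvd (c a k : ℤ) (hc : c ≠ 0) (h : c ∣ a * k) :
    ((c.natAbs / Int.gcd a c : ℕ) : ℤ) ∣ k := by
  have hg : 0 < Int.gcd a c := Int.gcd_pos_of_ne_zero_right _ hc
  have h1 : c.natAbs ∣ a.natAbs * k.natAbs := by
    rw [← Int.natAbs_mul]
    exact Int.natAbs_dvd_natAbs.mpr h
  have h2 : c.natAbs / Nat.gcd a.natAbs c.natAbs ∣ k.natAbs := by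
    have hg' : 0 < Nat.gcd a.natAbs c.natAbs := hg
    have hcop := Nat.coprime_div_gcd_div_gcd hg'
    have h3 : c.natAbs / Nat.gcd a.natAbs c.natAbs ∣
        (a.natAbs / Nat.gcd a.natAbs c.natAbs) * k.natAbs := by
      have h4 : Nat.gcd a.natAbs c.natAbs * (c.natAbs / Nat.gcd a.natAbs c.natAbs) ∣
          Nat.gcd a.natAbs c.natAbs * ((a.natAbs / Nat.gcd a.natAbs c.natAbs) * k.natAbs) := by
        rw [Nat.mul_div_cancel' (Nat.gcd_dvd_right _ _), ← mul_assoc,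
          Nat.mul_div_cancel' (Nat.gcd_dvd_left _ _)]
        exact h1
      exact (Nat.mul_dvd_mul_iff_left hg').mp h4
    exact hcop.symm.dvd_of_dvd_mul_left h3
  rw [Int.natCast_dvd]
  exact h2

/-- the bound with one gcd -/
theorem Xct_one (c a : ℤ) (hc : c ≠ 0) (S : Finset X10) (T : ℝ) (hT : |(c : ℝ)| ≤ T)
    (i1 i2 i3 j1 j2 : Fin 10)
    (hTS : ∀ x ∈ S, ∀ j, |(x j : ℝ)| ≤ T)
    (hinj : ∀ x ∈ S, ∀ y ∈ S, x i1 = y i1 → x i2 = y i2 → x i3 = y i3 → x j1 = y j1 →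
      x j2 = y j2 → x = y)
    (h1 : ∀ x ∈ S, ∀ y ∈ S, x i1 = y i1 → x i2 = y i2 → x i3 = y i3 → c ∣ a * (x j1 - y j1))
    (h2 : ∀ x ∈ S, ∀ y ∈ S, x i1 = y i1 → x i2 = y i2 → x i3 = y i3 → c ∣ a * (x j2 - y j2)) :
    (S.card : ℝ) ≤ 243 * T ^ 5 * ((Int.gcd a c : ℝ) ^ 2) / (c : ℝ) ^ 2 := by
  have hg : 0 < Int.gcd a c := Int.gcd_pos_of_ne_zero_right _ hc
  have hgd : Int.gcd a c ∣ c.natAbs := Nat.gcd_dvd_right _ _
  have hm : 0 < c.natAbs / Int.gcd a c :=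
    Nat.div_pos (Nat.le_of_dvd (Int.natAbs_pos.mpr hc) hgd) hg
  have habs : ((c.natAbs : ℕ) : ℝ) = |(c : ℝ)| := by
    rw [Nat.cast_natAbs, Int.cast_abs]
  have hmr : ((c.natAbs / Int.gcd a c : ℕ) : ℝ) = |(c : ℝ)| / (Int.gcd a c : ℝ) := by
    rw [Nat.cast_div hgd (by exact_mod_cast hg.ne'), habs]
  have hgr : (1 : ℝ) ≤ (Int.gcd a c : ℝ) := by exact_mod_cast hg
  have hmT : ((c.natAbs / Int.gcd a c : ℕ) : ℝ) ≤ T := by
    rw [hmr]
    calc |(c : ℝ)| / (Int.gcd a c : ℝ) ≤ |(c : ℝ)| := div_le_self (abs_nonneg _) hgr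
      _ ≤ T := hT
  have h := Xct_gen S T (c.natAbs / Int.gcd a c) hm hmT i1 i2 i3 j1 j2 hTS hinj
    (fun x hx y hy e1 e2 e3 => Xct_dvd c a _ hc (h1 x hx y hy e1 e2 e3))
    (fun x hx y hy e1 e2 e3 => Xct_dvd c a _ hc (h2 x hx y hy e1 e2 e3))
  rw [hmr] at h
  have hcr : (c : ℝ) ≠ 0 := by exact_mod_cast hc
  calc (S.card : ℝ) ≤ 243 * T ^ 5 / (|(c : ℝ)| / (Int.gcd a c : ℝ)) ^ 2 := h
    _ = 243 * T ^ 5 * ((Int.gcd a c : ℝ) ^ 2) / (c : ℝ) ^ 2 := by
        rw [div_pow, sq_abs]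
        have hg0 : (Int.gcd a c : ℝ) ≠ 0 := by linarith
        field_simp

/-- PROOF. Let `c = P 0`, `g1 = gcd (P 1, c)`, `g7 = gcd (P 7, c)` (positive). By `e2, e3, e6, e8, e10` the vector
`x` is determined by `w = (x 0, x 1, x 5, x 6, x 8)`: `c x 7 = P 1 x 6 + P 7 x 1 - P 9 x 0 + P 6 x 5`
(`e2`), `c x 3 = - P 3 x 5 + P 4 x 0 + P 7 x 8 - P 8 x 6` (`e3`),
`c x 9 = P 1 x 8 + P 7 x 5 + P 8 x 1 - P 10 x 0` (`e6`),
`c x 2 = P 1 x 5 + P 4 x 1 + P 9 x 8 - P 10 x 6` (`e8`), `c x 4 = P 1 x 0 + P 3 x 1 - P 7 x 6 + P 6 x 8` (`e10`).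
(A) Given `x 0, x 1, x 5`: `e2` gives the class of `P 1 x 6` mod `c`, hence the class of `x 6` modulo
`|c| / g1`; `e6` gives the class of `x 8` modulo `|c| / g1`. An interval `[-T, T]` contains at most
`2 T / m + 1 ≤ 3 T / m` integers of a class mod `m = |c| / g1 ≤ T`. So
`card S ≤ (2 T + 1) ^ 3 * (3 T g1 / |c|) ^ 2 ≤ 243 T ^ 5 g1 ^ 2 / c ^ 2`.
(B) Given `x 0, x 5, x 6`: `e2` gives the class of `x 1` modulo `|c| / g7`, `e3` the class of `x 8`
modulo `|c| / g7`; so `card S ≤ 243 T ^ 5 g7 ^ 2 / c ^ 2`.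
The smaller of `g1 ^ 2`, `g7 ^ 2` is at most `g1 g7`. -/
theorem x_count (P : P12) (hc : P 0 ≠ 0) (T : ℝ) (hT : |(P 0 : ℝ)| ≤ T) (S : Finset X10)
    (hS : ∀ x ∈ S, E16 P x ∧ ∀ j, |(x j : ℝ)| ≤ T) :
    (S.card : ℝ) ≤ 243 * T ^ 5 * ((Int.gcd (P 1) (P 0) : ℝ) * (Int.gcd (P 7) (P 0) : ℝ)) /
      (P 0 : ℝ) ^ 2 := by
  have hTS : ∀ x ∈ S, ∀ j, |(x j : ℝ)| ≤ T := fun x hx => (hS x hx).2
  have hdet : ∀ x ∈ S, ∀ y ∈ S, x 0 = y 0 → x 1 = y 1 → x 5 = y 5 → x 6 = y 6 → x 8 = y 8 →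
      x = y := by
    intro x hx y hy h0 h1 h5 h6 h8
    have hx' := (hS x hx).1
    have hy' := (hS y hy).1
    have h7 : x 7 = y 7 := by
      apply mul_left_cancel₀ hc
      linear_combination -hx'.e2 + hy'.e2 + P 1 * h6 + P 7 * h1 - P 9 * h0 + P 6 * h5
    have h3 : x 3 = y 3 := by
      apply mul_left_cancel₀ hc
      linear_combination hx'.e3 - hy'.e3 - P 3 * h5 + P 4 * h0 + P 7 * h8 - P 8 * h6
    have h9 : x 9 = y 9 := by
      apply mul_left_cancel₀ hc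
      linear_combination -hx'.e6 + hy'.e6 + P 1 * h8 + P 7 * h5 + P 8 * h1 - P 10 * h0
    have h2 : x 2 = y 2 := by
      apply mul_left_cancel₀ hc
      linear_combination -hx'.e8 + hy'.e8 + P 1 * h5 + P 4 * h1 + P 9 * h8 - P 10 * h6
    have h4 : x 4 = y 4 := by
      apply mul_left_cancel₀ hc
      linear_combination hx'.e10 - hy'.e10 + P 1 * h0 + P 3 * h1 - P 7 * h6 + P 6 * h8
    funext j
    fin_cases j
    · exact h0
    · exact h1
    · exact h2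
    · exact h3
    · exact h4
    · exact h5
    · exact h6
    · exact h7
    · exact h8
    · exact h9
  have hA : (S.card : ℝ) ≤ 243 * T ^ 5 * ((Int.gcd (P 1) (P 0) : ℝ) ^ 2) / (P 0 : ℝ) ^ 2 := by
    apply Xct_one (P 0) (P 1) hc S T hT 0 1 5 6 8 hTS hdet
    · intro x hx y hy h0 h1 h5
      have hx' := (hS x hx).1
      have hy' := (hS y hy).1
      refine ⟨x 7 - y 7, ?_⟩
      linear_combination hx'.e2 - hy'.e2 - P 7 * h1 + P 9 * h0 - P 6 * h5
    · intro x hx y hy h0 h1 h5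
      have hx' := (hS x hx).1
      have hy' := (hS y hy).1
      refine ⟨x 9 - y 9, ?_⟩
      linear_combination hx'.e6 - hy'.e6 - P 7 * h5 - P 8 * h1 + P 10 * h0
  have hB : (S.card : ℝ) ≤ 243 * T ^ 5 * ((Int.gcd (P 7) (P 0) : ℝ) ^ 2) / (P 0 : ℝ) ^ 2 := by
    apply Xct_one (P 0) (P 7) hc S T hT 0 5 6 1 8 hTS
    · intro x hx y hy h0 h5 h6 h1 h8
      exact hdet x hx y hy h0 h1 h5 h6 h8
    · intro x hx y hy h0 h5 h6
      have hx' := (hS x hx).1
      have hy' := (hS y hy).1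
      refine ⟨x 7 - y 7, ?_⟩
      linear_combination hx'.e2 - hy'.e2 - P 1 * h6 + P 9 * h0 - P 6 * h5
    · intro x hx y hy h0 h5 h6
      have hx' := (hS x hx).1
      have hy' := (hS y hy).1
      refine ⟨x 3 - y 3, ?_⟩
      linear_combination -hx'.e3 + hy'.e3 + P 3 * h5 - P 4 * h0 + P 8 * h6
  have hT0 : 0 ≤ T := le_trans (abs_nonneg _) hT
  have hc2 : (0 : ℝ) < (P 0 : ℝ) ^ 2 := by
    have : (P 0 : ℝ) ≠ 0 := by exact_mod_cast hc
    positivity
  have hg1 : (0 : ℝ) ≤ (Int.gcd (P 1) (P 0) : ℝ) := Nat.cast_nonneg _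
  have hg7 : (0 : ℝ) ≤ (Int.gcd (P 7) (P 0) : ℝ) := Nat.cast_nonneg _
  rcases le_total (Int.gcd (P 1) (P 0) : ℝ) (Int.gcd (P 7) (P 0) : ℝ) with h | h
  · refine le_trans hA ?_
    gcongr
    rw [sq]
    exact mul_le_mul_of_nonneg_left h hg1
  · refine le_trans hB ?_
    gcongr
    rw [sq]
    exact mul_le_mul_of_nonneg_right h hg7

end Pool.Agent.PP5D
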