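import Pool.Agent.PP5D.Red
import Pool.Agent.PP5D.Ext
import Pool.Agent.PP5D.Xct
import Pool.Agent.PP5D.Gsm

/-!
# PP5D/Pur: the pure case
-/

set_option autoImplicit false

namespace Pool.Agent.PP5D

private def PurQ (lam T : ℝ) (P : P12) (x : X10) (a : ℤ) : Prop :=
  E16 P x ∧ (∀ j, qq P j = 0) ∧ (∀ j, |(x j : ℝ)| ≤ T) ∧ a ≠ 0 ∧ |(a : ℝ)| ≤ lam ∧
    ∀ i, |P i| ≤ 4 * |a|

private theorem purQ_A (lam T : ℝ) (P : P12) (x : X10) (a : ℤ) (h : PurQ lam T P x a) :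
    PurQ lam T (sA P) (tA x) a := by
  obtain ⟨h1, h2, h3, h4, h5, h6⟩ := h
  refine ⟨e16_A h1, ?_, ?_, h4, h5, ?_⟩
  · rw [qq_sA]
    exact (all_s rA_surj (co_tA (qq P)) (fun z => z = 0) (fun z => by simp)).2 h2
  · exact (all_s rA_surj (co_tA x) (fun z => |(z : ℝ)| ≤ T) (fun z => by
      push_cast; rw [abs_neg])).2 h3
  · exact (all_s pA_surj (co_sA P) (fun z => |z| ≤ 4 * |a|) (fun z => by rw [abs_neg])).2 h6

private theorem purQ_B (lam T : ℝ) (P : P12) (x : X10) (a : ℤ) (h : PurQ lam T P x a) :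
    PurQ lam T (sB P) (tB x) a := by
  obtain ⟨h1, h2, h3, h4, h5, h6⟩ := h
  refine ⟨e16_B h1, ?_, ?_, h4, h5, ?_⟩
  · rw [qq_sB]
    exact (all_s rB_surj (co_tB (qq P)) (fun z => z = 0) (fun z => by simp)).2 h2
  · exact (all_s rB_surj (co_tB x) (fun z => |(z : ℝ)| ≤ T) (fun z => by
      push_cast; rw [abs_neg])).2 h3
  · exact (all_s pB_surj (co_sB P) (fun z => |z| ≤ 4 * |a|) (fun z => by rw [abs_neg])).2 h6

private theorem purQ_C (lam T : ℝ) (P : P12) (x : X10) (a : ℤ) (h : PurQ lam T P x a) :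
    PurQ lam T (sC P) (tC x) a := by
  obtain ⟨h1, h2, h3, h4, h5, h6⟩ := h
  refine ⟨e16_C h1, ?_, ?_, h4, h5, ?_⟩
  · rw [qq_sC]
    exact (all_s rC_surj (co_tC (qq P)) (fun z => z = 0) (fun z => by simp)).2 h2
  · exact (all_s rC_surj (co_tC x) (fun z => |(z : ℝ)| ≤ T) (fun z => by
      push_cast; rw [abs_neg])).2 h3
  · exact (all_s pC_surj (co_sC P) (fun z => |z| ≤ 4 * |a|) (fun z => by rw [abs_neg])).2 h6

private theorem purQ_n (lam T : ℝ) (P : P12) (x : X10) (a : ℤ) (h : PurQ lam T P x a) :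
    PurQ lam T P x (-a) := by
  obtain ⟨h1, h2, h3, h4, h5, h6⟩ := h
  refine ⟨h1, h2, h3, by simpa using h4, ?_, ?_⟩
  · push_cast; rw [abs_neg]; exact h5
  · rw [abs_neg]; exact h6

/-- the count for the coordinate `0` -/
private theorem pur_zero (eps C lam T : ℝ) (he : 0 < eps) (hC : 0 < C) (hlam : 1 ≤ lam)
    (hT : lam ≤ T)
    (hg : ∀ c : ℤ, c ≠ 0 →
      ∀ S : Finset P12, (∀ P ∈ S, P 0 = c ∧ (∀ i, |P i| ≤ 4 * |c|) ∧ ∀ j, qq P j = 0) →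
        ∑ P ∈ S, ((Int.gcd (P 1) (P 0) : ℝ) * (Int.gcd (P 7) (P 0) : ℝ)) ≤
          C * |(c : ℝ)| ^ (4 + eps))
    (S : Finset ((Fin 12 → ℤ) × (Fin 10 → ℤ))) (hS : ∀ z ∈ S, PurQ lam T z.1 z.2 (z.1 0)) :
    (S.card : ℝ) ≤ 729 * C * (T ^ eps * (T ^ 5 * lam ^ 3)) := by
  classical
  have hlam0 : 0 < lam := by linarith
  have hT0 : 0 < T := by linarith
  set I : Finset (Fin 12 → ℤ) := S.image Prod.fst with hI
  have hIm : ∀ P ∈ I, P 0 ≠ 0 ∧ |(P 0 : ℝ)| ≤ lam ∧ (∀ i, |P i| ≤ 4 * |P 0|) ∧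
      ∀ j, qq P j = 0 := by
    intro P hP
    rw [hI, Finset.mem_image] at hP
    obtain ⟨z, hz, rfl⟩ := hP
    obtain ⟨h1, h2, h3, h4, h5, h6⟩ := hS z hz
    exact ⟨h4, h5, h6, h2⟩
  -- the fibres over the points `P`
  have hfib : ∀ P ∈ I, ((S.filter (fun z => z.1 = P)).card : ℝ) ≤
      243 * T ^ 5 * ((Int.gcd (P 1) (P 0) : ℝ) * (Int.gcd (P 7) (P 0) : ℝ)) / (P 0 : ℝ) ^ 2 := by
    intro P hP
    obtain ⟨hP0, hPl, -, -⟩ := hIm P hP
    have hcard : (S.filter (fun z => z.1 = P)).card =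
        ((S.filter (fun z => z.1 = P)).image Prod.snd).card := by
      rw [Finset.card_image_of_injOn]
      intro z hz w hw hzw
      have hz' := (Finset.mem_filter.1 (Finset.mem_coe.1 hz)).2
      have hw' := (Finset.mem_filter.1 (Finset.mem_coe.1 hw)).2
      exact Prod.ext (hz'.trans hw'.symm) hzw
    rw [hcard]
    refine x_count P hP0 T (hPl.trans hT) _ ?_
    intro x hx
    rw [Finset.mem_image] at hx
    obtain ⟨z, hz, rfl⟩ := hx
    rw [Finset.mem_filter] at hz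
    obtain ⟨hzS, hzP⟩ := hz
    obtain ⟨h1, h2, h3, h4, h5, h6⟩ := hS z hzS
    rw [← hzP]
    exact ⟨h1, h3⟩
  have hcS : (S.card : ℝ) = ∑ P ∈ I, ((S.filter (fun z => z.1 = P)).card : ℝ) := by
    rw [hI, Finset.card_eq_sum_card_image Prod.fst S]
    push_cast
    rfl
  -- group by the first coordinate
  set K : Finset ℤ := I.image (fun P => P 0) with hK
  have hKm : ∀ c ∈ K, c ≠ 0 ∧ |(c : ℝ)| ≤ lam := by
    intro c hc
    rw [hK, Finset.mem_image] at hc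
    obtain ⟨P, hP, rfl⟩ := hc
    exact ⟨(hIm P hP).1, (hIm P hP).2.1⟩
  have hKc : (K.card : ℝ) ≤ 3 * lam := by
    have hsub : K ⊆ Finset.Icc (-(⌊lam⌋)) ⌊lam⌋ := by
      intro c hc
      have h := (abs_le.1 (hKm c hc).2)
      rw [Finset.mem_Icc]
      constructor
      · have : -c ≤ ⌊lam⌋ := Int.le_floor.2 (by push_cast; linarith [h.1])
        linarith
      · exact Int.le_floor.2 h.2
    have h1 := Finset.card_le_card hsub
    rw [Int.card_Icc] at h1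
    have hfl : (0 : ℤ) ≤ ⌊lam⌋ := Int.floor_nonneg.2 hlam0.le
    have h2 : ((⌊lam⌋ + 1 - -⌊lam⌋).toNat : ℝ) = 2 * (⌊lam⌋ : ℝ) + 1 := by
      have h3 : (((⌊lam⌋ + 1 - -⌊lam⌋).toNat : ℤ) : ℝ) = ((⌊lam⌋ + 1 - -⌊lam⌋ : ℤ) : ℝ) := by
        rw [Int.toNat_of_nonneg (by linarith)]
      rw [← Int.cast_natCast, h3]
      push_cast
      ring
    have h4 : (K.card : ℝ) ≤ ((⌊lam⌋ + 1 - -⌊lam⌋).toNat : ℝ) := by exact_mod_cast h1
    rw [h2] at h4
    have h5 := Int.floor_le lam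
    linarith
  have hmaps : ∀ P ∈ I, P 0 ∈ K := fun P hP => Finset.mem_image_of_mem _ hP
  have hpart : ∀ c ∈ K, ∑ P ∈ I with P 0 = c,
      (243 * T ^ 5 * ((Int.gcd (P 1) (P 0) : ℝ) * (Int.gcd (P 7) (P 0) : ℝ)) / (P 0 : ℝ) ^ 2) ≤
        243 * T ^ 5 * (C * (lam ^ 2 * T ^ eps)) := by
    intro c hc
    obtain ⟨hc0, hcl⟩ := hKm c hc
    have hca : 0 < |(c : ℝ)| := abs_pos.2 (by exact_mod_cast hc0)
    have e1 : ∑ P ∈ I with P 0 = c,
        (243 * T ^ 5 * ((Int.gcd (P 1) (P 0) : ℝ) * (Int.gcd (P 7) (P 0) : ℝ)) / (P 0 : ℝ) ^ 2) =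
        243 * T ^ 5 * ((∑ P ∈ I with P 0 = c,
          ((Int.gcd (P 1) (P 0) : ℝ) * (Int.gcd (P 7) (P 0) : ℝ))) / (c : ℝ) ^ 2) := by
      rw [Finset.sum_div, Finset.mul_sum]
      refine Finset.sum_congr rfl fun P hP => ?_
      have h0 := (Finset.mem_filter.1 hP).2
      rw [h0]
      ring
    rw [e1]
    have h1 := hg c hc0 (I.filter (fun P => P 0 = c)) (by
      intro P hP
      rw [Finset.mem_filter] at hP
      obtain ⟨hPI, h0⟩ := hP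
      obtain ⟨h1, h2, h3, h4⟩ := hIm P hPI
      rw [h0] at h3
      exact ⟨h0, h3, h4⟩)
    have h2 : C * |(c : ℝ)| ^ (4 + eps) / (c : ℝ) ^ 2 ≤ C * (lam ^ 2 * T ^ eps) := by
      rw [show (4 + eps : ℝ) = ((4 : ℕ) : ℝ) + eps by push_cast; ring, Real.rpow_add hca,
        Real.rpow_natCast, ← sq_abs (c : ℝ)]
      have h3 : C * (|(c : ℝ)| ^ 4 * |(c : ℝ)| ^ eps) / |(c : ℝ)| ^ 2 =
          C * (|(c : ℝ)| ^ 2 * |(c : ℝ)| ^ eps) := by
        field_simp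
      rw [h3]
      refine mul_le_mul_of_nonneg_left ?_ hC.le
      refine mul_le_mul (pow_le_pow_left₀ hca.le hcl 2)
        (Real.rpow_le_rpow hca.le (hcl.trans hT) he.le) (by positivity) (by positivity)
    refine mul_le_mul_of_nonneg_left ?_ (by positivity)
    refine le_trans ?_ h2
    exact div_le_div_of_nonneg_right h1 (by positivity)
  calc (S.card : ℝ) = ∑ P ∈ I, ((S.filter (fun z => z.1 = P)).card : ℝ) := hcS
    _ ≤ ∑ P ∈ I, (243 * T ^ 5 * ((Int.gcd (P 1) (P 0) : ℝ) * (Int.gcd (P 7) (P 0) : ℝ)) /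
          (P 0 : ℝ) ^ 2) := Finset.sum_le_sum hfib
    _ = ∑ c ∈ K, ∑ P ∈ I with P 0 = c,
          (243 * T ^ 5 * ((Int.gcd (P 1) (P 0) : ℝ) * (Int.gcd (P 7) (P 0) : ℝ)) /
            (P 0 : ℝ) ^ 2) := (Finset.sum_fiberwise_of_maps_to hmaps _).symm
    _ ≤ ∑ _c ∈ K, 243 * T ^ 5 * (C * (lam ^ 2 * T ^ eps)) := Finset.sum_le_sum hpart
    _ = (K.card : ℝ) * (243 * T ^ 5 * (C * (lam ^ 2 * T ^ eps))) := by
        rw [Finset.sum_const, nsmul_eq_mul]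
    _ ≤ (3 * lam) * (243 * T ^ 5 * (C * (lam ^ 2 * T ^ eps))) :=
        mul_le_mul_of_nonneg_right hKc (by positivity)
    _ = 729 * C * (T ^ eps * (T ^ 5 * lam ^ 3)) := by ring

/-- PROOF. Choose `P_x` for `x ∈ S`, and let `S' = {(P_x, x)}`. With `n = max |P i| > 0` and `M = 0`
`ext_real` gives `e ∈ E8` with `n ≤ 4 |P e|`. Apply `red8` (over `ℤ`) with
`Q P x a := E16 P x ∧ (∀ j, qq P j = 0) ∧ (∀ j, |(x j : ℝ)| ≤ T) ∧ a ≠ 0 ∧ |(a : ℝ)| ≤ lam ∧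
  ∀ i, |P i| ≤ 4 * |a|` (invariance: `e16_A`, `qq_sA`, `all_s`, `co_sA`, `co_tA`, ...).
For a set `S` of pairs `(P, x)` with `Q P x (P 0)`: group by `P` (at fixed `P` `x_count`, with
`|P 0| ≤ lam ≤ T`), then by `c = P 0` (`g_count`, `1 ≤ |c| ≤ lam`):
`card S ≤ ∑_c (243 T ^ 5 / c ^ 2) * C |c| ^ (4 + eps) ≤ 243 C T ^ 5 ∑_c |c| ^ (2 + eps)
 ≤ 243 C T ^ 5 * 2 lam * lam ^ (2 + eps)`, and `lam ^ eps ≤ T ^ eps`. -/
theorem pur_count (eps : ℝ) (he : 0 < eps) : ∃ C : ℝ, 0 < C ∧ ∀ lam T : ℝ, 1 ≤ lam → lam ≤ T →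
    ∀ S : Finset X10, (∀ x ∈ S, (∀ j, |(x j : ℝ)| ≤ T) ∧
      ∃ P : P12, P ≠ 0 ∧ (∀ i, |(P i : ℝ)| ≤ lam) ∧ (∀ j, qq P j = 0) ∧ E16 P x) →
      (S.card : ℝ) ≤ C * T ^ eps * (T ^ 5 * lam ^ 3) := by
  classical
  obtain ⟨C, hC, hg⟩ := g_count eps he
  refine ⟨8 * (729 * C), by positivity, ?_⟩
  intro lam T hlam hT S hS
  have hS' : ∀ x : X10, ∃ P : P12, x ∈ S → P ≠ 0 ∧ (∀ i, |(P i : ℝ)| ≤ lam) ∧
      (∀ j, qq P j = 0) ∧ E16 P x := by
    intro x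
    by_cases hx : x ∈ S
    · obtain ⟨-, P, hP⟩ := hS x hx
      exact ⟨P, fun _ => hP⟩
    · exact ⟨0, fun h => absurd h hx⟩
  choose p hp using hS'
  set S2 : Finset ((Fin 12 → ℤ) × (Fin 10 → ℤ)) := S.image (fun x => (p x, x)) with hS2
  have hcard : S2.card = S.card := by
    rw [hS2]
    exact Finset.card_image_of_injective _ (fun x y h => (Prod.ext_iff.1 h).2)
  have key := red8 (PurQ lam T) (purQ_A lam T) (purQ_B lam T) (purQ_C lam T) (purQ_n lam T)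
    (729 * C * (T ^ eps * (T ^ 5 * lam ^ 3)))
    (fun S h => pur_zero eps C lam T he hC hlam hT hg S h) S2 (by
      intro z hz
      rw [hS2, Finset.mem_image] at hz
      obtain ⟨x, hx, rfl⟩ := hz
      obtain ⟨hP0, hPl, hPq, hPE⟩ := hp x hx
      have hxT := (hS x hx).1
      generalize p x = P at hP0 hPl hPq hPE
      obtain ⟨i0, hi0⟩ : ∃ i0 : Fin 12, ∀ i, |(P i : ℝ)| ≤ |(P i0 : ℝ)| := by
        obtain ⟨i0, -, h⟩ := Finset.exists_max_image (Finset.univ : Finset (Fin 12))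
          (fun i => |(P i : ℝ)|) ⟨0, Finset.mem_univ _⟩
        exact ⟨i0, fun i => h i (Finset.mem_univ _)⟩
      have hpos : 0 < |(P i0 : ℝ)| := by
        by_contra hcon
        apply hP0
        funext i
        have h1 := hi0 i
        have h2 : |(P i : ℝ)| ≤ 0 := h1.trans (not_lt.1 hcon)
        have h3 := abs_nonpos_iff.1 h2
        simpa using h3
      obtain ⟨e, he8, hne⟩ := ext_real (P := P) (n := |(P i0 : ℝ)|) (M := 0) hi0 ⟨i0, rfl⟩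
        (by intro j; rw [hPq j]; simp) (by
          have : 0 < |(P i0 : ℝ)| ^ 2 := by positivity
          linarith)
      refine ⟨e, he8, hPE, hPq, hxT, ?_, hPl e, ?_⟩
      · intro h0
        have h0' : P e = 0 := h0
        rw [h0'] at hne
        simp at hne
        rw [hne] at hpos
        simp at hpos
      · intro i
        have h1 : |(P i : ℝ)| ≤ 4 * |(P e : ℝ)| := (hi0 i).trans hne
        exact_mod_cast h1)
  rw [hcard] at key
  calc (S.card : ℝ) ≤ 8 * (729 * C * (T ^ eps * (T ^ 5 * lam ^ 3))) := key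
    _ = 8 * (729 * C) * T ^ eps * (T ^ 5 * lam ^ 3) := by ring

end Pool.Agent.PP5D
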