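import Pool.Agent.PP5D.Defs

/-!
# PP5D/Qx: the vector of the quadrics is proportional to x
-/

set_option autoImplicit false

namespace Pool.Agent.PP5D

theorem qp_0_1 {P : P12} {x : X10} (h : E16 P x) :
    x 0 * qq P 1 = x 1 * qq P 0 := by
  have e : 2 * (x 0 * qq P 1 - x 1 * qq P 0) = 0 := by
    simp only [qq, Matrix.cons_val]
    linear_combination 2 * P 7 * h.e2 - 2 * P 6 * h.e6 - 2 * P 1 * h.e10 + 2 * P 0 * h.e16
  linarith

theorem qp_0_2 {P : P12} {x : X10} (h : E16 P x) :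
    x 0 * qq P 2 = x 2 * qq P 0 := by
  have e : 2 * (x 0 * qq P 2 - x 2 * qq P 0) = 0 := by
    simp only [qq, Matrix.cons_val]
    linear_combination P 6 * h.e1 - P 11 * h.e2 + P 2 * h.e3 - P 3 * h.e4 - P 7 * h.e5 + P 10 * h.e6 - P 1 * h.e7 + P 4 * h.e8 + P 0 * h.e9 - P 5 * h.e10 + P 8 * h.e11 - P 9 * h.e12 - P 7 * h.e13 + P 10 * h.e14 - P 1 * h.e15 + P 4 * h.e16
  linarith

theorem qp_0_3 {P : P12} {x : X10} (h : E16 P x) :
    x 0 * qq P 3 = x 3 * qq P 0 := by
  have e : 2 * (x 0 * qq P 3 - x 3 * qq P 0) = 0 := by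
    simp only [qq, Matrix.cons_val]
    linear_combination -2 * P 4 * h.e3 + 2 * P 3 * h.e7 - 2 * P 7 * h.e12 + 2 * P 8 * h.e14
  linarith

theorem qp_0_4 {P : P12} {x : X10} (h : E16 P x) :
    x 0 * qq P 4 = x 4 * qq P 0 := by
  have e : 2 * (x 0 * qq P 4 - x 4 * qq P 0) = 0 := by
    simp only [qq, Matrix.cons_val]
    linear_combination -2 * P 4 * h.e10 - 2 * P 6 * h.e12 + 2 * P 7 * h.e14 + 2 * P 3 * h.e16
  linarith

theorem qp_0_5 {P : P12} {x : X10} (h : E16 P x) :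
    x 0 * qq P 5 = x 5 * qq P 0 := by
  have e : 2 * (x 0 * qq P 5 - x 5 * qq P 0) = 0 := by
    simp only [qq, Matrix.cons_val]
    linear_combination -2 * P 8 * h.e2 + 2 * P 1 * h.e3 + 2 * P 7 * h.e6 - 2 * P 0 * h.e7
  linarith

theorem qp_0_6 {P : P12} {x : X10} (h : E16 P x) :
    x 0 * qq P 6 = x 6 * qq P 0 := by
  have e : 2 * (x 0 * qq P 6 - x 6 * qq P 0) = 0 := by
    simp only [qq, Matrix.cons_val]
    linear_combination 2 * P 3 * h.e2 - 2 * P 6 * h.e3 + 2 * P 7 * h.e10 - 2 * P 0 * h.e14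
  linarith

theorem qp_0_7 {P : P12} {x : X10} (h : E16 P x) :
    x 0 * qq P 7 = x 7 * qq P 0 := by
  have e : 2 * (x 0 * qq P 7 - x 7 * qq P 0) = 0 := by
    simp only [qq, Matrix.cons_val]
    linear_combination 2 * P 4 * h.e2 - 2 * P 6 * h.e7 - 2 * P 1 * h.e14 + 2 * P 7 * h.e16
  linarith

theorem qp_0_8 {P : P12} {x : X10} (h : E16 P x) :
    x 0 * qq P 8 = x 8 * qq P 0 := by
  have e : 2 * (x 0 * qq P 8 - x 8 * qq P 0) = 0 := by
    simp only [qq, Matrix.cons_val]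
    linear_combination -2 * P 7 * h.e3 + 2 * P 3 * h.e6 + 2 * P 8 * h.e10 - 2 * P 0 * h.e12
  linarith

theorem qp_0_9 {P : P12} {x : X10} (h : E16 P x) :
    x 0 * qq P 9 = x 9 * qq P 0 := by
  have e : 2 * (x 0 * qq P 9 - x 9 * qq P 0) = 0 := by
    simp only [qq, Matrix.cons_val]
    linear_combination 2 * P 4 * h.e6 - 2 * P 7 * h.e7 - 2 * P 1 * h.e12 + 2 * P 8 * h.e16
  linarith

theorem qp_1_2 {P : P12} {x : X10} (h : E16 P x) :
    x 1 * qq P 2 = x 2 * qq P 1 := by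
  have e : 2 * (x 1 * qq P 2 - x 2 * qq P 1) = 0 := by
    simp only [qq, Matrix.cons_val]
    linear_combination 2 * P 1 * h.e4 - 2 * P 2 * h.e8 + 2 * P 10 * h.e11 - 2 * P 9 * h.e13
  linarith

theorem qp_1_3 {P : P12} {x : X10} (h : E16 P x) :
    x 1 * qq P 3 = x 3 * qq P 1 := by
  have e : 2 * (x 1 * qq P 3 - x 3 * qq P 1) = 0 := by
    simp only [qq, Matrix.cons_val]
    linear_combination -P 6 * h.e1 + P 11 * h.e2 + P 2 * h.e3 - P 3 * h.e4 + P 7 * h.e5 - P 10 * h.e6 - P 1 * h.e7 + P 4 * h.e8 - P 0 * h.e9 + P 5 * h.e10 + P 8 * h.e11 - P 9 * h.e12 - P 7 * h.e13 + P 10 * h.e14 + P 1 * h.e15 - P 4 * h.e16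
  linarith

theorem qp_1_4 {P : P12} {x : X10} (h : E16 P x) :
    x 1 * qq P 4 = x 4 * qq P 1 := by
  have e : 2 * (x 1 * qq P 4 - x 4 * qq P 1) = 0 := by
    simp only [qq, Matrix.cons_val]
    linear_combination 2 * P 2 * h.e10 + 2 * P 7 * h.e11 - 2 * P 6 * h.e13 - 2 * P 1 * h.e16
  linarith

theorem qp_1_5 {P : P12} {x : X10} (h : E16 P x) :
    x 1 * qq P 5 = x 5 * qq P 1 := by
  have e : 2 * (x 1 * qq P 5 - x 5 * qq P 1) = 0 := by
    simp only [qq, Matrix.cons_val]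
    linear_combination -2 * P 10 * h.e2 + 2 * P 0 * h.e4 + 2 * P 9 * h.e6 - 2 * P 1 * h.e8
  linarith

theorem qp_1_6 {P : P12} {x : X10} (h : E16 P x) :
    x 1 * qq P 6 = x 6 * qq P 1 := by
  have e : 2 * (x 1 * qq P 6 - x 6 * qq P 1) = 0 := by
    simp only [qq, Matrix.cons_val]
    linear_combination -2 * P 1 * h.e2 + 2 * P 6 * h.e8 + 2 * P 9 * h.e10 - 2 * P 0 * h.e11
  linarith

theorem qp_1_7 {P : P12} {x : X10} (h : E16 P x) :
    x 1 * qq P 7 = x 7 * qq P 1 := by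
  have e : 2 * (x 1 * qq P 7 - x 7 * qq P 1) = 0 := by
    simp only [qq, Matrix.cons_val]
    linear_combination -2 * P 2 * h.e2 + 2 * P 6 * h.e4 - 2 * P 1 * h.e11 + 2 * P 9 * h.e16
  linarith

theorem qp_1_8 {P : P12} {x : X10} (h : E16 P x) :
    x 1 * qq P 8 = x 8 * qq P 1 := by
  have e : 2 * (x 1 * qq P 8 - x 8 * qq P 1) = 0 := by
    simp only [qq, Matrix.cons_val]
    linear_combination -2 * P 1 * h.e6 + 2 * P 7 * h.e8 + 2 * P 10 * h.e10 - 2 * P 0 * h.e13
  linarith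

theorem qp_1_9 {P : P12} {x : X10} (h : E16 P x) :
    x 1 * qq P 9 = x 9 * qq P 1 := by
  have e : 2 * (x 1 * qq P 9 - x 9 * qq P 1) = 0 := by
    simp only [qq, Matrix.cons_val]
    linear_combination 2 * P 7 * h.e4 - 2 * P 2 * h.e6 - 2 * P 1 * h.e13 + 2 * P 10 * h.e16
  linarith

theorem qp_2_3 {P : P12} {x : X10} (h : E16 P x) :
    x 2 * qq P 3 = x 3 * qq P 2 := by
  have e : 2 * (x 2 * qq P 3 - x 3 * qq P 2) = 0 := by
    simp only [qq, Matrix.cons_val]
    linear_combination 2 * P 10 * h.e1 - 2 * P 11 * h.e5 - 2 * P 4 * h.e9 + 2 * P 5 * h.e15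
  linarith

theorem qp_2_4 {P : P12} {x : X10} (h : E16 P x) :
    x 2 * qq P 4 = x 4 * qq P 2 := by
  have e : 2 * (x 2 * qq P 4 - x 4 * qq P 2) = 0 := by
    simp only [qq, Matrix.cons_val]
    linear_combination -2 * P 1 * h.e9 - 2 * P 11 * h.e11 + 2 * P 10 * h.e13 + 2 * P 2 * h.e15
  linarith

theorem qp_2_5 {P : P12} {x : X10} (h : E16 P x) :
    x 2 * qq P 5 = x 5 * qq P 2 := by
  have e : 2 * (x 2 * qq P 5 - x 5 * qq P 2) = 0 := by
    simp only [qq, Matrix.cons_val]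
    linear_combination -2 * P 9 * h.e1 + 2 * P 4 * h.e4 + 2 * P 10 * h.e5 - 2 * P 5 * h.e8
  linarith

theorem qp_2_6 {P : P12} {x : X10} (h : E16 P x) :
    x 2 * qq P 6 = x 6 * qq P 2 := by
  have e : 2 * (x 2 * qq P 6 - x 6 * qq P 2) = 0 := by
    simp only [qq, Matrix.cons_val]
    linear_combination 2 * P 1 * h.e5 - 2 * P 10 * h.e8 - 2 * P 4 * h.e11 + 2 * P 9 * h.e15
  linarith

theorem qp_2_7 {P : P12} {x : X10} (h : E16 P x) :
    x 2 * qq P 7 = x 7 * qq P 2 := by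
  have e : 2 * (x 2 * qq P 7 - x 7 * qq P 2) = 0 := by
    simp only [qq, Matrix.cons_val]
    linear_combination -2 * P 10 * h.e4 + 2 * P 2 * h.e5 + 2 * P 9 * h.e9 - 2 * P 5 * h.e11
  linarith

theorem qp_2_8 {P : P12} {x : X10} (h : E16 P x) :
    x 2 * qq P 8 = x 8 * qq P 2 := by
  have e : 2 * (x 2 * qq P 8 - x 8 * qq P 2) = 0 := by
    simp only [qq, Matrix.cons_val]
    linear_combination 2 * P 1 * h.e1 - 2 * P 11 * h.e8 - 2 * P 4 * h.e13 + 2 * P 10 * h.e15
  linarith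

theorem qp_2_9 {P : P12} {x : X10} (h : E16 P x) :
    x 2 * qq P 9 = x 9 * qq P 2 := by
  have e : 2 * (x 2 * qq P 9 - x 9 * qq P 2) = 0 := by
    simp only [qq, Matrix.cons_val]
    linear_combination 2 * P 2 * h.e1 - 2 * P 11 * h.e4 + 2 * P 10 * h.e9 - 2 * P 5 * h.e13
  linarith

theorem qp_3_4 {P : P12} {x : X10} (h : E16 P x) :
    x 3 * qq P 4 = x 4 * qq P 3 := by
  have e : 2 * (x 3 * qq P 4 - x 4 * qq P 3) = 0 := by
    simp only [qq, Matrix.cons_val]
    linear_combination 2 * P 3 * h.e9 + 2 * P 10 * h.e12 - 2 * P 11 * h.e14 - 2 * P 4 * h.e15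
  linarith

theorem qp_3_5 {P : P12} {x : X10} (h : E16 P x) :
    x 3 * qq P 5 = x 5 * qq P 3 := by
  have e : 2 * (x 3 * qq P 5 - x 5 * qq P 3) = 0 := by
    simp only [qq, Matrix.cons_val]
    linear_combination -2 * P 7 * h.e1 + 2 * P 5 * h.e3 + 2 * P 8 * h.e5 - 2 * P 4 * h.e7
  linarith

theorem qp_3_6 {P : P12} {x : X10} (h : E16 P x) :
    x 3 * qq P 6 = x 6 * qq P 3 := by
  have e : 2 * (x 3 * qq P 6 - x 6 * qq P 3) = 0 := by
    simp only [qq, Matrix.cons_val]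
    linear_combination 2 * P 10 * h.e3 - 2 * P 3 * h.e5 - 2 * P 4 * h.e14 + 2 * P 7 * h.e15
  linarith

theorem qp_3_7 {P : P12} {x : X10} (h : E16 P x) :
    x 3 * qq P 7 = x 7 * qq P 3 := by
  have e : 2 * (x 3 * qq P 7 - x 7 * qq P 3) = 0 := by
    simp only [qq, Matrix.cons_val]
    linear_combination -2 * P 4 * h.e5 + 2 * P 10 * h.e7 + 2 * P 7 * h.e9 - 2 * P 5 * h.e14
  linarith

theorem qp_3_8 {P : P12} {x : X10} (h : E16 P x) :
    x 3 * qq P 8 = x 8 * qq P 3 := by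
  have e : 2 * (x 3 * qq P 8 - x 8 * qq P 3) = 0 := by
    simp only [qq, Matrix.cons_val]
    linear_combination -2 * P 3 * h.e1 + 2 * P 11 * h.e3 - 2 * P 4 * h.e12 + 2 * P 8 * h.e15
  linarith

theorem qp_3_9 {P : P12} {x : X10} (h : E16 P x) :
    x 3 * qq P 9 = x 9 * qq P 3 := by
  have e : 2 * (x 3 * qq P 9 - x 9 * qq P 3) = 0 := by
    simp only [qq, Matrix.cons_val]
    linear_combination -2 * P 4 * h.e1 + 2 * P 11 * h.e7 + 2 * P 8 * h.e9 - 2 * P 5 * h.e12
  linarith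

theorem qp_4_5 {P : P12} {x : X10} (h : E16 P x) :
    x 4 * qq P 5 = x 5 * qq P 4 := by
  have e : 2 * (x 4 * qq P 5 - x 5 * qq P 4) = 0 := by
    simp only [qq, Matrix.cons_val]
    linear_combination -P 6 * h.e1 - P 11 * h.e2 + P 2 * h.e3 + P 3 * h.e4 + P 7 * h.e5 + P 10 * h.e6 - P 1 * h.e7 - P 4 * h.e8 + P 0 * h.e9 + P 5 * h.e10 + P 8 * h.e11 + P 9 * h.e12 - P 7 * h.e13 - P 10 * h.e14 - P 1 * h.e15 - P 4 * h.e16
  linarith

theorem qp_4_6 {P : P12} {x : X10} (h : E16 P x) :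
    x 4 * qq P 6 = x 6 * qq P 4 := by
  have e : 2 * (x 4 * qq P 6 - x 6 * qq P 4) = 0 := by
    simp only [qq, Matrix.cons_val]
    linear_combination 2 * P 10 * h.e10 - 2 * P 3 * h.e11 - 2 * P 1 * h.e14 + 2 * P 6 * h.e15
  linarith

theorem qp_4_7 {P : P12} {x : X10} (h : E16 P x) :
    x 4 * qq P 7 = x 7 * qq P 4 := by
  have e : 2 * (x 4 * qq P 7 - x 7 * qq P 4) = 0 := by
    simp only [qq, Matrix.cons_val]
    linear_combination 2 * P 6 * h.e9 - 2 * P 4 * h.e11 - 2 * P 2 * h.e14 + 2 * P 10 * h.e16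
  linarith

theorem qp_4_8 {P : P12} {x : X10} (h : E16 P x) :
    x 4 * qq P 8 = x 8 * qq P 4 := by
  have e : 2 * (x 4 * qq P 8 - x 8 * qq P 4) = 0 := by
    simp only [qq, Matrix.cons_val]
    linear_combination 2 * P 11 * h.e10 - 2 * P 1 * h.e12 - 2 * P 3 * h.e13 + 2 * P 7 * h.e15
  linarith

theorem qp_4_9 {P : P12} {x : X10} (h : E16 P x) :
    x 4 * qq P 9 = x 9 * qq P 4 := by
  have e : 2 * (x 4 * qq P 9 - x 9 * qq P 4) = 0 := by
    simp only [qq, Matrix.cons_val]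
    linear_combination 2 * P 7 * h.e9 - 2 * P 2 * h.e12 - 2 * P 4 * h.e13 + 2 * P 11 * h.e16
  linarith

theorem qp_5_6 {P : P12} {x : X10} (h : E16 P x) :
    x 5 * qq P 6 = x 6 * qq P 5 := by
  have e : 2 * (x 5 * qq P 6 - x 6 * qq P 5) = 0 := by
    simp only [qq, Matrix.cons_val]
    linear_combination 2 * P 4 * h.e2 - 2 * P 9 * h.e3 + 2 * P 0 * h.e5 - 2 * P 7 * h.e8
  linarith

theorem qp_5_7 {P : P12} {x : X10} (h : E16 P x) :
    x 5 * qq P 7 = x 7 * qq P 5 := by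
  have e : 2 * (x 5 * qq P 7 - x 7 * qq P 5) = 0 := by
    simp only [qq, Matrix.cons_val]
    linear_combination 2 * P 5 * h.e2 - 2 * P 7 * h.e4 + 2 * P 1 * h.e5 - 2 * P 9 * h.e7
  linarith

theorem qp_5_8 {P : P12} {x : X10} (h : E16 P x) :
    x 5 * qq P 8 = x 8 * qq P 5 := by
  have e : 2 * (x 5 * qq P 8 - x 8 * qq P 5) = 0 := by
    simp only [qq, Matrix.cons_val]
    linear_combination 2 * P 0 * h.e1 - 2 * P 10 * h.e3 + 2 * P 4 * h.e6 - 2 * P 8 * h.e8
  linarith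

theorem qp_5_9 {P : P12} {x : X10} (h : E16 P x) :
    x 5 * qq P 9 = x 9 * qq P 5 := by
  have e : 2 * (x 5 * qq P 9 - x 9 * qq P 5) = 0 := by
    simp only [qq, Matrix.cons_val]
    linear_combination 2 * P 1 * h.e1 - 2 * P 8 * h.e4 + 2 * P 5 * h.e6 - 2 * P 10 * h.e7
  linarith

theorem qp_6_7 {P : P12} {x : X10} (h : E16 P x) :
    x 6 * qq P 7 = x 7 * qq P 6 := by
  have e : 2 * (x 6 * qq P 7 - x 7 * qq P 6) = 0 := by
    simp only [qq, Matrix.cons_val]
    linear_combination 2 * P 10 * h.e2 - 2 * P 6 * h.e5 + 2 * P 7 * h.e11 - 2 * P 9 * h.e14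
  linarith

theorem qp_6_8 {P : P12} {x : X10} (h : E16 P x) :
    x 6 * qq P 8 = x 8 * qq P 6 := by
  have e : 2 * (x 6 * qq P 8 - x 8 * qq P 6) = 0 := by
    simp only [qq, Matrix.cons_val]
    linear_combination -2 * P 1 * h.e3 + 2 * P 3 * h.e8 + 2 * P 4 * h.e10 - 2 * P 0 * h.e15
  linarith

theorem qp_6_9 {P : P12} {x : X10} (h : E16 P x) :
    x 6 * qq P 9 = x 9 * qq P 6 := by
  have e : 2 * (x 6 * qq P 9 - x 9 * qq P 6) = 0 := by
    simp only [qq, Matrix.cons_val]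
    linear_combination -P 6 * h.e1 + P 11 * h.e2 - P 2 * h.e3 + P 3 * h.e4 - P 7 * h.e5 + P 10 * h.e6 - P 1 * h.e7 + P 4 * h.e8 - P 0 * h.e9 + P 5 * h.e10 + P 8 * h.e11 - P 9 * h.e12 + P 7 * h.e13 - P 10 * h.e14 - P 1 * h.e15 + P 4 * h.e16
  linarith

theorem qp_7_8 {P : P12} {x : X10} (h : E16 P x) :
    x 7 * qq P 8 = x 8 * qq P 7 := by
  have e : 2 * (x 7 * qq P 8 - x 8 * qq P 7) = 0 := by
    simp only [qq, Matrix.cons_val]
    linear_combination P 6 * h.e1 - P 11 * h.e2 - P 2 * h.e3 + P 3 * h.e4 + P 7 * h.e5 - P 10 * h.e6 - P 1 * h.e7 + P 4 * h.e8 - P 0 * h.e9 + P 5 * h.e10 - P 8 * h.e11 + P 9 * h.e12 - P 7 * h.e13 + P 10 * h.e14 - P 1 * h.e15 + P 4 * h.e16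
  linarith

theorem qp_7_9 {P : P12} {x : X10} (h : E16 P x) :
    x 7 * qq P 9 = x 9 * qq P 7 := by
  have e : 2 * (x 7 * qq P 9 - x 9 * qq P 7) = 0 := by
    simp only [qq, Matrix.cons_val]
    linear_combination 2 * P 4 * h.e4 - 2 * P 2 * h.e7 - 2 * P 1 * h.e9 + 2 * P 5 * h.e16
  linarith

theorem qp_8_9 {P : P12} {x : X10} (h : E16 P x) :
    x 8 * qq P 9 = x 9 * qq P 8 := by
  have e : 2 * (x 8 * qq P 9 - x 9 * qq P 8) = 0 := by
    simp only [qq, Matrix.cons_val]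
    linear_combination -2 * P 7 * h.e1 + 2 * P 11 * h.e6 - 2 * P 10 * h.e12 + 2 * P 8 * h.e13
  linarith

theorem q_prop {P : P12} {x : X10} (h : E16 P x) (i j : Fin 10) :
    x i * qq P j = x j * qq P i := by
  fin_cases i <;> fin_cases j
  · rfl
  · exact qp_0_1 h
  · exact qp_0_2 h
  · exact qp_0_3 h
  · exact qp_0_4 h
  · exact qp_0_5 h
  · exact qp_0_6 h
  · exact qp_0_7 h
  · exact qp_0_8 h
  · exact qp_0_9 h
  · exact (qp_0_1 h).symm
  · rfl
  · exact qp_1_2 h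
  · exact qp_1_3 h
  · exact qp_1_4 h
  · exact qp_1_5 h
  · exact qp_1_6 h
  · exact qp_1_7 h
  · exact qp_1_8 h
  · exact qp_1_9 h
  · exact (qp_0_2 h).symm
  · exact (qp_1_2 h).symm
  · rfl
  · exact qp_2_3 h
  · exact qp_2_4 h
  · exact qp_2_5 h
  · exact qp_2_6 h
  · exact qp_2_7 h
  · exact qp_2_8 h
  · exact qp_2_9 h
  · exact (qp_0_3 h).symm
  · exact (qp_1_3 h).symm
  · exact (qp_2_3 h).symm
  · rfl
  · exact qp_3_4 h
  · exact qp_3_5 h
  · exact qp_3_6 h
  · exact qp_3_7 h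
  · exact qp_3_8 h
  · exact qp_3_9 h
  · exact (qp_0_4 h).symm
  · exact (qp_1_4 h).symm
  · exact (qp_2_4 h).symm
  · exact (qp_3_4 h).symm
  · rfl
  · exact qp_4_5 h
  · exact qp_4_6 h
  · exact qp_4_7 h
  · exact qp_4_8 h
  · exact qp_4_9 h
  · exact (qp_0_5 h).symm
  · exact (qp_1_5 h).symm
  · exact (qp_2_5 h).symm
  · exact (qp_3_5 h).symm
  · exact (qp_4_5 h).symm
  · rfl
  · exact qp_5_6 h
  · exact qp_5_7 h
  · exact qp_5_8 h
  · exact qp_5_9 h
  · exact (qp_0_6 h).symm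
  · exact (qp_1_6 h).symm
  · exact (qp_2_6 h).symm
  · exact (qp_3_6 h).symm
  · exact (qp_4_6 h).symm
  · exact (qp_5_6 h).symm
  · rfl
  · exact qp_6_7 h
  · exact qp_6_8 h
  · exact qp_6_9 h
  · exact (qp_0_7 h).symm
  · exact (qp_1_7 h).symm
  · exact (qp_2_7 h).symm
  · exact (qp_3_7 h).symm
  · exact (qp_4_7 h).symm
  · exact (qp_5_7 h).symm
  · exact (qp_6_7 h).symm
  · rfl
  · exact qp_7_8 h
  · exact qp_7_9 h
  · exact (qp_0_8 h).symm
  · exact (qp_1_8 h).symm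
  · exact (qp_2_8 h).symm
  · exact (qp_3_8 h).symm
  · exact (qp_4_8 h).symm
  · exact (qp_5_8 h).symm
  · exact (qp_6_8 h).symm
  · exact (qp_7_8 h).symm
  · rfl
  · exact qp_8_9 h
  · exact (qp_0_9 h).symm
  · exact (qp_1_9 h).symm
  · exact (qp_2_9 h).symm
  · exact (qp_3_9 h).symm
  · exact (qp_4_9 h).symm
  · exact (qp_5_9 h).symm
  · exact (qp_6_9 h).symm
  · exact (qp_7_9 h).symm
  · exact (qp_8_9 h).symm
  · rfl

/-- the coordinates of a primitive vector generate `ℤ` -/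
theorem prm_bez {n : ℕ} {x : Fin n → ℤ} (hx : Prm x) : ∃ a : Fin n → ℤ, ∑ j, a j * x j = 1 := by
  have h : Ideal.span (Set.range x) = ⊤ := by
    by_contra hne
    obtain ⟨M, hM, hle⟩ := Ideal.exists_le_maximal _ hne
    obtain ⟨g, hg⟩ := (IsPrincipalIdealRing.principal M).principal
    have hdv : ∀ j, g ∣ x j := by
      intro j
      have : x j ∈ M := hle (Ideal.subset_span ⟨j, rfl⟩)
      rw [hg] at this
      exact Ideal.mem_span_singleton.mp this
    have hg1 : g.natAbs ≠ 1 := by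
      intro h1
      apply hM.ne_top
      rw [hg]
      exact Ideal.span_singleton_eq_top.mpr (Int.isUnit_iff_natAbs_eq.mpr h1)
    obtain ⟨p, hp, hpg⟩ := Nat.exists_prime_and_dvd hg1
    exact hx p hp fun j => (Int.natCast_dvd.mpr hpg).trans (hdv j)
  have h1 : (1 : ℤ) ∈ Ideal.span (Set.range x) := by rw [h]; trivial
  obtain ⟨a, ha⟩ := Ideal.mem_span_range_iff_exists_fun.mp h1
  exact ⟨a, ha⟩

/-- the vector of the quadrics is a multiple of the primitive vector `x` -/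
theorem q_ex {P : P12} {x : X10} (h : E16 P x) (hx : Prm x) : ∃ q : ℤ, ∀ j, qq P j = q * x j := by
  obtain ⟨a, ha⟩ := prm_bez hx
  refine ⟨∑ j, a j * qq P j, fun i => ?_⟩
  rw [Finset.sum_mul]
  calc qq P i = (∑ j, a j * x j) * qq P i := by rw [ha, one_mul]
    _ = ∑ j, a j * qq P j * x i := by
        rw [Finset.sum_mul]
        refine Finset.sum_congr rfl fun j _ => ?_
        rw [mul_assoc, mul_assoc, q_prop h j i]
        ring

/-- every non-zero point is a multiple of a primitive one -/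
theorem prim_ex {P : P12} {x : X10} (h : E16 P x) (hP : P ≠ 0) :
    ∃ P' : P12, Prm P' ∧ (∀ i, |P' i| ≤ |P i|) ∧ E16 P' x := by
  classical
  set d : ℤ := Finset.univ.gcd P with hd
  have hd0 : d ≠ 0 := by
    intro h0
    apply hP
    funext i
    exact Finset.gcd_eq_zero_iff.mp h0 i (Finset.mem_univ i)
  have hdv : ∀ i, d ∣ P i := fun i => Finset.gcd_dvd (Finset.mem_univ i)
  choose Q hQ using hdv
  have hgQ : ∀ i, P i = d * Q i := hQ
  refine ⟨Q, ?_, ?_, ?_⟩
  · intro p hp hall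
    have h1 : d * p ∣ d := by
      have : d * p ∣ Finset.univ.gcd P := by
        apply Finset.dvd_gcd
        intro i _
        rw [hgQ i]
        exact mul_dvd_mul_left d (hall i)
      exact this
    have h2 : (p : ℤ) ∣ 1 := by
      have : d * p ∣ d * 1 := by rwa [mul_one]
      exact (mul_dvd_mul_iff_left hd0).mp this
    have h3 : (p : ℕ) ∣ 1 := by exact_mod_cast h2
    exact hp.one_lt.ne' (Nat.dvd_one.mp h3)
  · intro i
    rw [hgQ i, abs_mul]
    have : (1 : ℤ) ≤ |d| := Int.one_le_abs hd0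
    nlinarith [abs_nonneg (Q i)]
  · have c (a b : ℤ) (hab : d * a = 0) : a = 0 := by
      rcases mul_eq_zero.mp hab with h' | h'
      · exact absurd h' hd0
      · exact h'
    refine ⟨?_, ?_, ?_, ?_, ?_, ?_, ?_, ?_, ?_, ?_, ?_, ?_, ?_, ?_, ?_, ?_⟩

    · apply c _ 0
      have := h.e1
      simp only [hgQ] at this
      linear_combination this
    · apply c _ 0
      have := h.e2
      simp only [hgQ] at this
      linear_combination this
    · apply c _ 0
      have := h.e3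
      simp only [hgQ] at this
      linear_combination this
    · apply c _ 0
      have := h.e4
      simp only [hgQ] at this
      linear_combination this
    · apply c _ 0
      have := h.e5
      simp only [hgQ] at this
      linear_combination this
    · apply c _ 0
      have := h.e6
      simp only [hgQ] at this
      linear_combination this
    · apply c _ 0
      have := h.e7
      simp only [hgQ] at this
      linear_combination this
    · apply c _ 0
      have := h.e8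
      simp only [hgQ] at this
      linear_combination this
    · apply c _ 0
      have := h.e9
      simp only [hgQ] at this
      linear_combination this
    · apply c _ 0
      have := h.e10
      simp only [hgQ] at this
      linear_combination this
    · apply c _ 0
      have := h.e11
      simp only [hgQ] at this
      linear_combination this
    · apply c _ 0
      have := h.e12
      simp only [hgQ] at this
      linear_combination this
    · apply c _ 0
      have := h.e13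
      simp only [hgQ] at this
      linear_combination this
    · apply c _ 0
      have := h.e14
      simp only [hgQ] at this
      linear_combination this
    · apply c _ 0
      have := h.e15
      simp only [hgQ] at this
      linear_combination this
    · apply c _ 0
      have := h.e16
      simp only [hgQ] at this
      linear_combination this

end Pool.Agent.PP5D
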