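import Pool.Agent.PP5D.Sym

/-!
# PP5D/Red: reduction to the first coordinate
-/

set_option autoImplicit false

namespace Pool.Agent.PP5D

variable {R : Type*} [CommRing R]

/-- Reduction by the three symmetries to the coordinate `0`: `Q P x a` (`a` will be an extreme
coordinate of `P`) is invariant under the symmetries and under `a ↦ -a`.
PROOF. Classical decidability. For `e ∈ E8` let `S_e = S.filter (fun z => Q z.1 z.2 (z.1 e))`; `S` is the
union of the eight `S_e`, so `card S ≤ ∑ card S_e`. For each `e` there is a word `w_e` in the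
symmetries (see `ext8` in `Sym`: `id, sA, sB, sA sB, sC, sC sA, sC sB, sC sA sB` for
`e = 0, 2, 3, 5, 9, 6, 11, 8`) with `(w_e P) 0 = ± P e`; the map
`(P, x) ↦ (w_e P, w_e' x)` (with `tA, tB, tC` on `x` in the same order) is injective (`inj_sA` ...) and
maps `S_e` into a set as in `h`. -/
theorem red8 (Q : (Fin 12 → R) → (Fin 10 → R) → R → Prop)
    (hA : ∀ P x a, Q P x a → Q (sA P) (tA x) a) (hB : ∀ P x a, Q P x a → Q (sB P) (tB x) a)
    (hC : ∀ P x a, Q P x a → Q (sC P) (tC x) a) (hn : ∀ P x a, Q P x a → Q P x (-a)) (B : ℝ)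
    (h : ∀ S : Finset ((Fin 12 → R) × (Fin 10 → R)), (∀ z ∈ S, Q z.1 z.2 (z.1 0)) →
      (S.card : ℝ) ≤ B)
    (S : Finset ((Fin 12 → R) × (Fin 10 → R))) (hS : ∀ z ∈ S, ∃ e ∈ E8, Q z.1 z.2 (z.1 e)) :
    (S.card : ℝ) ≤ 8 * B := by
  classical
  have key : ∀ (e : Fin 12) (f : (Fin 12 → R) → (Fin 12 → R)) (g : (Fin 10 → R) → (Fin 10 → R)),
      Function.Injective f → Function.Injective g →
      (∀ P x a, Q P x a → Q (f P) (g x) a) → (∀ P, f P 0 = P e ∨ f P 0 = -P e) →
      ((S.filter (fun z => Q z.1 z.2 (z.1 e))).card : ℝ) ≤ B := by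
    intro e f g hf hg hq h0
    have hinj : Function.Injective
        (fun z : (Fin 12 → R) × (Fin 10 → R) => (f z.1, g z.2)) := by
      intro z w hzw
      have h1 : f z.1 = f w.1 := congrArg Prod.fst hzw
      have h2 : g z.2 = g w.2 := congrArg Prod.snd hzw
      exact Prod.ext (hf h1) (hg h2)
    rw [← Finset.card_image_of_injective (S.filter (fun z => Q z.1 z.2 (z.1 e))) hinj]
    apply h
    intro z hz
    rw [Finset.mem_image] at hz
    obtain ⟨w, hw, rfl⟩ := hz
    have hw2 := (Finset.mem_filter.1 hw).2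
    show Q (f w.1) (g w.2) (f w.1 0)
    rcases h0 w.1 with e1 | e1
    · rw [e1]
      exact hq _ _ _ hw2
    · rw [e1]
      exact hn _ _ _ (hq _ _ _ hw2)
  have hb : ∀ e ∈ E8, ((S.filter (fun z => Q z.1 z.2 (z.1 e))).card : ℝ) ≤ B := by
    intro e he
    simp only [E8, Finset.mem_insert, Finset.mem_singleton] at he
    rcases he with rfl | rfl | rfl | rfl | rfl | rfl | rfl | rfl
    · exact key 0 id id Function.injective_id Function.injective_id (fun _ _ _ hQ => hQ)
        (fun P => Or.inl rfl)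
    · exact key 2 sA tA inj_sA inj_tA hA (fun P => Or.inl (ext8 P).1)
    · exact key 3 sB tB inj_sB inj_tB hB (fun P => Or.inl (ext8 P).2.1)
    · exact key 5 (fun P => sA (sB P)) (fun x => tA (tB x)) (inj_sA.comp inj_sB)
        (inj_tA.comp inj_tB) (fun _ _ _ hQ => hA _ _ _ (hB _ _ _ hQ))
        (fun P => Or.inl (ext8 P).2.2.1)
    · exact key 6 (fun P => sC (sA P)) (fun x => tC (tA x)) (inj_sC.comp inj_sA)
        (inj_tC.comp inj_tA) (fun _ _ _ hQ => hC _ _ _ (hA _ _ _ hQ))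
        (fun P => Or.inr (ext8 P).2.2.2.2.1)
    · exact key 8 (fun P => sC (sA (sB P))) (fun x => tC (tA (tB x)))
        (inj_sC.comp (inj_sA.comp inj_sB)) (inj_tC.comp (inj_tA.comp inj_tB))
        (fun _ _ _ hQ => hC _ _ _ (hA _ _ _ (hB _ _ _ hQ)))
        (fun P => Or.inr (ext8 P).2.2.2.2.2.2)
    · exact key 9 sC tC inj_sC inj_tC hC (fun P => Or.inl (ext8 P).2.2.2.1)
    · exact key 11 (fun P => sC (sB P)) (fun x => tC (tB x)) (inj_sC.comp inj_sB)
        (inj_tC.comp inj_tB) (fun _ _ _ hQ => hC _ _ _ (hB _ _ _ hQ))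
        (fun P => Or.inl (ext8 P).2.2.2.2.2.1)
  have hsub : S ⊆ E8.biUnion (fun e => S.filter (fun z => Q z.1 z.2 (z.1 e))) := by
    intro z hz
    obtain ⟨e, he, hQ⟩ := hS z hz
    exact Finset.mem_biUnion.2 ⟨e, he, Finset.mem_filter.2 ⟨hz, hQ⟩⟩
  have h1 : S.card ≤ ∑ e ∈ E8, (S.filter (fun z => Q z.1 z.2 (z.1 e))).card :=
    (Finset.card_le_card hsub).trans Finset.card_biUnion_le
  have h2 : (S.card : ℝ) ≤ ∑ e ∈ E8, ((S.filter (fun z => Q z.1 z.2 (z.1 e))).card : ℝ) := by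
    exact_mod_cast h1
  have h3 : ∑ e ∈ E8, ((S.filter (fun z => Q z.1 z.2 (z.1 e))).card : ℝ) ≤ ∑ _e ∈ E8, B :=
    Finset.sum_le_sum hb
  have h4 : ∑ _e ∈ E8, B = 8 * B := by
    rw [Finset.sum_const]
    have : E8.card = 8 := rfl
    rw [this, nsmul_eq_mul]
    norm_num
  linarith

end Pool.Agent.PP5D
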