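import Pool.Agent.PP5D.Defs

/-!
# PP5D/Sym: the three symmetries (owner)
-/

set_option autoImplicit false

namespace Pool.Agent.PP5D

variable {R : Type*} [CommRing R]

theorem qq_sA (P : Fin 12 → R) : qq (sA P) = tA (qq P) := by
  funext j
  fin_cases j <;> simp [qq, sA, tA] <;> ring

theorem e16_A {P : P12} {x : X10} (h : E16 P x) : E16 (sA P) (tA x) := by
  constructor
  · simp only [sA, tA, Matrix.cons_val]
    linear_combination h.e12
  · simp only [sA, tA, Matrix.cons_val]
    linear_combination -h.e11
  · simp only [sA, tA, Matrix.cons_val]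
    linear_combination -h.e9
  · simp only [sA, tA, Matrix.cons_val]
    linear_combination -h.e10
  · simp only [sA, tA, Matrix.cons_val]
    linear_combination h.e14
  · simp only [sA, tA, Matrix.cons_val]
    linear_combination -h.e13
  · simp only [sA, tA, Matrix.cons_val]
    linear_combination h.e15
  · simp only [sA, tA, Matrix.cons_val]
    linear_combination h.e16
  · simp only [sA, tA, Matrix.cons_val]
    linear_combination -h.e3
  · simp only [sA, tA, Matrix.cons_val]
    linear_combination -h.e4
  · simp only [sA, tA, Matrix.cons_val]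
    linear_combination h.e2
  · simp only [sA, tA, Matrix.cons_val]
    linear_combination -h.e1
  · simp only [sA, tA, Matrix.cons_val]
    linear_combination h.e6
  · simp only [sA, tA, Matrix.cons_val]
    linear_combination -h.e5
  · simp only [sA, tA, Matrix.cons_val]
    linear_combination h.e7
  · simp only [sA, tA, Matrix.cons_val]
    linear_combination h.e8

theorem qq_sB (P : Fin 12 → R) : qq (sB P) = tB (qq P) := by
  funext j
  fin_cases j <;> simp [qq, sB, tB] <;> ring

theorem e16_B {P : P12} {x : X10} (h : E16 P x) : E16 (sB P) (tB x) := by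
  constructor
  · simp only [sB, tB, Matrix.cons_val]
    linear_combination h.e11
  · simp only [sB, tB, Matrix.cons_val]
    linear_combination h.e12
  · simp only [sB, tB, Matrix.cons_val]
    linear_combination -h.e10
  · simp only [sB, tB, Matrix.cons_val]
    linear_combination h.e9
  · simp only [sB, tB, Matrix.cons_val]
    linear_combination -h.e13
  · simp only [sB, tB, Matrix.cons_val]
    linear_combination -h.e14
  · simp only [sB, tB, Matrix.cons_val]
    linear_combination -h.e16
  · simp only [sB, tB, Matrix.cons_val]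
    linear_combination h.e15
  · simp only [sB, tB, Matrix.cons_val]
    linear_combination -h.e4
  · simp only [sB, tB, Matrix.cons_val]
    linear_combination h.e3
  · simp only [sB, tB, Matrix.cons_val]
    linear_combination h.e1
  · simp only [sB, tB, Matrix.cons_val]
    linear_combination h.e2
  · simp only [sB, tB, Matrix.cons_val]
    linear_combination -h.e5
  · simp only [sB, tB, Matrix.cons_val]
    linear_combination -h.e6
  · simp only [sB, tB, Matrix.cons_val]
    linear_combination -h.e8
  · simp only [sB, tB, Matrix.cons_val]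
    linear_combination h.e7

theorem qq_sC (P : Fin 12 → R) : qq (sC P) = tC (qq P) := by
  funext j
  fin_cases j <;> simp [qq, sC, tC] <;> ring

theorem e16_C {P : P12} {x : X10} (h : E16 P x) : E16 (sC P) (tC x) := by
  constructor
  · simp only [sC, tC, Matrix.cons_val]
    linear_combination h.e3
  · simp only [sC, tC, Matrix.cons_val]
    linear_combination h.e4
  · simp only [sC, tC, Matrix.cons_val]
    linear_combination h.e2
  · simp only [sC, tC, Matrix.cons_val]
    linear_combination h.e1
  · simp only [sC, tC, Matrix.cons_val]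
    linear_combination h.e7
  · simp only [sC, tC, Matrix.cons_val]
    linear_combination h.e8
  · simp only [sC, tC, Matrix.cons_val]
    linear_combination h.e6
  · simp only [sC, tC, Matrix.cons_val]
    linear_combination h.e5
  · simp only [sC, tC, Matrix.cons_val]
    linear_combination -h.e12
  · simp only [sC, tC, Matrix.cons_val]
    linear_combination -h.e11
  · simp only [sC, tC, Matrix.cons_val]
    linear_combination -h.e9
  · simp only [sC, tC, Matrix.cons_val]
    linear_combination -h.e10
  · simp only [sC, tC, Matrix.cons_val]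
    linear_combination -h.e15
  · simp only [sC, tC, Matrix.cons_val]
    linear_combination -h.e16
  · simp only [sC, tC, Matrix.cons_val]
    linear_combination -h.e14
  · simp only [sC, tC, Matrix.cons_val]
    linear_combination -h.e13

theorem F10_A (x : X10) : F10 (tA x) = F10 x := by
  simp only [F10, tA, Matrix.cons_val]
  ring

theorem F10_B (x : X10) : F10 (tB x) = F10 x := by
  simp only [F10, tB, Matrix.cons_val]
  ring

theorem F10_C (x : X10) : F10 (tC x) = -F10 x := by
  simp only [F10, tC, Matrix.cons_val]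
  ring

/-- up to signs the coordinates of `sA P` are the coordinates of `P` -/
def pA : Fin 12 → Fin 12 := ![2, 1, 0, 5, 4, 3, 9, 10, 11, 6, 7, 8]
/-- up to signs the coordinates of `sB P` are the coordinates of `P` -/
def pB : Fin 12 → Fin 12 := ![3, 4, 5, 0, 1, 2, 8, 7, 6, 11, 10, 9]
/-- up to signs the coordinates of `sC P` are the coordinates of `P` -/
def pC : Fin 12 → Fin 12 := ![9, 10, 11, 6, 7, 8, 2, 1, 0, 5, 4, 3]
/-- up to signs the coordinates of `tA x` are the coordinates of `x` -/
def rA : Fin 10 → Fin 10 := ![2, 1, 0, 3, 5, 4, 7, 6, 9, 8]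
/-- up to signs the coordinates of `tB x` are the coordinates of `x` -/
def rB : Fin 10 → Fin 10 := ![0, 3, 2, 1, 5, 4, 8, 9, 6, 7]
/-- up to signs the coordinates of `tC x` are the coordinates of `x` -/
def rC : Fin 10 → Fin 10 := ![1, 2, 3, 0, 4, 5, 7, 9, 6, 8]

theorem pA_surj (i : Fin 12) : ∃ k, pA k = i := by
  revert i; decide
theorem pB_surj (i : Fin 12) : ∃ k, pB k = i := by
  revert i; decide
theorem pC_surj (i : Fin 12) : ∃ k, pC k = i := by
  revert i; decide
theorem rA_surj (i : Fin 10) : ∃ k, rA k = i := by
  revert i; decide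
theorem rB_surj (i : Fin 10) : ∃ k, rB k = i := by
  revert i; decide
theorem rC_surj (i : Fin 10) : ∃ k, rC k = i := by
  revert i; decide

theorem co_sA (P : Fin 12 → R) (i : Fin 12) : sA P i = P (pA i) ∨ sA P i = -P (pA i) := by
  fin_cases i <;> simp [sA, pA]
theorem co_sB (P : Fin 12 → R) (i : Fin 12) : sB P i = P (pB i) ∨ sB P i = -P (pB i) := by
  fin_cases i <;> simp [sB, pB]
theorem co_sC (P : Fin 12 → R) (i : Fin 12) : sC P i = P (pC i) ∨ sC P i = -P (pC i) := by
  fin_cases i <;> simp [sC, pC]
theorem co_tA (x : Fin 10 → R) (i : Fin 10) : tA x i = x (rA i) ∨ tA x i = -x (rA i) := by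
  fin_cases i <;> simp [tA, rA]
theorem co_tB (x : Fin 10 → R) (i : Fin 10) : tB x i = x (rB i) ∨ tB x i = -x (rB i) := by
  fin_cases i <;> simp [tB, rB]
theorem co_tC (x : Fin 10 → R) (i : Fin 10) : tC x i = x (rC i) ∨ tC x i = -x (rC i) := by
  fin_cases i <;> simp [tC, rC]

/-- a property of one integer, invariant under change of sign, holds for all the coordinates of
`s P` if and only if it holds for all the coordinates of `P` -/
theorem all_s {n : ℕ} {f g : Fin n → R} {p : Fin n → Fin n} (hp : ∀ i, ∃ k, p k = i)
    (h : ∀ i, g i = f (p i) ∨ g i = -f (p i)) (q : R → Prop) (hq : ∀ z, q (-z) ↔ q z) :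
    (∀ i, q (g i)) ↔ ∀ i, q (f i) := by
  constructor
  · intro hg i
    obtain ⟨k, rfl⟩ := hp i
    rcases h k with e | e
    · rw [← e]; exact hg k
    · rw [← hq, ← e]; exact hg k
  · intro hf i
    rcases h i with e | e
    · rw [e]; exact hf _
    · rw [e, hq]; exact hf _

theorem ex_s {n : ℕ} {f g : Fin n → R} {p : Fin n → Fin n} (hp : ∀ i, ∃ k, p k = i)
    (h : ∀ i, g i = f (p i) ∨ g i = -f (p i)) (q : R → Prop) (hq : ∀ z, q (-z) ↔ q z) :
    (∃ i, q (g i)) ↔ ∃ i, q (f i) := by
  constructor
  · rintro ⟨i, hi⟩
    refine ⟨p i, ?_⟩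
    rcases h i with e | e
    · rw [← e]; exact hi
    · rw [← hq, ← e]; exact hi
  · rintro ⟨i, hi⟩
    obtain ⟨k, rfl⟩ := hp i
    refine ⟨k, ?_⟩
    rcases h k with e | e
    · rw [e]; exact hi
    · rw [e, hq]; exact hi

theorem inj_sA : Function.Injective (sA : (Fin 12 → R) → (Fin 12 → R)) := by
  intro P P' h
  have e : ∀ i, sA P i = sA P' i := fun i => by rw [h]
  funext i
  have h0 := e 0; have h1 := e 1; have h2 := e 2; have h3 := e 3; have h4 := e 4; have h5 := e 5
  have h6 := e 6; have h7 := e 7; have h8 := e 8; have h9 := e 9; have h10 := e 10; have h11 := e 11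
  simp only [sA, Matrix.cons_val, neg_inj] at h0 h1 h2 h3 h4 h5 h6 h7 h8 h9 h10 h11
  fin_cases i <;> assumption

theorem inj_sB : Function.Injective (sB : (Fin 12 → R) → (Fin 12 → R)) := by
  intro P P' h
  have e : ∀ i, sB P i = sB P' i := fun i => by rw [h]
  funext i
  have h0 := e 0; have h1 := e 1; have h2 := e 2; have h3 := e 3; have h4 := e 4; have h5 := e 5
  have h6 := e 6; have h7 := e 7; have h8 := e 8; have h9 := e 9; have h10 := e 10; have h11 := e 11
  simp only [sB, Matrix.cons_val, neg_inj] at h0 h1 h2 h3 h4 h5 h6 h7 h8 h9 h10 h11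
  fin_cases i <;> assumption

theorem inj_sC : Function.Injective (sC : (Fin 12 → R) → (Fin 12 → R)) := by
  intro P P' h
  have e : ∀ i, sC P i = sC P' i := fun i => by rw [h]
  funext i
  have h0 := e 0; have h1 := e 1; have h2 := e 2; have h3 := e 3; have h4 := e 4; have h5 := e 5
  have h6 := e 6; have h7 := e 7; have h8 := e 8; have h9 := e 9; have h10 := e 10; have h11 := e 11
  simp only [sC, Matrix.cons_val, neg_inj] at h0 h1 h2 h3 h4 h5 h6 h7 h8 h9 h10 h11
  fin_cases i <;> assumption

theorem inj_tA : Function.Injective (tA : (Fin 10 → R) → (Fin 10 → R)) := by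
  intro P P' h
  have e : ∀ i, tA P i = tA P' i := fun i => by rw [h]
  funext i
  have h0 := e 0; have h1 := e 1; have h2 := e 2; have h3 := e 3; have h4 := e 4; have h5 := e 5
  have h6 := e 6; have h7 := e 7; have h8 := e 8; have h9 := e 9
  simp only [tA, Matrix.cons_val, neg_inj] at h0 h1 h2 h3 h4 h5 h6 h7 h8 h9
  fin_cases i <;> assumption

theorem inj_tB : Function.Injective (tB : (Fin 10 → R) → (Fin 10 → R)) := by
  intro P P' h
  have e : ∀ i, tB P i = tB P' i := fun i => by rw [h]
  funext i
  have h0 := e 0; have h1 := e 1; have h2 := e 2; have h3 := e 3; have h4 := e 4; have h5 := e 5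
  have h6 := e 6; have h7 := e 7; have h8 := e 8; have h9 := e 9
  simp only [tB, Matrix.cons_val, neg_inj] at h0 h1 h2 h3 h4 h5 h6 h7 h8 h9
  fin_cases i <;> assumption

theorem inj_tC : Function.Injective (tC : (Fin 10 → R) → (Fin 10 → R)) := by
  intro P P' h
  have e : ∀ i, tC P i = tC P' i := fun i => by rw [h]
  funext i
  have h0 := e 0; have h1 := e 1; have h2 := e 2; have h3 := e 3; have h4 := e 4; have h5 := e 5
  have h6 := e 6; have h7 := e 7; have h8 := e 8; have h9 := e 9
  simp only [tC, Matrix.cons_val, neg_inj] at h0 h1 h2 h3 h4 h5 h6 h7 h8 h9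
  fin_cases i <;> assumption

/-- the eight extreme coordinates -/
theorem ext8 (P : Fin 12 → R) : sA P 0 = P 2 ∧ sB P 0 = P 3 ∧ sA (sB P) 0 = P 5 ∧ sC P 0 = P 9 ∧
    sC (sA P) 0 = -P 6 ∧ sC (sB P) 0 = P 11 ∧ sC (sA (sB P)) 0 = -P 8 := by
  simp [sA, sB, sC]

end Pool.Agent.PP5D
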