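import Pool.Agent.PP5D.Qx
import Pool.Agent.PP5D.Npu
import Pool.Agent.PP5D.Pur
import Pool.Agent.PP5D.Ten

/-!
# PP5D/Thn: Theorem N
-/

set_option autoImplicit false

namespace Pool.Agent.PP5D

/-- the dyadic induction for the non-pure part -/
private theorem thn_dyad {eps C lam : ℝ} (he : 0 < eps) (hC : 0 < C) (hl : 1 ≤ lam)
    (hten : ∀ T : ℝ, 1 ≤ T → ∀ S : Finset X10, (∀ x ∈ S, F10 x = 0 ∧ ∀ j, |(x j : ℝ)| ≤ T) →
      (S.card : ℝ) ≤ C * T ^ eps * T ^ 8)
    (hnp : ∀ T : ℝ, lam ≤ T →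
      ∀ S : Finset X10, (∀ x ∈ S, (∀ j, |(x j : ℝ)| ≤ T) ∧ (∃ j, T < 2 * |(x j : ℝ)|) ∧
        ∃ P : P12, Prm P ∧ (∀ i, |(P i : ℝ)| ≤ lam) ∧
          ∃ q : ℤ, q ≠ 0 ∧ ∀ j, qq P j = q * x j) →
        (S.card : ℝ) ≤ C * T ^ eps * (T ^ 4 * lam ^ 4)) (n : ℕ) :
    ∀ T : ℝ, 0 < T → T < 2 ^ n →
      ∀ S : Finset X10, (∀ x ∈ S, F10 x = 0 ∧ x ≠ 0 ∧ (∀ j, |(x j : ℝ)| ≤ T) ∧
        ∃ P : P12, Prm P ∧ (∀ i, |(P i : ℝ)| ≤ lam) ∧
          ∃ q : ℤ, q ≠ 0 ∧ ∀ j, qq P j = q * x j) →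
        (S.card : ℝ) ≤ 2 * C * T ^ eps * (T ^ 4 * lam ^ 4) := by
  have small : ∀ T : ℝ, 0 < T → T < 1 → ∀ S : Finset X10,
      (∀ x ∈ S, F10 x = 0 ∧ x ≠ 0 ∧ (∀ j, |(x j : ℝ)| ≤ T) ∧
        ∃ P : P12, Prm P ∧ (∀ i, |(P i : ℝ)| ≤ lam) ∧
          ∃ q : ℤ, q ≠ 0 ∧ ∀ j, qq P j = q * x j) →
        (S.card : ℝ) ≤ 2 * C * T ^ eps * (T ^ 4 * lam ^ 4) := by
    intro T hT0 hT1 S hS
    have hemp : S = ∅ := by
      refine Finset.eq_empty_of_forall_notMem fun x hx => ?_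
      obtain ⟨_, hx0, hxT, _⟩ := hS x hx
      apply hx0
      funext j
      have h1 : |(x j : ℝ)| < 1 := lt_of_le_of_lt (hxT j) hT1
      have h2 : |x j| < 1 := by
        have : ((|x j| : ℤ) : ℝ) < ((1 : ℤ) : ℝ) := by
          rw [Int.cast_abs]
          simpa using h1
        exact_mod_cast this
      exact Int.abs_lt_one_iff.mp h2
    rw [hemp]
    have : 0 ≤ T ^ eps := Real.rpow_nonneg hT0.le _
    simp only [Finset.card_empty, Nat.cast_zero]
    positivity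
  induction n with
  | zero =>
    intro T hT0 hT1
    exact small T hT0 (by simpa using hT1)
  | succ n ih =>
    intro T hT0 hT2 S hS
    rcases lt_or_ge T 1 with hT1 | hT1
    · exact small T hT0 hT1 S hS
    classical
    have hle : 0 ≤ T ^ eps := Real.rpow_nonneg hT0.le _
    set A := S.filter (fun x => ∃ j, T < 2 * |(x j : ℝ)|) with hA
    set B := S.filter (fun x => ¬ ∃ j, T < 2 * |(x j : ℝ)|) with hB
    have hcard : A.card + B.card = S.card := Finset.card_filter_add_card_filter_not _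
    have h1 : (A.card : ℝ) ≤ C * T ^ eps * (T ^ 4 * lam ^ 4) := by
      rcases le_total lam T with hlT | hlT
      · refine hnp T hlT A fun x hx => ?_
        obtain ⟨hxS, hj⟩ := Finset.mem_filter.mp hx
        obtain ⟨_, _, hxT, hP⟩ := hS x hxS
        exact ⟨hxT, hj, hP⟩
      · have h2 := hten T hT1 A fun x hx => ?_
        · refine h2.trans ?_
          have h3 : T ^ 8 ≤ T ^ 4 * lam ^ 4 := by
            have : T ^ 8 = T ^ 4 * T ^ 4 := by ring
            rw [this]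
            gcongr
          exact mul_le_mul_of_nonneg_left h3 (mul_nonneg hC.le hle)
        · obtain ⟨hxS, _⟩ := Finset.mem_filter.mp hx
          obtain ⟨hF, _, hxT, _⟩ := hS x hxS
          exact ⟨hF, hxT⟩
    have h2 : (B.card : ℝ) ≤ C * T ^ eps * (T ^ 4 * lam ^ 4) := by
      have h3 := ih (T / 2) (by positivity) (by rw [pow_succ] at hT2; linarith) B fun x hx => ?_
      · refine h3.trans ?_
        have h4 : (T / 2) ^ eps ≤ T ^ eps :=
          Real.rpow_le_rpow (by positivity) (by linarith) he.le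
        have h5 : 0 ≤ (T / 2) ^ eps := Real.rpow_nonneg (by positivity) _
        have h6 : 0 ≤ T ^ 4 * lam ^ 4 := by positivity
        calc 2 * C * (T / 2) ^ eps * ((T / 2) ^ 4 * lam ^ 4)
            = (1 / 8) * (C * (T / 2) ^ eps * (T ^ 4 * lam ^ 4)) := by ring
          _ ≤ 1 * (C * (T / 2) ^ eps * (T ^ 4 * lam ^ 4)) := by
              apply mul_le_mul_of_nonneg_right (by norm_num)
              positivity
          _ = C * (T / 2) ^ eps * (T ^ 4 * lam ^ 4) := one_mul _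
          _ ≤ C * T ^ eps * (T ^ 4 * lam ^ 4) := by gcongr
      · obtain ⟨hxS, hj⟩ := Finset.mem_filter.mp hx
        obtain ⟨hF, hx0, _, hP⟩ := hS x hxS
        refine ⟨hF, hx0, fun j => ?_, hP⟩
        push Not at hj
        have := hj j
        linarith
    have h3 : (S.card : ℝ) = A.card + B.card := by
      rw [← hcard]
      push_cast
      ring
    rw [h3]
    linarith

/-- THEOREM N.
PROOF. If `T ≤ lam`: `ten`, `T ^ 8 ≤ T ^ 4 * lam ^ 4`. Suppose `lam < T`.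
Each `x ∈ S` has a primitive `P` (`prim_ex` in `Qx`) and by `q_ex` (in `Qx`) an integer `q` with
`qq P j = q * x j` for all `j`. Let `S0` be the set of the `x` which have such a `P` with `q = 0`, `S1` the rest
(all have such a `P` with `q ≠ 0`). `S0`: `pur_count` (`P ≠ 0` since `P` is primitive).
`S1`: prove by induction on `n : ℕ` that for all `T` with `1 ≤ T ≤ 2 ^ n` (and this `lam ≥ 1`) the number of the
`x` (finsets of) with `F10 x = 0`, `x ≠ 0` (primitive), `|x j| ≤ T`, and `P`, `q ≠ 0` as above is at most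
`2 C T ^ eps * (T ^ 4 * lam ^ 4)`, `C` the maximum of the constants of `ten` and `np_count`: the `x` with
`T < 2 |x j|` for some `j` are at most `C T ^ eps T ^ 4 lam ^ 4` by `np_count` if `lam ≤ T`, by `ten` if `T < lam`;
the others have `|x j| ≤ T / 2` and are at most `2 C (T / 2) ^ eps (T / 2) ^ 4 lam ^ 4 ≤
(1 / 8) C T ^ eps T ^ 4 lam ^ 4` by the induction hypothesis (if `T / 2 < 1` they do not exist, as `x ≠ 0`). -/
theorem thn (eps : ℝ) (he : 0 < eps) : ∃ C : ℝ, 0 < C ∧ ∀ lam T : ℝ, 1 ≤ lam → 1 ≤ T →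
    ∀ S : Finset X10, (∀ x ∈ S, Prm x ∧ F10 x = 0 ∧ (∀ j, |(x j : ℝ)| ≤ T) ∧
      ∃ P : P12, P ≠ 0 ∧ (∀ i, |(P i : ℝ)| ≤ lam) ∧ E16 P x) →
      (S.card : ℝ) ≤ C * T ^ eps * (T ^ 4 * lam ^ 4 + T ^ 5 * lam ^ 3) := by
  obtain ⟨Ct, hCt, hten⟩ := ten eps he
  obtain ⟨Cn, hCn, hnp⟩ := np_count eps he
  obtain ⟨Cp, hCp, hpur⟩ := pur_count eps he
  set C := max Ct Cn with hCdef
  have hC : 0 < C := lt_max_of_lt_left hCt
  refine ⟨2 * C + Cp, by positivity, fun lam T hl hT S hS => ?_⟩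
  classical
  have hT0 : 0 < T := by linarith
  have hTe : 0 ≤ T ^ eps := Real.rpow_nonneg hT0.le _
  have hten' : ∀ T : ℝ, 1 ≤ T → ∀ S : Finset X10, (∀ x ∈ S, F10 x = 0 ∧ ∀ j, |(x j : ℝ)| ≤ T) →
      (S.card : ℝ) ≤ C * T ^ eps * T ^ 8 := by
    intro T hT S hS
    refine (hten T hT S hS).trans ?_
    have : 0 ≤ T ^ eps := Real.rpow_nonneg (by linarith) _
    have h : Ct ≤ C := le_max_left _ _
    have h8 : 0 ≤ T ^ 8 := by positivity
    exact mul_le_mul_of_nonneg_right (mul_le_mul_of_nonneg_right h this) h8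
  rcases le_total T lam with hTl | hlT
  · have h2 := hten' T hT S fun x hx => ⟨(hS x hx).2.1, (hS x hx).2.2.1⟩
    refine h2.trans ?_
    have h3 : T ^ 8 ≤ T ^ 4 * lam ^ 4 := by
      have : T ^ 8 = T ^ 4 * T ^ 4 := by ring
      rw [this]
      gcongr
    have h5 : 0 ≤ T ^ 5 * lam ^ 3 := by positivity
    have h6 : C ≤ 2 * C + Cp := by linarith
    calc C * T ^ eps * T ^ 8 ≤ C * T ^ eps * (T ^ 4 * lam ^ 4 + T ^ 5 * lam ^ 3) := by
          apply mul_le_mul_of_nonneg_left _ (mul_nonneg hC.le hTe)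
          linarith
      _ ≤ (2 * C + Cp) * T ^ eps * (T ^ 4 * lam ^ 4 + T ^ 5 * lam ^ 3) := by
          apply mul_le_mul_of_nonneg_right _ (by positivity)
          exact mul_le_mul_of_nonneg_right h6 hTe
  · set S0 := S.filter (fun x => ∃ P : P12, P ≠ 0 ∧ (∀ i, |(P i : ℝ)| ≤ lam) ∧
      (∀ j, qq P j = 0) ∧ E16 P x) with hS0
    set S1 := S.filter (fun x => ¬ ∃ P : P12, P ≠ 0 ∧ (∀ i, |(P i : ℝ)| ≤ lam) ∧
      (∀ j, qq P j = 0) ∧ E16 P x) with hS1
    have hcard : S0.card + S1.card = S.card := Finset.card_filter_add_card_filter_not _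
    have h0 : (S0.card : ℝ) ≤ Cp * T ^ eps * (T ^ 5 * lam ^ 3) := by
      refine hpur lam T hl hlT S0 fun x hx => ?_
      obtain ⟨hxS, hP⟩ := Finset.mem_filter.mp hx
      exact ⟨(hS x hxS).2.2.1, hP⟩
    obtain ⟨n, hn⟩ := pow_unbounded_of_one_lt T (one_lt_two)
    have h1 : (S1.card : ℝ) ≤ 2 * C * T ^ eps * (T ^ 4 * lam ^ 4) := by
      refine thn_dyad he hC hl hten' (fun T hT S hS => ?_) n T hT0 hn S1 fun x hx => ?_
      · refine (hnp lam T hl hT S hS).trans ?_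
        have hT' : 0 < T := by linarith
        have : 0 ≤ T ^ eps := Real.rpow_nonneg hT'.le _
        have h : Cn ≤ C := le_max_right _ _
        have h8 : 0 ≤ T ^ 4 * lam ^ 4 := by positivity
        exact mul_le_mul_of_nonneg_right (mul_le_mul_of_nonneg_right h this) h8
      · obtain ⟨hxS, hno⟩ := Finset.mem_filter.mp hx
        obtain ⟨hprm, hF, hxT, P, hP0, hPl, hE⟩ := hS x hxS
        obtain ⟨P', hP', hle, hE'⟩ := prim_ex hE hP0
        obtain ⟨q, hq⟩ := q_ex hE' hprm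
        have hP'l : ∀ i, |(P' i : ℝ)| ≤ lam := by
          intro i
          refine le_trans ?_ (hPl i)
          have := hle i
          have h' : ((|P' i| : ℤ) : ℝ) ≤ ((|P i| : ℤ) : ℝ) := by exact_mod_cast this
          rwa [Int.cast_abs, Int.cast_abs] at h'
        have hP'0 : P' ≠ 0 := by
          rintro rfl
          exact hP' 2 Nat.prime_two fun j => by simp
        refine ⟨hF, ?_, hxT, P', hP', hP'l, q, ?_, hq⟩
        · rintro rfl
          exact hprm 2 Nat.prime_two fun j => by simp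
        · rintro rfl
          exact hno ⟨P', hP'0, hP'l, fun j => by rw [hq j, zero_mul], hE'⟩
    have h3 : (S.card : ℝ) = S0.card + S1.card := by
      rw [← hcard]
      push_cast
      ring
    rw [h3]
    have h4 : 0 ≤ T ^ 4 * lam ^ 4 := by positivity
    have h5 : 0 ≤ T ^ 5 * lam ^ 3 := by positivity
    have e1 : 0 ≤ Cp * T ^ eps * (T ^ 4 * lam ^ 4) := by positivity
    have e2 : 0 ≤ 2 * C * T ^ eps * (T ^ 5 * lam ^ 3) := by positivity
    calc (S0.card : ℝ) + S1.card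
        ≤ Cp * T ^ eps * (T ^ 5 * lam ^ 3) + 2 * C * T ^ eps * (T ^ 4 * lam ^ 4) := add_le_add h0 h1
      _ ≤ (2 * C + Cp) * T ^ eps * (T ^ 4 * lam ^ 4 + T ^ 5 * lam ^ 3) := by
          have : (2 * C + Cp) * T ^ eps * (T ^ 4 * lam ^ 4 + T ^ 5 * lam ^ 3)
            = (Cp * T ^ eps * (T ^ 5 * lam ^ 3) + 2 * C * T ^ eps * (T ^ 4 * lam ^ 4))
              + Cp * T ^ eps * (T ^ 4 * lam ^ 4) + 2 * C * T ^ eps * (T ^ 5 * lam ^ 3) := by ring
          rw [this]
          linarith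

end Pool.Agent.PP5D
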