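import Pool.Agent.PP5D.Thn

/-!
# PP5D/Tnp: the non-pure part of Theorem N
-/

set_option autoImplicit false

namespace Pool.Agent.PP5D

/-- the dyadic induction for the non-pure part -/
private theorem tnp_dyad {eps C lam : ℝ} (he : 0 < eps) (hC : 0 < C) (hl : 1 ≤ lam)
    (hten : ∀ T : ℝ, 1 ≤ T → ∀ S : Finset X10, (∀ x ∈ S, F10 x = 0 ∧ ∀ j, |(x j : ℝ)| ≤ T) →
      (S.card : ℝ) ≤ C * T ^ eps * T ^ 8)
    (hnp : ∀ T : ℝ, lam ≤ T →
      ∀ S : Finset X10, (∀ x ∈ S, (∀ j, |(x j : ℝ)| ≤ T) ∧ (∃ j, T < 2 * |(x j : ℝ)|) ∧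
        ∃ P : P12, Prm P ∧ (∀ i, |(P i : ℝ)| ≤ lam) ∧
          ∃ q : ℤ, q ≠ 0 ∧ ∀ j, qq P j = q * x j) →
        (S.card : ℝ) ≤ C * T ^ eps * (T ^ 4 * lam ^ 4)) (n : ℕ) :
    ∀ T : ℝ, 0 < T → T < 2 ^ n →
      ∀ S : Finset X10, (∀ x ∈ S, F10 x = 0 ∧ x ≠ 0 ∧ (∀ j, |(x j : ℝ)| ≤ T) ∧
        ∃ P : P12, Prm P ∧ (∀ i, |(P i : ℝ)| ≤ lam) ∧
          ∃ q : ℤ, q ≠ 0 ∧ ∀ j, qq P j = q * x j) →
        (S.card : ℝ) ≤ 2 * C * T ^ eps * (T ^ 4 * lam ^ 4) := by
  have small : ∀ T : ℝ, 0 < T → T < 1 → ∀ S : Finset X10,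
      (∀ x ∈ S, F10 x = 0 ∧ x ≠ 0 ∧ (∀ j, |(x j : ℝ)| ≤ T) ∧
        ∃ P : P12, Prm P ∧ (∀ i, |(P i : ℝ)| ≤ lam) ∧
          ∃ q : ℤ, q ≠ 0 ∧ ∀ j, qq P j = q * x j) →
        (S.card : ℝ) ≤ 2 * C * T ^ eps * (T ^ 4 * lam ^ 4) := by
    intro T hT0 hT1 S hS
    have hemp : S = ∅ := by
      refine Finset.eq_empty_of_forall_notMem fun x hx => ?_
      obtain ⟨_, hx0, hxT, _⟩ := hS x hx
      apply hx0
      funext j
      have h1 : |(x j : ℝ)| < 1 := lt_of_le_of_lt (hxT j) hT1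
      have h2 : |x j| < 1 := by
        have : ((|x j| : ℤ) : ℝ) < ((1 : ℤ) : ℝ) := by
          rw [Int.cast_abs]
          simpa using h1
        exact_mod_cast this
      exact Int.abs_lt_one_iff.mp h2
    rw [hemp]
    have : 0 ≤ T ^ eps := Real.rpow_nonneg hT0.le _
    simp only [Finset.card_empty, Nat.cast_zero]
    positivity
  induction n with
  | zero =>
    intro T hT0 hT1
    exact small T hT0 (by simpa using hT1)
  | succ n ih =>
    intro T hT0 hT2 S hS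
    rcases lt_or_ge T 1 with hT1 | hT1
    · exact small T hT0 hT1 S hS
    classical
    have hle : 0 ≤ T ^ eps := Real.rpow_nonneg hT0.le _
    set A := S.filter (fun x => ∃ j, T < 2 * |(x j : ℝ)|) with hA
    set B := S.filter (fun x => ¬ ∃ j, T < 2 * |(x j : ℝ)|) with hB
    have hcard : A.card + B.card = S.card := Finset.card_filter_add_card_filter_not _
    have h1 : (A.card : ℝ) ≤ C * T ^ eps * (T ^ 4 * lam ^ 4) := by
      rcases le_total lam T with hlT | hlT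
      · refine hnp T hlT A fun x hx => ?_
        obtain ⟨hxS, hj⟩ := Finset.mem_filter.mp hx
        obtain ⟨_, _, hxT, hP⟩ := hS x hxS
        exact ⟨hxT, hj, hP⟩
      · have h2 := hten T hT1 A fun x hx => ?_
        · refine h2.trans ?_
          have h3 : T ^ 8 ≤ T ^ 4 * lam ^ 4 := by
            have : T ^ 8 = T ^ 4 * T ^ 4 := by ring
            rw [this]
            gcongr
          exact mul_le_mul_of_nonneg_left h3 (mul_nonneg hC.le hle)
        · obtain ⟨hxS, _⟩ := Finset.mem_filter.mp hx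
          obtain ⟨hF, _, hxT, _⟩ := hS x hxS
          exact ⟨hF, hxT⟩
    have h2 : (B.card : ℝ) ≤ C * T ^ eps * (T ^ 4 * lam ^ 4) := by
      have h3 := ih (T / 2) (by positivity) (by rw [pow_succ] at hT2; linarith) B fun x hx => ?_
      · refine h3.trans ?_
        have h4 : (T / 2) ^ eps ≤ T ^ eps :=
          Real.rpow_le_rpow (by positivity) (by linarith) he.le
        have h5 : 0 ≤ (T / 2) ^ eps := Real.rpow_nonneg (by positivity) _
        have h6 : 0 ≤ T ^ 4 * lam ^ 4 := by positivity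
        calc 2 * C * (T / 2) ^ eps * ((T / 2) ^ 4 * lam ^ 4)
            = (1 / 8) * (C * (T / 2) ^ eps * (T ^ 4 * lam ^ 4)) := by ring
          _ ≤ 1 * (C * (T / 2) ^ eps * (T ^ 4 * lam ^ 4)) := by
              apply mul_le_mul_of_nonneg_right (by norm_num)
              positivity
          _ = C * (T / 2) ^ eps * (T ^ 4 * lam ^ 4) := one_mul _
          _ ≤ C * T ^ eps * (T ^ 4 * lam ^ 4) := by gcongr
      · obtain ⟨hxS, hj⟩ := Finset.mem_filter.mp hx
        obtain ⟨hF, hx0, _, hP⟩ := hS x hxS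
        refine ⟨hF, hx0, fun j => ?_, hP⟩
        push Not at hj
        have := hj j
        linarith
    have h3 : (S.card : ℝ) = A.card + B.card := by
      rw [← hcard]
      push_cast
      ring
    rw [h3]
    linarith

/-- the `x` with a primitive non-pure `P` in `E_x` of size at most `lam` -/
theorem tnp (eps : ℝ) (he : 0 < eps) : ∃ C : ℝ, 0 < C ∧ ∀ lam T : ℝ, 1 ≤ lam → 1 ≤ T →
    ∀ S : Finset X10, (∀ x ∈ S, F10 x = 0 ∧ x ≠ 0 ∧ (∀ j, |(x j : ℝ)| ≤ T) ∧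
      ∃ P : P12, Prm P ∧ (∀ i, |(P i : ℝ)| ≤ lam) ∧ ∃ q : ℤ, q ≠ 0 ∧ ∀ j, qq P j = q * x j) →
      (S.card : ℝ) ≤ C * T ^ eps * (T ^ 4 * lam ^ 4) := by
  obtain ⟨Ct, hCt, hten⟩ := ten eps he
  obtain ⟨Cn, hCn, hnp⟩ := np_count eps he
  set C := max Ct Cn with hCdef
  have hC : 0 < C := lt_max_of_lt_left hCt
  refine ⟨2 * C, by positivity, fun lam T hl hT S hS => ?_⟩
  obtain ⟨n, hn⟩ := pow_unbounded_of_one_lt T (by norm_num : (1 : ℝ) < 2)
  refine tnp_dyad he hC hl ?_ ?_ n T (by linarith) hn S hS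
  · intro T hT S hS
    refine (hten T hT S hS).trans ?_
    have : 0 ≤ T ^ eps := Real.rpow_nonneg (by linarith) _
    have h : Ct ≤ C := le_max_left _ _
    have h8 : 0 ≤ T ^ 8 := by positivity
    exact mul_le_mul_of_nonneg_right (mul_le_mul_of_nonneg_right h this) h8
  · intro T hlT S hS
    refine (hnp lam T hl hlT S hS).trans ?_
    have : 0 ≤ T ^ eps := Real.rpow_nonneg (by linarith) _
    have h : Cn ≤ C := le_max_right _ _
    exact mul_le_mul_of_nonneg_right (mul_le_mul_of_nonneg_right h this) (by positivity)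

end Pool.Agent.PP5D
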