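import Pool.Agent.PP5D.Red
import Pool.Agent.PP5D.Ext
import Pool.Agent.PP5D.Chr

/-!
# PP5D/Uct: the count of points with small quadrics
-/

set_option autoImplicit false

namespace Pool.Agent.PP5D

/-- small points -/
private theorem uct_small (N M : ℝ) (hN : 1 ≤ N) (hM : N ≤ M) (S : Finset P12)
    (hS : ∀ P ∈ S, (∀ i, |(P i : ℝ)| ≤ N) ∧ ∀ i, (P i : ℝ) ^ 2 ≤ 8 * M) :
    (S.card : ℝ) ≤ 3 ^ 12 * N ^ 2 * (8 * M) ^ 5 := by
  classical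
  obtain ⟨r, hr1, hrN, hrM, hr⟩ : ∃ r : ℝ, 1 ≤ r ∧ r ≤ N ∧ r ^ 2 ≤ 8 * M ∧
      ∀ P ∈ S, ∀ i, |(P i : ℝ)| ≤ r := by
    refine ⟨min N (Real.sqrt (8 * M)), ?_, min_le_left _ _, ?_, ?_⟩
    · refine le_min hN ?_
      rw [Real.one_le_sqrt]
      linarith
    · have h1 : min N (Real.sqrt (8 * M)) ≤ Real.sqrt (8 * M) := min_le_right _ _
      have h0 : 0 ≤ min N (Real.sqrt (8 * M)) := le_min (by linarith) (Real.sqrt_nonneg _)
      have h2 : Real.sqrt (8 * M) ^ 2 = 8 * M := Real.sq_sqrt (by linarith)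
      calc min N (Real.sqrt (8 * M)) ^ 2 ≤ Real.sqrt (8 * M) ^ 2 := by
            exact pow_le_pow_left₀ h0 h1 2
        _ = 8 * M := h2
    · intro P hP i
      refine le_min ((hS P hP).1 i) ?_
      exact Real.abs_le_sqrt ((hS P hP).2 i)
  have hsub : S ⊆ Fintype.piFinset (fun _ : Fin 12 => Finset.Icc (-⌊r⌋) ⌊r⌋) := by
    intro P hP
    rw [Fintype.mem_piFinset]
    intro i
    have h1 := abs_le.mp (hr P hP i)
    rw [Finset.mem_Icc]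
    constructor
    · have h3 : -P i ≤ ⌊r⌋ := by
        rw [Int.le_floor]
        push_cast
        linarith [h1.1]
      linarith
    · rw [Int.le_floor]
      exact h1.2
  have hcard : (Fintype.piFinset (fun _ : Fin 12 => Finset.Icc (-⌊r⌋) ⌊r⌋)).card
      = (2 * ⌊r⌋ + 1).toNat ^ 12 := by
    rw [Fintype.card_piFinset]
    simp only [Int.card_Icc, Finset.prod_const, Finset.card_univ, Fintype.card_fin]
    congr 2
    ring
  have hfl : (1 : ℤ) ≤ ⌊r⌋ := by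
    rw [Int.le_floor]
    simpa using hr1
  have hle : ((2 * ⌊r⌋ + 1).toNat : ℝ) ≤ 3 * r := by
    have e : (((2 * ⌊r⌋ + 1).toNat : ℤ)) = 2 * ⌊r⌋ + 1 := Int.toNat_of_nonneg (by omega)
    have e2 : (((2 * ⌊r⌋ + 1).toNat : ℕ) : ℝ) = 2 * (⌊r⌋ : ℝ) + 1 := by
      have := congrArg (fun z : ℤ => (z : ℝ)) e
      push_cast at this
      exact this
    rw [e2]
    have := Int.floor_le r
    linarith
  calc (S.card : ℝ) ≤ ((Fintype.piFinset (fun _ : Fin 12 => Finset.Icc (-⌊r⌋) ⌊r⌋)).card : ℝ) := by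
        exact_mod_cast Finset.card_le_card hsub
    _ = ((2 * ⌊r⌋ + 1).toNat : ℝ) ^ 12 := by
        rw [hcard]
        push_cast
        rfl
    _ ≤ (3 * r) ^ 12 := pow_le_pow_left₀ (Nat.cast_nonneg _) hle 12
    _ = 3 ^ 12 * r ^ 2 * (r ^ 2) ^ 5 := by ring
    _ ≤ 3 ^ 12 * N ^ 2 * (8 * M) ^ 5 := by
        have h1 : r ^ 2 ≤ N ^ 2 := pow_le_pow_left₀ (by linarith) hrN 2
        have h2 : (r ^ 2) ^ 5 ≤ (8 * M) ^ 5 := pow_le_pow_left₀ (by positivity) hrM 5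
        have h3 : (0 : ℝ) ≤ (r ^ 2) ^ 5 := by positivity
        have h4 : (0 : ℝ) ≤ 3 ^ 12 * N ^ 2 := by positivity
        exact mul_le_mul (mul_le_mul_of_nonneg_left h1 (by norm_num)) h2 h3 h4

/-- the predicate -/
private def uQ (N M : ℝ) (P : Fin 12 → ℤ) (x : Fin 10 → ℤ) (a : ℤ) : Prop :=
  x = qq P ∧ a ≠ 0 ∧ |(a : ℝ)| ≤ N ∧ (∀ i, |P i| ≤ 4 * |a|) ∧ ∀ j, |((x j : ℤ) : ℝ)| ≤ M

private theorem uQ_red (N M : ℝ) (hN : 1 ≤ N) (hM : N ≤ M)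
    (S : Finset ((Fin 12 → ℤ) × (Fin 10 → ℤ))) (hS : ∀ z ∈ S, ∃ e ∈ E8, uQ N M z.1 z.2 (z.1 e)) :
    (S.card : ℝ) ≤ 8 * (2 * 9 ^ 6 * 5 ^ 5 * N ^ 2 * M ^ 5) := by
  classical
  have k1 (a : ℤ) (z : ℤ) : |(-z)| ≤ 4 * |a| ↔ |z| ≤ 4 * |a| := by rw [abs_neg]
  have k2 (z : ℤ) : |(((-z : ℤ)) : ℝ)| ≤ M ↔ |(z : ℝ)| ≤ M := by
    push_cast
    rw [abs_neg]
  refine red8 (uQ N M) ?_ ?_ ?_ ?_ _ ?_ S hS
  · rintro P x a ⟨h1, h2, h3, h4, h5⟩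
    refine ⟨?_, h2, h3, ?_, ?_⟩
    · rw [h1, qq_sA]
    · exact (all_s pA_surj (co_sA P) (fun z => |z| ≤ 4 * |a|) (k1 a)).mpr h4
    · exact (all_s rA_surj (co_tA x) (fun z : ℤ => |(z : ℝ)| ≤ M) k2).mpr h5
  · rintro P x a ⟨h1, h2, h3, h4, h5⟩
    refine ⟨?_, h2, h3, ?_, ?_⟩
    · rw [h1, qq_sB]
    · exact (all_s pB_surj (co_sB P) (fun z => |z| ≤ 4 * |a|) (k1 a)).mpr h4
    · exact (all_s rB_surj (co_tB x) (fun z : ℤ => |(z : ℝ)| ≤ M) k2).mpr h5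
  · rintro P x a ⟨h1, h2, h3, h4, h5⟩
    refine ⟨?_, h2, h3, ?_, ?_⟩
    · rw [h1, qq_sC]
    · exact (all_s pC_surj (co_sC P) (fun z => |z| ≤ 4 * |a|) (k1 a)).mpr h4
    · exact (all_s rC_surj (co_tC x) (fun z : ℤ => |(z : ℝ)| ≤ M) k2).mpr h5
  · rintro P x a ⟨h1, h2, h3, h4, h5⟩
    refine ⟨h1, neg_ne_zero.mpr h2, ?_, ?_, h5⟩
    · push_cast
      rw [abs_neg]
      exact h3
    · intro i
      rw [abs_neg]
      exact h4 i
  · intro T hT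
    have hinj : Set.InjOn (Prod.fst : (Fin 12 → ℤ) × (Fin 10 → ℤ) → (Fin 12 → ℤ)) T := by
      intro z hz w hw hzw
      have h1 := (hT z hz).1
      have h2 := (hT w hw).1
      refine Prod.ext hzw ?_
      rw [h1, h2, hzw]
    rw [← Finset.card_image_of_injOn hinj]
    apply chart_count N M hN hM
    intro P hP
    obtain ⟨z, hz, rfl⟩ := Finset.mem_image.mp hP
    obtain ⟨h1, h2, h3, h4, h5⟩ := hT z hz
    refine ⟨h2, h3, h4, ?_⟩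
    intro j
    have := h5 j
    rw [h1] at this
    exact this

/-- PROOF. Classical. Let `S1` be the set of the `P ∈ S` with `|P i| ^ 2 ≤ 8 M` for all `i`, `S2` the rest.
`S1`: with `r = min N (sqrt (8 M)) ≥ 1` all `|P i| ≤ r`, so
`card S1 ≤ (2 r + 1) ^ 12 ≤ (3 r) ^ 12 = 3 ^ 12 * r ^ 2 * (r ^ 2) ^ 5 ≤ 3 ^ 12 * N ^ 2 * (8 M) ^ 5`.
`S2`: let `n = max |P i|`, then `8 M < n ^ 2` and `ext_real` gives `e ∈ E8` with `n ≤ 4 |P e|`
(so `P e ≠ 0` as `n > 0`, and `|P i| ≤ 4 |P e|` for all `i`). Apply `red8` (over `ℤ`) with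
`Q P x a := x = qq P ∧ a ≠ 0 ∧ |(a : ℝ)| ≤ N ∧ (∀ i, |P i| ≤ 4 * |a|) ∧ ∀ j, |(x j : ℝ)| ≤ M`
(invariant by `qq_sA`, `all_s`, `co_sA`, `co_tA` ...), to the image of `S2` under `P ↦ (P, qq P)`, and
`chart_count`: `card S2 ≤ 8 * (2 * 9 ^ 6 * 5 ^ 5 * N ^ 2 * M ^ 5)`. -/
theorem u_count (N M : ℝ) (hN : 1 ≤ N) (hM : N ≤ M) (S : Finset P12)
    (hS : ∀ P ∈ S, (∀ i, |(P i : ℝ)| ≤ N) ∧ ∀ j, |((qq P j : ℤ) : ℝ)| ≤ M) :
    (S.card : ℝ) ≤ C1 * N ^ 2 * M ^ 5 := by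
  classical
  set S1 := S.filter (fun P => ∀ i, (P i : ℝ) ^ 2 ≤ 8 * M) with hS1
  set S2 := S.filter (fun P => ¬ ∀ i, (P i : ℝ) ^ 2 ≤ 8 * M) with hS2
  have hsplit : S1.card + S2.card = S.card := Finset.card_filter_add_card_filter_not _
  have b1 : (S1.card : ℝ) ≤ 3 ^ 12 * N ^ 2 * (8 * M) ^ 5 := by
    apply uct_small N M hN hM
    intro P hP
    obtain ⟨h1, h2⟩ := Finset.mem_filter.mp hP
    exact ⟨(hS P h1).1, h2⟩
  have hinj : Function.Injective (fun P : P12 => (P, qq P)) := by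
    intro P P' h
    exact congrArg Prod.fst h
  have b2 : (S2.card : ℝ) ≤ 8 * (2 * 9 ^ 6 * 5 ^ 5 * N ^ 2 * M ^ 5) := by
    rw [← Finset.card_image_of_injective S2 hinj]
    apply uQ_red N M hN hM
    intro z hz
    obtain ⟨P, hP, rfl⟩ := Finset.mem_image.mp hz
    obtain ⟨h1, h2⟩ := Finset.mem_filter.mp hP
    push Not at h2
    obtain ⟨i, hi⟩ := h2
    obtain ⟨m, -, hm⟩ := Finset.exists_max_image (Finset.univ : Finset (Fin 12)) (fun i => |(P i : ℝ)|)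
      ⟨0, Finset.mem_univ _⟩
    have hmn : ∀ i, |(P i : ℝ)| ≤ |(P m : ℝ)| := fun i => hm i (Finset.mem_univ i)
    have h8 : 8 * M < |(P m : ℝ)| ^ 2 := by
      have : (P i : ℝ) ^ 2 ≤ |(P m : ℝ)| ^ 2 := by
        rw [← sq_abs (P i : ℝ)]
        exact pow_le_pow_left₀ (abs_nonneg _) (hmn i) 2
      linarith
    obtain ⟨e, he, hen⟩ := ext_real hmn ⟨m, rfl⟩ (hS P h1).2 h8
    have hpos : 0 < |(P m : ℝ)| := by
      rcases (abs_nonneg (P m : ℝ)).lt_or_eq with h | h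
      · exact h
      · rw [← h] at h8
        norm_num at h8
        linarith
    refine ⟨e, he, rfl, ?_, (hS P h1).1 e, ?_, (hS P h1).2⟩
    · intro h0
      have h0' : P e = 0 := h0
      rw [h0'] at hen
      norm_num at hen
      rw [hen] at hpos
      norm_num at hpos
    · intro k
      have h3 : |(P k : ℝ)| ≤ 4 * |(P e : ℝ)| := (hmn k).trans hen
      exact_mod_cast h3
  have hc : (S.card : ℝ) = (S1.card : ℝ) + (S2.card : ℝ) := by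
    rw [← hsplit]
    push_cast
    rfl
  rw [hc]
  calc (S1.card : ℝ) + (S2.card : ℝ)
      ≤ 3 ^ 12 * N ^ 2 * (8 * M) ^ 5 + 8 * (2 * 9 ^ 6 * 5 ^ 5 * N ^ 2 * M ^ 5) := add_le_add b1 b2
    _ = C1 * N ^ 2 * M ^ 5 := by
        unfold C1
        ring

end Pool.Agent.PP5D
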